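import Mathlib

/-! Pivots. -/

set_option autoImplicit false

open scoped NNReal Classical
open Finset

namespace Pool.Agent.Lib.MP_3d78c5_nt

/-- `Q * d` is the least denominator divisible by `Q` in some interval of length `1 / F`. -/
def Piv (Q F d : ℕ) : Prop :=
  ∃ n v ρ : ℕ, 0 < v ∧ v < n ∧ ρ < Q * n ∧ Q * n ^ 2 ≤ F ∧ Q * d * n = F + v * ρ

theorem cnt_res {m y : ℕ} (hm : 0 < m) (h : y.Coprime m) (x : ℕ) : ∃ j < m, m ∣ x + y * j := by
  have : NeZero m := ⟨hm.ne'⟩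
  refine ⟨((y : ZMod m)⁻¹ * -x).val, ZMod.val_lt _, (ZMod.natCast_eq_zero_iff _ _).1 ?_⟩
  rw [Nat.cast_add, Nat.cast_mul, ZMod.natCast_zmod_val, ← mul_assoc, ZMod.coe_mul_inv_eq_one _ h,
    one_mul, add_neg_cancel]

theorem piv_sep {Q F d : ℕ} (hF : F.Prime) (h : Piv Q F d) : 0 < d ∧ d < F ∧ ∃ a k : ℕ,
    ¬ F ∣ a ∧ ¬ F ∣ a + 1 ∧ Q * (d * (a + 1)) / F = k + 1 ∧ Q * (d * a) / F = k ∧
      (k + 1).Coprime Q ∧ ∀ d' < d, Q * (d' * (a + 1)) / F = Q * (d' * a) / F := by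
  obtain ⟨n, v, ρ, v0, vn, hρ, hn, e⟩ := h
  have Q0 : 0 < Q := Nat.pos_of_mul_pos_right (Nat.zero_lt_of_lt hρ)
  have nF : n < F := by nlinarith
  have cop : F.Coprime v := Nat.coprime_of_lt_prime v0.ne' (vn.trans nF) hF
  obtain ⟨j, jv, b, hb⟩ := cnt_res v0 cop n
  have b1 : 1 < b := lt_of_mul_lt_mul_left (a := v) (by omega) v.zero_le
  have b2 : b < F := lt_of_mul_lt_mul_left (a := v) (by nlinarith) v.zero_le
  obtain ⟨a, rfl⟩ : ∃ a, b = a + 1 := ⟨b - 1, by omega⟩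
  have h1 : v * (Q * (d * (a + 1))) = F * (1 + j * (Q * d)) + v * ρ := by
    linear_combination e - Q * d * hb
  obtain ⟨c, hc⟩ : v ∣ 1 + j * (Q * d) := cop.symm.dvd_of_dvd_mul_left
    ((Nat.dvd_add_left (dvd_mul_right v ρ)).1 ⟨_, h1.symm⟩)
  obtain ⟨k, rfl⟩ : ∃ k, c = k + 1 := ⟨c - 1, by
    rcases c with _ | c
    · omega
    · rfl⟩
  have h2 : Q * (d * (a + 1)) = F * (k + 1) + ρ :=
    Nat.eq_of_mul_eq_mul_left v0 (by rw [h1, hc]; ring)
  have h3 : n ≤ d := le_of_mul_le_mul_left (a := Q * n) (by nlinarith) (by omega)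
  have h4 : v * ρ < F := by nlinarith
  have h5 : Q * d < F := by nlinarith
  have h6 : ρ < Q * d := hρ.trans_le (Nat.mul_le_mul_left Q h3)
  refine ⟨by omega, by nlinarith, a, k, Nat.not_dvd_of_pos_of_lt (by omega) (by omega),
    Nat.not_dvd_of_pos_of_lt (by omega) b2, Nat.div_eq_of_lt_le (by nlinarith) (by nlinarith),
    Nat.div_eq_of_lt_le (by nlinarith) (by nlinarith), Nat.isCoprime_iff_coprime.1
      ⟨v, -(j * d), by zify at hc; push_cast; linear_combination -hc⟩, fun d' hd => ?_⟩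
  by_contra ne
  have k1 := (Nat.div_lt_iff_lt_mul hF.pos).1 (lt_of_le_of_ne (Nat.div_le_div_right
    (Nat.mul_le_mul_left Q (Nat.mul_le_mul_left d' a.le_succ))) (Ne.symm ne))
  have k2 := Nat.div_mul_le_self (Q * (d' * (a + 1))) F
  generalize Q * (d' * (a + 1)) / F = k' at k1 k2
  have k3 : Q * d' * n ≤ Q * d * n := by gcongr
  have F0 := hF.pos
  zify at *
  have k4 : (k' * v - j * (Q * d') : ℤ) * F ≤ Q * d' * n := by
    have := mul_le_mul_of_nonneg_left k2 v0.le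
    linear_combination this - Q * d' * hb
  have k5 : (Q * d' * (n - v) : ℤ) < (k' * v - j * (Q * d')) * F := by
    have := mul_lt_mul_of_pos_left k1 v0
    linear_combination this + Q * d' * hb
  have k6 : (0 : ℤ) < k' * v - j * (Q * d') :=
    (mul_pos_iff_of_pos_right F0).1 ((mul_nonneg (mul_nonneg Q0.le d'.cast_nonneg)
      (sub_nonneg.2 vn.le)).trans_lt k5)
  have k7 : (k' * v - j * (Q * d') : ℤ) < 2 := lt_of_mul_lt_mul_right (by linarith) F0.le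
  have k8 : (k' * v - j * (Q * d') : ℤ) = 1 := by omega
  have k9 : (v : ℤ) ≤ d - d' := Int.le_of_dvd (sub_pos.2 hd)
    ((show IsCoprime (v : ℤ) (j * Q) from ⟨k + 1, -d, by linear_combination -hc⟩).dvd_of_dvd_mul_left
      ⟨k + 1 - k', by linear_combination hc + k8⟩)
  rw [k8] at k4
  nlinarith [mul_le_mul_of_nonneg_left k9 (mul_nonneg Q0.le (Nat.cast_nonneg (α := ℤ) n)),
    mul_lt_mul_of_pos_left hρ v0]

theorem cnt_primes {T W : ℕ} (hT : 1 < T) (W0 : 0 < W) (hW : W ^ 2 < T ^ 5) {s : Finset ℕ}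
    (h : ∀ v ∈ s, v.Prime ∧ T < v ^ 2 ∧ v ∣ W) : #s ≤ 4 := by
  have h1 : ∏ v ∈ s, v ∣ W := prod_primes_dvd W (fun v hv => (h v hv).1.prime) fun v hv => (h v hv).2.2
  have h2 : T ^ #s ≤ ∏ v ∈ s, v ^ 2 := pow_card_le_prod s _ T fun v hv => (h v hv).2.1.le
  rw [prod_pow] at h2
  exact Nat.lt_succ_iff.1 ((Nat.pow_lt_pow_iff_right hT).1
    ((h2.trans (Nat.pow_le_pow_left (Nat.le_of_dvd W0 h1) 2)).trans_lt hW))

/-- The combinatorial count. -/
theorem piv_count {Q F T : ℕ} (hQ : 0 < Q) (hF : F.Prime) (hT : 16 * Q ^ 2 ≤ T)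
    (h1 : Q * T ^ 3 ≤ F) (V : Finset ℕ) (hV : ∀ v ∈ V, v.Prime ∧ v ≤ T ∧ T < v ^ 2) :
    T * #V ≤ 100 * #{d ∈ range F | Piv Q F d} := by
  have T0 : 16 ≤ T := by nlinarith
  have hv : ∀ v ∈ V, 4 * Q < v := fun v k => lt_of_pow_lt_pow_left₀ 2 v.zero_le (by
    have := (hV v k).2.2
    nlinarith)
  let P : Finset (Σ _ : ℕ, ℕ) := V.sigma fun v => {n ∈ Ioc T (2 * T) | ¬ v ∣ n}
  have hP : ∀ x ∈ P, x.1 ∈ V ∧ T < x.2 ∧ x.2 ≤ 2 * T ∧ ¬ x.1 ∣ x.2 := fun x hx => by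
    simpa only [P, mem_sigma, mem_filter, mem_Ioc, and_assoc] using hx
  have h2 : T * #V ≤ 5 * #P := by
    rw [card_sigma, mul_sum, mul_comm, ← smul_eq_mul]
    refine card_nsmul_le_sum V _ T fun v k => ?_
    have e1 := card_filter_add_card_filter_not (s := Ioc T (2 * T)) (v ∣ ·)
    have e2 : #{n ∈ Ioc T (2 * T) | v ∣ n} ≤ 2 * T / 5 :=
      ((card_le_card (filter_subset_filter _ (Ioc_subset_Ioc_left T.zero_le))).trans_eq
        (Nat.Ioc_filter_dvd_card_eq_div _ _)).trans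
          (Nat.div_le_div_left (by have := hv v k; omega) (by norm_num))
    rw [Nat.card_Ioc] at e1
    omega
  have h3 : ∀ x : Σ _ : ℕ, ℕ, ∃ d, x ∈ P → ∃ ρ < Q * x.2, Q * d * x.2 = F + x.1 * ρ := fun x => by
    by_cases hx : x ∈ P
    · obtain ⟨a, b, -, c⟩ := hP x hx
      obtain ⟨ρ, k, d, e⟩ := cnt_res (m := Q * x.2) (Nat.mul_pos hQ (by omega))
        (Nat.Coprime.mul_right (((hV _ a).1.coprime_iff_not_dvd).2 (Nat.not_dvd_of_pos_of_lt hQ
          (by have := hv _ a; omega))) (((hV _ a).1.coprime_iff_not_dvd).2 c)) F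
      exact ⟨d, fun _ => ⟨ρ, k, by rw [e]; ring⟩⟩
    · exact ⟨0, fun h => absurd h hx⟩
  choose f hf using h3
  have h4 : 4 * Q * T ^ 2 < F := by nlinarith [Nat.mul_pos hQ (show 0 < T ^ 2 by positivity)]
  have h5 : #P ≤ 20 * #{d ∈ range F | Piv Q F d} := by
    refine card_le_mul_card_image_of_maps_to (f := f) (fun x hx => ?_) 20 fun d _ => ?_
    · obtain ⟨a, b, c, -⟩ := hP x hx
      obtain ⟨ρ, k, e⟩ := hf x hx
      have : Piv Q F (f x) := ⟨x.2, x.1, ρ, (hV _ a).1.pos, (hV _ a).2.1.trans_lt b, k,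
        by nlinarith [Nat.mul_le_mul_left Q (Nat.pow_le_pow_left c 2)], e⟩
      exact mem_filter.2 ⟨mem_range.2 (piv_sep hF this).2.1, this⟩
    have h6 : ∀ x ∈ P, f x = d → ∃ W, Q * d * x.2 = F + W ∧ x.1 ∣ W ∧ W < 2 * Q * T ^ 2 :=
      fun x hx e => by
        obtain ⟨a, b, c, -⟩ := hP x hx
        obtain ⟨ρ, k, e'⟩ := hf x hx
        refine ⟨_, e ▸ e', dvd_mul_right _ _, ?_⟩
        nlinarith [Nat.mul_le_mul_right ρ (hV _ a).2.1, Nat.mul_le_mul_left Q c]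
    refine (card_le_mul_card_image_of_maps_to (f := fun x => x.2)
      (t := Ico (F / (Q * d)) (F / (Q * d) + 5)) (fun x hx => ?_) 4 fun n _ => ?_).trans (by simp)
    · obtain ⟨hx, e⟩ := mem_filter.1 hx
      obtain ⟨a, b, c, -⟩ := hP x hx
      obtain ⟨W, e1, -, e2⟩ := h6 x hx e
      have k1 : T ^ 2 ≤ 2 * d := le_of_mul_le_mul_left (a := Q * T)
        (by nlinarith [Nat.mul_le_mul_left (Q * d) c]) (by positivity)
      have k2 : 0 < Q * d := Nat.mul_pos hQ (by nlinarith)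
      refine mem_Ico.2 ⟨Nat.div_le_of_le_mul (by omega), lt_of_mul_lt_mul_left (a := Q * d) ?_
        (Nat.zero_le _)⟩
      nlinarith [Nat.lt_mul_div_succ F k2, Nat.mul_le_mul_left Q k1]
    · rcases (filter (fun x : Σ _ : ℕ, ℕ => x.2 = n) {x ∈ P | f x = d}).eq_empty_or_nonempty with
        k | ⟨x, hx⟩
      · rw [k]
        exact Nat.zero_le _
      simp only [mem_filter] at hx
      obtain ⟨a, b, c, -⟩ := hP x hx.1.1
      obtain ⟨W, e1, -, e2⟩ := h6 x hx.1.1 hx.1.2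
      rw [← card_image_of_injOn (f := fun x => x.1) fun y hy z hz e => Sigma.ext e (heq_of_eq
        ((mem_filter.1 (mem_coe.1 hy)).2.trans (mem_filter.1 (mem_coe.1 hz)).2.symm))]
      refine cnt_primes (T := T) (W := W) (by omega) (Nat.pos_of_ne_zero fun e => ?_) ?_
        fun v k => ?_
      · rcases (Nat.dvd_prime hF).1 ⟨Q * d, by rw [mul_comm, e1, e, add_zero]⟩ with k | k
        · omega
        · nlinarith
      · nlinarith [Nat.pow_lt_pow_left e2 two_ne_zero, Nat.mul_le_mul_right (T ^ 4) hT]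
      · obtain ⟨y, hy, rfl⟩ := mem_image.1 k
        simp only [mem_filter] at hy
        obtain ⟨W', e3, e4, -⟩ := h6 y hy.1.1 hy.1.2
        rw [hy.2, ← hx.2, e1, add_right_inj] at e3
        exact ⟨(hV _ (hP y hy.1.1).1).1, (hV _ (hP y hy.1.1).1).2.2, e3 ▸ e4⟩
  omega

theorem cnt_pi {T : ℕ} (hT : 10 ^ 4 ≤ T) :
    T / (4 * Real.log T) ≤ #{v ∈ T.primesLE | T < v ^ 2} := by
  have T0 : (10 : ℝ) ^ 4 ≤ T := by exact_mod_cast hT
  obtain ⟨s, s0, hs⟩ : ∃ s : ℝ, 0 ≤ s ∧ s ^ 4 = T :=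
    ⟨T ^ ((4 : ℕ)⁻¹ : ℝ), by positivity, Real.rpow_inv_natCast_pow (by positivity) (by norm_num)⟩
  have s1 : 10 ≤ s := le_of_pow_le_pow_left₀ four_ne_zero s0 (hs ▸ T0)
  have l0 : 0 < Real.log T := Real.log_pos (by linarith)
  have l1 : Real.log T ≤ 4 * s := by
    rw [← hs, Real.log_pow]
    push_cast
    linarith [Real.log_le_self s0]
  have l2 : Real.log (T + 1) ≤ 2 * Real.log T := by
    rw [← Nat.cast_ofNat (n := 2), ← Real.log_pow]
    exact Real.log_le_log (by linarith) (by nlinarith)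
  have e1 := card_filter_add_card_filter_not (s := T.primesLE) (T < · ^ 2)
  have e2 : #{v ∈ T.primesLE | ¬ T < v ^ 2} ≤ T.sqrt := by
    refine (card_le_card fun v hv => ?_).trans_eq ((Nat.card_Ioc 0 _).trans (Nat.sub_zero _))
    obtain ⟨a, b⟩ := mem_filter.1 hv
    exact mem_Ioc.2 ⟨(Nat.mem_primesLE.1 a).2.pos, Nat.le_sqrt'.2 (not_lt.1 b)⟩
  have e3 : (T.sqrt : ℝ) ≤ s ^ 2 := le_of_pow_le_pow_left₀ two_ne_zero (by positivity) (by
    rw [← pow_mul, hs]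
    exact_mod_cast Nat.sqrt_le' T)
  have e4 := (div_le_iff₀ l0).1 (Chebyshev.pi_ge T)
  rw [← Nat.primesLE_card_eq_primeCounting, ← e1, Nat.cast_add, add_mul] at e4
  have e5 := mul_le_mul (((Nat.cast_le (α := ℝ)).2 e2).trans e3) l1 l0.le (by positivity)
  have e6 := mul_le_mul_of_nonneg_left Real.log_two_gt_d9.le (Nat.cast_nonneg (α := ℝ) T)
  rw [div_le_iff₀ (by positivity)]
  nlinarith [mul_le_mul_of_nonneg_right s1 (pow_nonneg s0 3), mul_le_mul_of_nonneg_right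
    (pow_le_pow_left₀ (by norm_num) s1 2) s0]

theorem piv_many {Q : ℕ} (hQ : 0 < Q) : ∃ κ : ℝ, 0 < κ ∧ ∃ F₀ : ℕ, ∀ F : ℕ, F.Prime → F₀ ≤ F →
    κ * (F : ℝ) ^ (2 / 3 : ℝ) / Real.log F + 1 ≤ #{d ∈ range F | Piv Q F d} := by
  refine ⟨1 / (3200 * Q ^ 2), by positivity, Q * (10 ^ 4 + 16 * Q ^ 2) ^ 3, fun F hF h => ?_⟩
  obtain ⟨T, h1, h2⟩ : ∃ T, Q * T ^ 3 ≤ F ∧ F < Q * (T + 1) ^ 3 := ⟨Nat.nthRoot 3 (F / Q),
    (Nat.mul_le_mul_left Q (Nat.pow_nthRoot_le (.inl three_ne_zero))).trans (Nat.mul_div_le F Q),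
    ((Nat.div_lt_iff_lt_mul hQ).1 (Nat.lt_pow_nthRoot_add_one three_ne_zero _)).trans_eq
      (mul_comm _ _)⟩
  have h3 : 10 ^ 4 + 16 * Q ^ 2 ≤ T := Nat.lt_succ_iff.1 (lt_of_pow_lt_pow_left₀ 3 (Nat.zero_le _)
    (lt_of_mul_lt_mul_left (h.trans_lt h2) Q.zero_le))
  have h4 := (Nat.cast_le (α := ℝ)).2 (piv_count hQ hF (by omega) h1 {v ∈ T.primesLE | T < v ^ 2}
    fun v hv => ⟨(Nat.mem_primesLE.1 (mem_filter.1 hv).1).2,
      (Nat.mem_primesLE.1 (mem_filter.1 hv).1).1, (mem_filter.1 hv).2⟩)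
  have h5 := cnt_pi (T := T) (by omega)
  have T0 : (10 : ℝ) ^ 4 ≤ T := by exact_mod_cast (by omega : 10 ^ 4 ≤ T)
  have l0 : 0 < Real.log T := Real.log_pos (by linarith)
  have l1 : Real.log T ≤ Real.log F := Real.log_le_log (by linarith) (by
    exact_mod_cast ((Nat.le_self_pow three_ne_zero T).trans (Nat.le_mul_of_pos_left _ hQ)).trans h1)
  have h6 : (F : ℝ) ^ (2 / 3 : ℝ) ≤ 4 * Q ^ 2 * T ^ 2 := by
    have : F ≤ (2 * Q * T) ^ 3 := by
      rw [mul_right_comm, mul_pow, mul_comm]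
      exact h2.le.trans (Nat.mul_le_mul (Nat.le_self_pow three_ne_zero Q)
        (Nat.pow_le_pow_left (by omega) 3))
    refine (Real.rpow_le_rpow F.cast_nonneg ((Nat.cast_le (α := ℝ)).2 this)
      (by norm_num)).trans_eq ?_
    rw [Nat.cast_pow, ← Real.rpow_natCast, ← Real.rpow_mul (by positivity)]
    norm_num
    ring
  have h7 : 1 / (3200 * (Q : ℝ) ^ 2) * (F : ℝ) ^ (2 / 3 : ℝ) / Real.log F ≤
      T ^ 2 / (800 * Real.log T) := by
    calc _ ≤ 1 / (3200 * (Q : ℝ) ^ 2) * (4 * Q ^ 2 * T ^ 2) / Real.log T := by gcongr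
      _ = _ := by field_simp; norm_num
  have h8 : 1 ≤ (T : ℝ) ^ 2 / (800 * Real.log T) := by
    rw [one_le_div (by positivity)]
    nlinarith [Real.log_le_self T.cast_nonneg]
  have h9 : (T : ℝ) * (T / (4 * Real.log T)) = 200 * (T ^ 2 / (800 * Real.log T)) := by
    field_simp
    norm_num
  push_cast at h4
  linarith [mul_le_mul_of_nonneg_left h5 T.cast_nonneg]

end Pool.Agent.Lib.MP_3d78c5_nt
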