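import Pool.Agent.Lib.MP_3d78c5_nt.Defs

/-! The image of the Galois group in the dual of its characters. -/

set_option autoImplicit false

open scoped TensorProduct

namespace Pool.Agent.Lib.MP_3d78c5_nt

open Pool.Agent.Lib.MP_f8d36e_nt (Qbar Gam Zbar)

variable {p : ℕ} [Fact p.Prime] {N : ℕ}

/-- Evaluation of characters at a group element. -/
noncomputable def ev (h : Hinf p N) : UC p N →ₗ[ℤ_[p]] QZ p := evU (UC p N) h

theorem ev_mul (g h : Hinf p N) : ev (g * h) = ev g + ev h :=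
  LinearMap.ext fun f => f.2.1 g h

theorem ev_one : ev (1 : Hinf p N) = 0 := by
  have := ev_mul (1 : Hinf p N) 1
  rw [mul_one] at this
  exact left_eq_add.1 this

theorem ev_pow (h : Hinf p N) (n : ℕ) : ev (h ^ n) = n • ev h := by
  induction n with
  | zero => rw [pow_zero, ev_one, zero_smul]
  | succ n ih => rw [pow_succ, ev_mul, ih, succ_nsmul]

omit [Fact p.Prime] in
theorem closed_Hinf : IsClosed (Hinf p N : Set Gam) := by
  have : (Hinf p N : Set Gam) = ⋂ (r : ℕ) (z : Qbar) (_ : z ^ (N * p ^ r) = 1),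
      (MulAction.stabilizer Gam z : Set Gam) := by
    ext σ
    simp only [Set.mem_iInter]
    rfl
  rw [this]
  exact isClosed_iInter fun _ => isClosed_iInter fun z => isClosed_iInter fun _ =>
    Subgroup.isClosed_of_isOpen _ (stabilizer_isOpen_of_isIntegral z)

instance : CompactSpace (Hinf p N) := isCompact_iff_compactSpace.1 closed_Hinf.isCompact

/-- The image of `ev` is closed for pointwise convergence. -/
theorem mem_range_ev {y : UC p N →ₗ[ℤ_[p]] QZ p}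
    (h : ∀ t : Finset (UC p N), ∃ g, ∀ f ∈ t, ev g f = y f) : y ∈ Set.range ev := by
  obtain ⟨g, hg⟩ := CompactSpace.iInter_nonempty
    (t := fun f : UC p N => {g : Hinf p N | ev g f = y f})
    (fun f => f.2.2.1.isClosed_fiber (y f)) fun t => by
      obtain ⟨g, hg⟩ := h t
      exact ⟨g, Set.mem_iInter₂.2 hg⟩
  exact ⟨g, LinearMap.ext (Set.mem_iInter.1 hg)⟩

theorem exists_pow_smul (x : QZ p) : ∃ n : ℕ, (p : ℤ_[p]) ^ n • x = 0 := by
  obtain ⟨x, rfl⟩ := Submodule.Quotient.mk_surjective _ x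
  obtain ⟨⟨a, ⟨b, hb⟩⟩, rfl⟩ := IsLocalization.mk'_surjective (nonZeroDivisors ℤ_[p]) x
  have hb0 : b ≠ 0 := nonZeroDivisors.ne_zero hb
  refine ⟨b.valuation, ?_⟩
  have h1 : b • (Submodule.Quotient.mk (IsLocalization.mk' ℚ_[p] a ⟨b, hb⟩) : QZ p) = 0 := by
    rw [← Submodule.Quotient.mk_smul, Submodule.Quotient.mk_eq_zero, Submodule.mem_one]
    exact ⟨a, by rw [Algebra.smul_def]; exact (IsLocalization.mk'_spec' ℚ_[p] a ⟨b, hb⟩).symm⟩
  have h2 : (p : ℤ_[p]) ^ b.valuation = ((PadicInt.unitCoeff hb0)⁻¹ : ℤ_[p]ˣ) * b := by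
    rw [Units.eq_inv_mul_iff_mul_eq]
    exact (PadicInt.unitCoeff_spec hb0).symm
  rw [h2, mul_smul]
  exact (congrArg _ h1).trans (smul_zero _)

variable (p N)

/-- The Galois group `X` of the maximal unramified abelian pro-`p` extension, as the image of
`Hinf` in the dual of the group of its characters. -/
noncomputable def XX : Submodule ℤ_[p] (UC p N →ₗ[ℤ_[p]] QZ p) where
  carrier := Set.range ev
  zero_mem' := ⟨1, ev_one⟩
  add_mem' := by
    rintro _ _ ⟨g, rfl⟩ ⟨h, rfl⟩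
    exact ⟨g * h, ev_mul g h⟩
  smul_mem' := by
    rintro c _ ⟨h, rfl⟩
    refine mem_range_ev fun t => ?_
    choose n hn using fun f : UC p N => exists_pow_smul (ev h f)
    refine ⟨h ^ c.appr (t.sup n), fun f hf => ?_⟩
    obtain ⟨e, he⟩ := Ideal.mem_span_singleton'.1 (PadicInt.appr_spec (t.sup n) c)
    obtain ⟨k, hk⟩ := Nat.exists_eq_add_of_le' (Finset.le_sup (f := n) hf)
    rw [ev_pow, LinearMap.smul_apply, LinearMap.smul_apply, ← Nat.cast_smul_eq_nsmul ℤ_[p],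
      eq_comm, ← sub_eq_zero, ← sub_smul, ← he, hk, pow_add, ← mul_assoc, mul_smul, hn, smul_zero]

variable {p N}

/-- The class of a group element in `X`. -/
noncomputable def cls (h : Hinf p N) : XX p N := ⟨ev h, h, rfl⟩

/-- The relations `a ⊗ s x = a θ(s) ⊗ x`, where `G` acts on `X` by conjugation. -/
noncomputable def Rel (θ : DirichletCharacter (PadicAlgCl p) (N * p)) :
    Submodule ℤ_[p] (OO θ ⊗[ℤ_[p]] XX p N) :=
  Submodule.span ℤ_[p] {t | ∃ (σ : Gam) (s : ℕ) (h h' : Hinf p N) (a : OO θ), Lift p N σ s ∧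
    (h' : Gam) = σ * h * σ⁻¹ ∧ t = a ⊗ₜ[ℤ_[p]] cls h' - (a * val θ s) ⊗ₜ[ℤ_[p]] cls h}

/-- The module `X_θ`, the tensor product of `Z_p[θ]` and `X` over `Z_p[G]`. -/
abbrev Xo (θ : DirichletCharacter (PadicAlgCl p) (N * p)) : Type :=
  (OO θ ⊗[ℤ_[p]] XX p N) ⧸ Rel θ

/-- The evaluations already form a module. -/
theorem img_eq : Img ℤ_[p] (evU (UC p N)) = XX p N := Submodule.span_eq (XX p N)

theorem subsingleton_Xθ {θ : DirichletCharacter (PadicAlgCl p) (N * p)}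
    (h : Subsingleton (Xo θ)) : Subsingleton (Xθ θ) := by
  have key : ∀ (X : Submodule ℤ_[p] (UC p N →ₗ[ℤ_[p]] QZ p)) (hm : ∀ k, ev k ∈ X), X = XX p N →
      Subsingleton ((OO θ ⊗[ℤ_[p]] X) ⧸ Submodule.span ℤ_[p] {t : OO θ ⊗[ℤ_[p]] X |
        ∃ (k k' : Hinf p N) (b a : OO θ), (∃ (σ : Gam) (s : ℕ), Lift p N σ s ∧
          (k' : Gam) = σ * k * σ⁻¹ ∧ b = val θ s) ∧
          t = a ⊗ₜ[ℤ_[p]] (⟨ev k', hm k'⟩ : X) - (a * b) ⊗ₜ[ℤ_[p]] (⟨ev k, hm k⟩ : X)}) := by
    rintro _ hm rfl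
    rw [Submodule.Quotient.subsingleton_iff] at h ⊢
    refine top_le_iff.1 (h.ge.trans (Submodule.span_mono ?_))
    rintro _ ⟨σ, s, k, k', a, h1, h2, rfl⟩
    exact ⟨k, k', _, a, ⟨σ, s, h1, h2, rfl⟩, rfl⟩
  exact key _ (mem_img ℤ_[p] (evU (UC p N))) img_eq

end Pool.Agent.Lib.MP_3d78c5_nt
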