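import Pool.Agent.Lib.MP_3d78c5_nt.D0
import Pool.Agent.Lib.MP_696deb_nt.B2.B3a
import Pool.Agent.Lib.MP_696deb_nt.B2.B3b

/-! The cyclotomic character at finite level. -/

set_option autoImplicit false

open scoped NNReal Classical
open Finset

namespace Pool.Agent.Lib.MP_3d78c5_nt

open Pool.Agent.Lib.MP_696deb_nt.B2

theorem exists_zt (m : ℕ) [NeZero m] : ∃ ζ : Qbar, IsPrimitiveRoot ζ m :=
  HasEnoughRootsOfUnity.exists_primitiveRoot Qbar m

/-- The action on the roots of unity of order dividing `m`. -/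
noncomputable def cl (m : ℕ) [NeZero m] : Gam →* (ZMod m)ˣ := (exists_zt m).choose_spec.autToPow ℚ

/-- The Galois group of `Qbar` over the `m`-th cyclotomic field. -/
noncomputable def Hm (m : ℕ) [NeZero m] : Subgroup Gam := (cl m).ker

/-- The coefficients of the Stickelberger element. -/
def nn (c m : ℕ) (t : (ZMod m)ˣ) : ℕ := c * (t : ZMod m).val / m

/-- The coefficients of its odd part. -/
def bb (c m y : ℕ) : ℤ := 2 * ((c * (y % m) / m : ℕ) : ℤ) - ((c : ℤ) - 1)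

variable {m : ℕ} [NeZero m] {g : Gam}

theorem cl_spec (g : Gam) {z : Qbar} (hz : z ^ m = 1) : g z = z ^ (cl m g : ZMod m).val := by
  obtain ⟨i, -, rfl⟩ := (exists_zt m).choose_spec.eq_pow_of_pow_eq_one hz
  rw [map_pow, ← (exists_zt m).choose_spec.autToPow_spec ℚ g, ← pow_mul, ← pow_mul, mul_comm]
  rfl

theorem cl_eq {s : ℕ} (h : ∀ z : Qbar, z ^ m = 1 → g z = z ^ s) : (cl m g : ZMod m) = s := by
  obtain ⟨ζ, hζ⟩ := exists_zt m
  have h1 := (cl_spec g hζ.pow_eq_one).symm.trans (h ζ hζ.pow_eq_one)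
  rw [(hζ.isUnit (NeZero.ne m)).unit_spec.symm, ← Units.val_pow_eq_pow_val,
    ← Units.val_pow_eq_pow_val, Units.val_inj, pow_eq_pow_iff_modEq,
    ← (hζ.isUnit_unit (NeZero.ne m)).eq_orderOf, ← ZMod.natCast_eq_natCast_iff,
    ZMod.natCast_zmod_val] at h1
  exact h1

theorem cl_surj : Function.Surjective (cl m) := fun t => by
  obtain ⟨ζ, hζ⟩ := exists_zt m
  have h1 := hζ.pow_of_coprime _ (ZMod.val_coe_unit_coprime t)
  have m0 := Nat.pos_of_ne_zero (NeZero.ne m)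
  obtain ⟨g, hg⟩ := minpoly.exists_algEquiv_of_root (K := ℚ) (x := ζ)
    (y := ζ ^ (t : ZMod m).val) (Algebra.IsAlgebraic.isAlgebraic _) (by
      rw [← Polynomial.cyclotomic_eq_minpoly_rat h1 m0, Polynomial.cyclotomic_eq_minpoly_rat hζ m0]
      exact minpoly.aeval _ _)
  refine ⟨g, Units.ext ?_⟩
  rw [cl_eq (s := (t : ZMod m).val), ZMod.natCast_zmod_val]
  intro z hz
  obtain ⟨i, -, rfl⟩ := hζ.eq_pow_of_pow_eq_one hz
  rw [map_pow, hg, ← pow_mul, ← pow_mul, mul_comm]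

theorem mem_Hm : g ∈ Hm m ↔ ∀ z : Qbar, z ^ m = 1 → g z = z := by
  refine ⟨fun h z hz => ?_, fun h => Units.ext ?_⟩
  · rw [cl_spec g hz, show cl m g = 1 from h, Units.val_one, ZMod.val_one_eq_one_mod,
      ← pow_eq_pow_mod _ hz, pow_one]
  · rw [cl_eq (s := 1) fun z hz => by rw [h z hz, pow_one], Nat.cast_one, Units.val_one]

theorem op_Hm : Op (Hm m) := by
  obtain ⟨ζ, hζ⟩ := exists_zt m
  refine Subgroup.isOpen_mono (fun g hg => mem_Hm.2 fun z hz => ?_) (b3a_op ζ)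
  obtain ⟨i, -, rfl⟩ := hζ.eq_pow_of_pow_eq_one hz
  rw [map_pow, show g ζ = ζ from hg]

theorem cl_map {m' : ℕ} [NeZero m'] (h : m ∣ m') (g : Gam) :
    ZMod.unitsMap h (cl m' g) = cl m g := by
  refine Units.ext ?_
  rw [cl_eq (m := m) (s := (cl m' g : ZMod m').val) fun z hz => cl_spec g (by
    obtain ⟨k, rfl⟩ := h
    rw [pow_mul, hz, one_pow]), ZMod.unitsMap_val, ZMod.natCast_val]

theorem Hm_le {m' : ℕ} [NeZero m'] (h : m ∣ m') : Hm m' ≤ Hm m := fun g hg => by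
  have := cl_map h g
  rw [show cl m' g = 1 from hg, map_one] at this
  exact this.symm

theorem cl_cc : cl m cc = -1 := by
  have m0 := Nat.pos_of_ne_zero (NeZero.ne m)
  refine Units.ext ?_
  rw [cl_eq (s := m - 1), Nat.cast_sub m0, ZMod.natCast_self, Nat.cast_one, zero_sub,
    Units.val_neg, Units.val_one]
  intro z hz
  refine jC.injective ?_
  have h1 : jC z ^ m = 1 := by rw [← map_pow, hz, map_one]
  have h2 : ‖jC z‖ = 1 := Complex.norm_eq_one_of_pow_eq_one h1 m0.ne'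
  rw [jC_cc, ← Complex.inv_eq_conj h2, map_pow]
  refine inv_eq_of_mul_eq_one_left ?_
  rw [← pow_succ, Nat.sub_add_cancel m0, h1]

theorem cl_frob {w : Plc} (h : IsFrob w w.p g) (hw : ¬ w.p ∣ m) : (cl m g : ZMod m) = w.p :=
  cl_eq fun _ hz => b3a_frob h hw hz

theorem ine_le_Hm {w : Plc} (hw : ¬ w.p ∣ m) : Ine w ≤ Hm m := fun g hg =>
  mem_Hm.2 fun z hz => by rw [b3a_frob (isFrob_one.2 hg) hw hz, pow_one]

theorem fx_congr {x : Qbar} (hx : Fx (Hm m) x) {g g' : Gam} (h : cl m g = cl m g') :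
    g x = g' x := by
  have h1 : g'⁻¹ * g ∈ Hm m := by
    rw [Hm, MonoidHom.mem_ker, map_mul, map_inv, h, inv_mul_cancel]
  rw [← hx _ h1, ← AlgEquiv.mul_apply g', mul_inv_cancel_left, hx _ h1]

theorem fx_smul {x : Qbar} (hx : Fx (Hm m) x) (g : Gam) : Fx (Hm m) (g x) := fun k hk => by
  rw [← AlgEquiv.mul_apply]
  exact fx_congr hx (by rw [map_mul, show cl m k = 1 from hk, one_mul])

variable {p N : ℕ} [Fact p.Prime] [NeZero N]

theorem mem_Hinf : g ∈ Hinf p N ↔ ∀ r : ℕ, g ∈ Hm (N * p ^ (r + 1)) :=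
  ⟨fun h r => mem_Hm.2 (h (r + 1)), fun h r z hz => mem_Hm.1 (h r) z (by
    rw [pow_succ, ← mul_assoc, pow_mul, hz, one_pow])⟩

omit [Fact p.Prime] [NeZero N] in
theorem conj_Hinf (σ : Gam) (h : g ∈ Hinf p N) : σ * g * σ⁻¹ ∈ Hinf p N := fun r z hz => by
  rw [AlgEquiv.mul_apply, AlgEquiv.mul_apply, h r (σ⁻¹ z) (by rw [← map_pow, hz, map_one])]
  exact σ.apply_symm_apply z

/-- Conjugation. -/
noncomputable def cj (σ : Gam) (h : Hinf p N) : Hinf p N := ⟨σ * h * σ⁻¹, conj_Hinf σ h.2⟩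

/-- Compactness. -/
theorem desc {C : Set Gam} (hC : IsClosed C) (h : ∀ r : ℕ, ∃ g ∈ C, g ∈ Hm (N * p ^ (r + 1))) :
    ∃ g ∈ C, g ∈ Hinf p N := by
  obtain ⟨g, hg⟩ := IsCompact.nonempty_iInter_of_sequence_nonempty_isCompact_isClosed
    (fun r : ℕ => C ∩ (Hm (N * p ^ (r + 1)) : Set Gam))
    (fun r g hg => ⟨hg.1, Hm_le (Nat.mul_dvd_mul_left N (pow_dvd_pow p (Nat.le_succ _))) hg.2⟩)
    (fun r => h r) (hC.inter op_Hm.closed).isCompact fun r => hC.inter op_Hm.closed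
  rw [Set.mem_iInter] at hg
  exact ⟨g, (hg 0).1, mem_Hinf.2 fun r => (hg r).2⟩

theorem dvd_level (N p r : ℕ) : N * p ∣ N * p ^ (r + 1) :=
  Nat.mul_dvd_mul_left N (dvd_pow_self p r.succ_ne_zero)

/-- Units that are trivial at the first level have order a power of `p`. -/
theorem pow_eq_one_of_map {r : ℕ} {t : (ZMod (N * p ^ (r + 1)))ˣ}
    (h : ZMod.unitsMap (dvd_level N p r) t = 1) : t ^ p ^ r = 1 := by
  have key : ∀ (x : ℤ) (k : ℕ), ((N * p : ℕ) : ℤ) ∣ x - 1 →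
      ((N * p ^ (k + 1) : ℕ) : ℤ) ∣ x ^ p ^ k - 1 := fun x k hx => by
    induction k with
    | zero => simpa using hx
    | succ k ih =>
      have h1 : (p : ℤ) ∣ ∑ i ∈ range p, (x ^ p ^ k) ^ i := by
        have h2 : (p : ℤ) ∣ x ^ p ^ k - 1 := Dvd.dvd.trans ⟨N * p ^ k, by push_cast; ring⟩ ih
        have h3 : ∑ i ∈ range p, (x ^ p ^ k) ^ i = ∑ i ∈ range p, ((x ^ p ^ k) ^ i - 1) + p := by
          simp
        rw [h3]
        exact dvd_add (dvd_sum fun i _ => h2.trans (sub_one_dvd_pow_sub_one _ i)) dvd_rfl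
      rw [pow_succ p k, pow_mul, ← mul_geom_sum, pow_succ p (k + 1), ← mul_assoc, Nat.cast_mul]
      exact mul_dvd_mul ih h1
  have h1 := congrArg Units.val h
  rw [ZMod.unitsMap_val, ← ZMod.natCast_val, Units.val_one] at h1
  have h2 := key (t : ZMod (N * p ^ (r + 1))).val r (by
    rw [← ZMod.intCast_zmod_eq_zero_iff_dvd]
    push_cast
    rw [h1, sub_self])
  rw [← ZMod.intCast_zmod_eq_zero_iff_dvd] at h2
  push_cast at h2
  rw [ZMod.natCast_zmod_val, sub_eq_zero] at h2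
  exact Units.ext (by rw [Units.val_pow_eq_pow_val, h2, Units.val_one])

/-- Lifts of finite order. -/
theorem exists_lift (hφ : ¬ p ∣ Nat.totient (N * p)) (s : (ZMod (N * p))ˣ) :
    ∃ σ : Gam, cl (N * p) σ = s ∧ σ ^ Nat.totient (N * p) ∈ Hinf p N := by
  have hcl : IsClosed {σ : Gam | cl (N * p) σ = s} := by
    obtain ⟨g, rfl⟩ := cl_surj s
    have : {σ : Gam | cl (N * p) σ = cl (N * p) g} =
        (fun σ => g⁻¹ * σ) ⁻¹' (Hm (N * p) : Set Gam) := by
      ext σ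
      simp only [Set.mem_ofPred_eq, Set.mem_preimage, SetLike.mem_coe, Hm, MonoidHom.mem_ker,
        map_mul, map_inv, inv_mul_eq_one]
      exact eq_comm
    rw [this]
    exact op_Hm.closed.preimage (continuous_const.mul continuous_id)
  obtain ⟨_, ⟨σ, h1, rfl⟩, h2⟩ := desc (p := p) (N := N)
    (hcl.isCompact.image (continuous_pow (Nat.totient (N * p)))).isClosed fun r => by
      obtain ⟨t, ht⟩ := ZMod.unitsMap_surjective (dvd_level N p r) s
      have φ0 : 0 < Nat.totient (N * p) := Nat.totient_pos.2 (Nat.pos_of_ne_zero (NeZero.ne _))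
      have hc : p.Coprime (Nat.totient (N * p)) := (Nat.Prime.coprime_iff_not_dvd Fact.out).2 hφ
      have hk : p ^ (Nat.totient (Nat.totient (N * p)) * r) ≡ 1 [MOD Nat.totient (N * p)] := by
        simpa only [pow_mul, one_pow] using (Nat.ModEq.pow_totient hc).pow r
      obtain ⟨j, hj⟩ : ∃ j, Nat.totient (Nat.totient (N * p)) * r = r + j :=
        Nat.exists_eq_add_of_le (Nat.le_mul_of_pos_left r (Nat.totient_pos.2 φ0))
      obtain ⟨g, hg⟩ := cl_surj (t ^ p ^ (r + j))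
      refine ⟨_, ⟨g, ?_, rfl⟩, ?_⟩
      · rw [Set.mem_ofPred_eq, ← cl_map (dvd_level N p r), hg, map_pow, ht, ← hj,
          pow_eq_pow_of_modEq hk (ZMod.pow_totient s), pow_one]
      · rw [Hm, MonoidHom.mem_ker, map_pow, hg, ← pow_mul, pow_mul', pow_add p r j, pow_mul,
          pow_eq_one_of_map (by rw [map_pow, ht, ZMod.pow_totient]), one_pow]
  exact ⟨σ, h1, h2⟩

/-- The `p`-adic sum attached to a character. -/
noncomputable def SS (θ : DirichletCharacter (PadicAlgCl p) (N * p)) (c : ℕ) : PadicAlgCl p :=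
  ∑ y ∈ range (N * p), (bb c (N * p) y : PadicAlgCl p) * (y : PadicAlgCl p) ^ (p - 2) * θ y

end Pool.Agent.Lib.MP_3d78c5_nt
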