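import Pool.Agent.Lib.MP_f8d36e_nt.Defs

/-! The unramified Iwasawa module of the cyclotomic tower and its eigenspaces. -/

set_option autoImplicit false

open scoped TensorProduct

namespace Pool.Agent.Lib.MP_3d78c5_nt

open Pool.Agent.Lib.MP_f8d36e_nt (Qbar Gam Zbar)

/-- The Galois group of `Qbar` over the field generated by the roots of unity of order dividing
`N * p ^ r` for some `r`. -/
def Hinf (p N : ℕ) : Subgroup Gam where
  carrier := {σ | ∀ (r : ℕ) (z : Qbar), z ^ (N * p ^ r) = 1 → σ z = z}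
  one_mem' := fun _ _ _ => rfl
  mul_mem' := fun {a b} ha hb r z hz => by
    rw [AlgEquiv.mul_apply, hb r z hz, ha r z hz]
  inv_mem' := fun {a} ha r z hz => by
    conv_lhs => rw [← ha r z hz]
    exact a.symm_apply_apply z

section Generic

variable (R A : Type) [CommRing R] [AddCommGroup A] [Module R A] {G : Type}

theorem chars_add [Mul G] [TopologicalSpace G] (S : Set G) {f f' : G → A}
    (h : (∀ g h, f (g * h) = f g + f h) ∧ IsLocallyConstant f ∧ ∀ g ∈ S, f g = 0)
    (h' : (∀ g h, f' (g * h) = f' g + f' h) ∧ IsLocallyConstant f' ∧ ∀ g ∈ S, f' g = 0) :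
    (∀ g h, (f + f') (g * h) = (f + f') g + (f + f') h) ∧ IsLocallyConstant (f + f') ∧
      ∀ g ∈ S, (f + f') g = 0 :=
  ⟨fun a b => by simp only [Pi.add_apply, h.1, h'.1]; abel, h.2.1.add h'.2.1, fun g hg => by
    simp only [Pi.add_apply, h.2.2 g hg, h'.2.2 g hg, add_zero]⟩

/-- The locally constant homomorphisms `G → A` that vanish on `S`. -/
def Chars [Mul G] [TopologicalSpace G] (S : Set G) : Submodule R (G → A) where
  carrier := {f | (∀ g h, f (g * h) = f g + f h) ∧ IsLocallyConstant f ∧ ∀ g ∈ S, f g = 0}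
  zero_mem' := ⟨fun _ _ => (add_zero _).symm, IsLocallyConstant.const 0, fun _ _ => rfl⟩
  add_mem' := chars_add A S
  smul_mem' := fun c f h => ⟨fun a b => by simp only [Pi.smul_apply, h.1, smul_add],
    h.2.1.comp (c • ·), fun g hg => by simp only [Pi.smul_apply, h.2.2 g hg, smul_zero]⟩

variable {A}

/-- The submodule generated by the values of `e`. -/
def Img (e : G → A) : Submodule R A := Submodule.span R (Set.range e)

theorem mem_img (e : G → A) (h : G) : e h ∈ Img R e := Submodule.subset_span ⟨h, rfl⟩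

/-- The value of `e` as an element of this submodule. -/
def cl₀ (e : G → A) (h : G) : Img R e := ⟨e h, mem_img R e h⟩

/-- The quotient of `O ⊗ Img e` by the relations `a ⊗ e h' = a b ⊗ e h` for `T h h' b`. -/
def Quo (e : G → A) (O : Type) [CommRing O] [Algebra R O] (T : G → G → O → Prop) : Type :=
  (O ⊗[R] Img R e) ⧸ Submodule.span R {t : O ⊗[R] Img R e | ∃ (h h' : G) (b a : O), T h h' b ∧
    t = a ⊗ₜ[R] cl₀ R e h' - (a * b) ⊗ₜ[R] cl₀ R e h}

variable {R}

/-- Evaluation of the functions in `U` at a point. -/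
def evU (U : Submodule R (G → A)) (h : G) : U →ₗ[R] A := (LinearMap.proj h).comp U.subtype

/-- The same quotient for the evaluation map into the dual of `U`. -/
def Eig (U : Submodule R (G → A)) (O : Type) [CommRing O] [Algebra R O]
    (T : G → G → O → Prop) : Type := Quo R (evU U) O T

end Generic

variable (p : ℕ) [Fact p.Prime] (N : ℕ)

/-- The group `Q_p / Z_p`. -/
abbrev QZ : Type := ℚ_[p] ⧸ (1 : Submodule ℤ_[p] ℚ_[p])

/-- The locally constant characters of `Hinf` with values in `Q_p / Z_p` that vanish on all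
inertia groups. The Galois group `X` of the maximal unramified abelian pro-`p` extension is the
image `Img _ (evU (UC p N))` of `Hinf` in the dual of this group. -/
noncomputable def UC : Submodule ℤ_[p] (Hinf p N → QZ p) :=
  Chars ℤ_[p] (QZ p) {g : Hinf p N | ∃ P : Ideal Zbar, P.IsMaximal ∧ (g : Gam) ∈ P.inertia Gam}

variable {p N}

/-- The `Z_p`-algebra generated by the values of a character. -/
noncomputable def OO (θ : DirichletCharacter (PadicAlgCl p) (N * p)) :
    Subalgebra ℤ_[p] (PadicAlgCl p) := Algebra.adjoin ℤ_[p] (Set.range θ)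

/-- A value of the character, as an element of this algebra. -/
noncomputable def val (θ : DirichletCharacter (PadicAlgCl p) (N * p)) (s : ℕ) : OO θ :=
  ⟨θ s, Algebra.subset_adjoin ⟨s, rfl⟩⟩

/-- `σ` represents the class of `s` in the finite group `G`: it raises the roots of unity of
order dividing `N * p` to the power `s`, and its image in the Galois group of the tower is killed
by the order of `G`. -/
def Lift (p N : ℕ) (σ : Gam) (s : ℕ) : Prop :=
  (∀ z : Qbar, z ^ (N * p) = 1 → σ z = z ^ s) ∧ σ ^ Nat.totient (N * p) ∈ Hinf p N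

/-- The module `X_θ`, the tensor product of `Z_p[θ]` and `X` over `Z_p[G]`, where `G` acts on `X`
by conjugation. -/
noncomputable def Xθ (θ : DirichletCharacter (PadicAlgCl p) (N * p)) : Type :=
  Eig (UC p N) (OO θ) fun h h' b => ∃ (σ : Gam) (s : ℕ), Lift p N σ s ∧
    (h' : Gam) = σ * h * σ⁻¹ ∧ b = val θ s

/-- The Teichmuller character. -/
def IsTeich (ω : DirichletCharacter (PadicAlgCl p) p) : Prop :=
  ∀ a : ℕ, ‖ω a - a‖ < 1

/-- The hypotheses of the problem on `N` and `θ`. -/
def Hyp (θ : DirichletCharacter (PadicAlgCl p) (N * p)) : Prop :=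
  ¬ p ∣ N ∧ ¬ p ∣ Nat.totient N ∧ θ.Even ∧ θ.IsPrimitive ∧
    ∀ ω : DirichletCharacter (PadicAlgCl p) p, IsTeich ω →
      ((∀ s : ℕ, s ≡ 1 [MOD N] → θ s = ω s) →
        ∀ t : ℕ, t ≡ p [MOD N] → t ≡ 1 [MOD p] → θ t ≠ 1) ∧
      (N = 1 → ¬ ∀ s : ℕ, θ s = ω s ^ 2)

end Pool.Agent.Lib.MP_3d78c5_nt
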