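import Pool.Agent.Lib.MP_3d78c5_nt.D1

/-! Oddness and the distribution relation. -/

set_option autoImplicit false

open scoped NNReal Classical
open Finset

namespace Pool.Agent.Lib.MP_3d78c5_nt

open Pool.Agent.Lib.MP_696deb_nt.B2

theorem bb_eq (c y : ℕ) {m : ℕ} :
    (m : ℤ) * bb c m y = 2 * (c * (y % m : ℕ) - (c * y % m : ℕ)) - m * ((c : ℤ) - 1) := by
  have h := Nat.div_add_mod (c * (y % m)) m
  have h2 : c * (y % m) % m = c * y % m := by rw [Nat.mul_mod_mod]
  rw [h2] at h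
  have h3 : (m : ℤ) * ((c * (y % m) / m : ℕ) : ℤ) + ((c * y % m : ℕ) : ℤ) =
      c * (y % m : ℕ) := by exact_mod_cast h
  rw [bb]
  linear_combination 2 * h3

theorem bb_neg {c m y : ℕ} (hc : ¬ m ∣ c) (hy : y.Coprime m) (h : y < m) :
    bb c m (m - y) = - bb c m y := by
  have m0 : 0 < m := by omega
  have h1 : ¬ m ∣ c * y := fun h1 => hc (hy.symm.dvd_of_dvd_mul_right h1)
  have y0 : y ≠ 0 := by
    rintro rfl
    exact h1 (by simp)
  have h2 : c * y % m ≠ 0 := fun h2 => h1 (Nat.dvd_of_mod_eq_zero h2)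
  have h3 : c * y % m < m := Nat.mod_lt _ m0
  have h4 : c * (m - y) % m = m - c * y % m := by
    have h5 : c * (m - y) ≡ m - c * y % m [MOD m] := by
      refine Nat.ModEq.add_right_cancel' (c * y) ?_
      rw [← mul_add, Nat.sub_add_cancel h.le]
      refine (Nat.modEq_zero_iff_dvd.2 (dvd_mul_left m c)).trans ?_
      refine (Nat.modEq_zero_iff_dvd.2 (dvd_refl m)).symm.trans ?_
      conv_lhs => rw [← Nat.sub_add_cancel h3.le]
      exact (Nat.mod_modEq _ _).add_left _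
    rw [h5, Nat.mod_eq_of_lt (by omega)]
  refine mul_left_cancel₀ (Int.natCast_ne_zero.2 m0.ne') ?_
  rw [mul_neg, bb_eq, bb_eq, h4, Nat.mod_eq_of_lt h, Nat.mod_eq_of_lt (by omega : m - y < m),
    Nat.cast_sub h.le, Nat.cast_sub h3.le]
  ring

theorem nn_sub {c m : ℕ} [NeZero m] (hc : ¬ m ∣ c) (t : (ZMod m)ˣ) :
    (nn c m t : ℤ) - nn c m (-t) = bb c m (t : ZMod m).val := by
  have hl := ZMod.val_lt (t : ZMod m)
  have h := bb_neg hc (ZMod.val_coe_unit_coprime t) hl
  have t0 : (t : ZMod m) ≠ 0 := fun h0 => by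
    have h1 := ZMod.val_coe_unit_coprime t
    rw [h0, ZMod.val_zero, Nat.coprime_zero_left] at h1
    exact hc (h1 ▸ one_dvd c)
  have hv : (t : ZMod m).val ≠ 0 := fun h0 => t0 ((ZMod.val_eq_zero _).1 h0)
  rw [bb, bb, Nat.mod_eq_of_lt hl, Nat.mod_eq_of_lt (by omega)] at h
  rw [nn, nn, Units.val_neg, ZMod.neg_val, if_neg t0, bb, Nat.mod_eq_of_lt hl]
  omega

theorem bb_mul (c m y : ℕ) {q : ℕ} (hq : 0 < q) : bb c (m * q) (q * y) = bb c m y := by
  rw [bb, bb, mul_comm m q, Nat.mul_mod_mul_left, mul_left_comm, Nat.mul_div_mul_left _ _ hq]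

theorem sum_mod {c q : ℕ} (hq : 0 < q) (hc : c.Coprime q) (A : ℕ) :
    ∑ k ∈ range q, (A + c * k) % q = ∑ k ∈ range q, k := by
  have hi : Set.InjOn (fun k => (A + c * k) % q) (range q : Set ℕ) := fun a ha b hb h => by
    have h1 : c * a ≡ c * b [MOD q] := Nat.ModEq.add_left_cancel' A h
    exact Nat.ModEq.eq_of_lt_of_lt (Nat.ModEq.cancel_left_of_coprime hc.symm h1)
      (mem_range.1 ha) (mem_range.1 hb)
  refine sum_nbij (fun k => (A + c * k) % q) (fun k _ => mem_range.2 (Nat.mod_lt _ hq)) hi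
    ?_ fun _ _ => rfl
  exact surjOn_of_injOn_of_card_le _ (fun k _ => mem_coe.2 (mem_range.2 (Nat.mod_lt _ hq))) hi
    le_rfl

theorem bb_dist {c m q : ℕ} (hm : 0 < m) (hq : 0 < q) (hc : c.Coprime q) {t : ℕ} (ht : t < m) :
    ∑ k ∈ range q, bb c (m * q) (t + k * m) = bb c m t := by
  have h1 : ∀ k ∈ range q, ((m * q : ℕ) : ℤ) * bb c (m * q) (t + k * m) =
      2 * (c * t - (c * t % m : ℕ)) - (m * q : ℕ) * ((c : ℤ) - 1) + 2 * c * m * k -
        2 * m * ((c * t / m + c * k) % q : ℕ) := fun k hk => by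
    have h2 : t + k * m < m * q := by
      have := Nat.mul_le_mul_left m (Nat.succ_le_of_lt (mem_range.1 hk))
      rw [Nat.mul_succ] at this
      rw [mul_comm k m]
      omega
    have h3 : c * (t + k * m) % (m * q) = c * t % m + m * ((c * t / m + c * k) % q) := by
      rw [Nat.mod_mul, mul_add, ← mul_assoc, Nat.add_mul_mod_self_right,
        Nat.add_mul_div_right _ _ hm]
    rw [bb_eq, h3, Nat.mod_eq_of_lt h2]
    push_cast
    ring
  have h4 : ∑ k ∈ range q, (((c * t / m + c * k) % q : ℕ) : ℤ) = ∑ k ∈ range q, (k : ℤ) := by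
    rw [← Nat.cast_sum, ← Nat.cast_sum, sum_mod hq hc (c * t / m)]
  have h5 : (∑ k ∈ range q, (k : ℤ)) * 2 = q * (q - 1) := by
    have := congrArg (Nat.cast : ℕ → ℤ) (sum_range_id_mul_two q)
    push_cast [Nat.cast_sub hq] at this
    exact this
  refine mul_left_cancel₀ (Int.natCast_ne_zero.2 (Nat.mul_pos hm hq).ne') ?_
  rw [mul_sum, sum_congr rfl h1, sum_sub_distrib, sum_add_distrib, ← mul_sum, ← mul_sum, h4,
    sum_const, card_range, nsmul_eq_mul]
  have h6 := bb_eq c t (m := m)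
  rw [Nat.mod_eq_of_lt ht] at h6
  push_cast at h6 ⊢
  linear_combination (-(q : ℤ)) * h6 + (c - 1 : ℤ) * m * h5

theorem sum_units {m : ℕ} [NeZero m] {R : Type} [AddCommMonoid R] (f : ℕ → R) :
    ∑ t : (ZMod m)ˣ, f (t : ZMod m).val = ∑ y ∈ range m with y.Coprime m, f y := by
  refine sum_bij (fun t _ => (t : ZMod m).val)
    (fun t _ => mem_filter.2 ⟨mem_range.2 (ZMod.val_lt _), ZMod.val_coe_unit_coprime t⟩)
    (fun a _ b _ h => Units.ext (ZMod.val_injective _ h)) (fun y hy => ?_) fun _ _ => rfl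
  obtain ⟨h1, h2⟩ := mem_filter.1 hy
  exact ⟨ZMod.unitOfCoprime y h2, mem_univ _, by
    rw [ZMod.coe_unitOfCoprime, ZMod.val_cast_of_lt (mem_range.1 h1)]⟩

theorem sum_range_mul {R : Type} [AddCommMonoid R] (m q : ℕ) (f : ℕ → R) :
    ∑ y ∈ range (m * q), f y = ∑ t ∈ range m, ∑ k ∈ range q, f (t + k * m) := by
  induction q with
  | zero => simp
  | succ q ih =>
    rw [Nat.mul_succ, sum_range_add, ih, ← sum_add_distrib]
    refine sum_congr rfl fun t _ => ?_
    rw [sum_range_succ, add_comm (m * q), mul_comm m q]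

theorem bb_units {p N c : ℕ} [Fact p.Prime] [NeZero N] (hc : c.Coprime p) (r : ℕ) {R : Type}
    [CommRing R] (f : (ZMod (N * p))ˣ → R) :
    ∑ t : (ZMod (N * p ^ (r + 1)))ˣ, (bb c (N * p ^ (r + 1)) (t : ZMod (N * p ^ (r + 1))).val : R) *
        f (ZMod.unitsMap (dvd_level N p r) t) =
      ∑ s : (ZMod (N * p))ˣ, (bb c (N * p) (s : ZMod (N * p)).val : R) * f s := by
  let φ : ℕ → R := fun y => if h : y.Coprime (N * p) then f (ZMod.unitOfCoprime y h) else 0
  have e : N * p ^ (r + 1) = N * p * p ^ r := by ring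
  have hco : ∀ y : ℕ, y.Coprime (N * p ^ (r + 1)) ↔ y.Coprime (N * p) := fun y => by
    rw [Nat.coprime_mul_iff_right, Nat.coprime_mul_iff_right,
      Nat.coprime_pow_right_iff r.succ_pos]
  have h1 : ∀ t : (ZMod (N * p ^ (r + 1)))ˣ, f (ZMod.unitsMap (dvd_level N p r) t) =
      φ (t : ZMod (N * p ^ (r + 1))).val := fun t => by
    simp only [φ, dif_pos ((hco _).1 (ZMod.val_coe_unit_coprime t))]
    congr 1
    refine Units.ext ?_
    rw [ZMod.unitsMap_val, ZMod.coe_unitOfCoprime, ZMod.natCast_val]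
  have h2 : ∀ s : (ZMod (N * p))ˣ, f s = φ (s : ZMod (N * p)).val := fun s => by
    simp only [φ, dif_pos (ZMod.val_coe_unit_coprime s)]
    congr 1
    refine Units.ext ?_
    rw [ZMod.coe_unitOfCoprime, ZMod.natCast_zmod_val]
  have h3 : ∀ t k : ℕ, φ (t + k * (N * p)) = φ t := fun t k => by
    by_cases h : t.Coprime (N * p)
    · simp only [φ, dif_pos h, dif_pos ((Nat.coprime_add_mul_right_left t _ k).2 h)]
      congr 1
      refine Units.ext ?_
      rw [ZMod.coe_unitOfCoprime, ZMod.coe_unitOfCoprime, Nat.cast_add, Nat.cast_mul k,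
        ZMod.natCast_self, mul_zero, add_zero]
    · simp only [φ, dif_neg h, dif_neg (mt (Nat.coprime_add_mul_right_left t _ k).1 h)]
  have h4 : ∀ y : ℕ, ¬ y.Coprime (N * p) → φ y = 0 := fun y h => dif_neg h
  simp only [h1, h2]
  rw [sum_units fun y => (bb c (N * p ^ (r + 1)) y : R) * φ y,
    sum_units fun y => (bb c (N * p) y : R) * φ y,
    sum_filter_of_ne fun y _ h => by
      by_contra h5
      exact h (by rw [h4 y (mt (hco y).2 h5), mul_zero]),
    sum_filter_of_ne fun y _ h => by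
      by_contra h5
      exact h (by rw [h4 y h5, mul_zero]), e, sum_range_mul]
  refine sum_congr rfl fun t ht => ?_
  simp only [h3]
  rw [← sum_mul, ← Int.cast_sum, bb_dist (Nat.pos_of_ne_zero (NeZero.ne _))
    (pow_pos (Fact.out : p.Prime).pos r) (hc.pow_right r) (mem_range.1 ht)]

end Pool.Agent.Lib.MP_3d78c5_nt
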