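import Pool.Agent.Lib.MP_3d78c5_nt.Nm

/-! A rank bound for the number of characters with a unit Fourier coefficient. -/

set_option autoImplicit false

open scoped NNReal Classical
open Finset

namespace Pool.Agent.Lib.MP_3d78c5_nt

theorem fourier_inv {p F : ℕ} [Fact p.Prime] [hF : Fact F.Prime] (g : ℕ → PadicAlgCl p)
    (gp : ∀ t, g (t % F) = g t) {y : ℕ} (hy : ¬ F ∣ y) :
    ((F - 1 : ℕ) : PadicAlgCl p) * g y = ∑ ψ : DirichletCharacter (PadicAlgCl p) F,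
      ψ (y : ZMod F)⁻¹ * ∑ t ∈ range F, ψ t * g t := by
  have hu : IsUnit (y : ZMod F) := by
    rwa [isUnit_iff_ne_zero, Ne, ZMod.natCast_eq_zero_iff]
  simp only [mul_sum, ← mul_assoc]
  rw [sum_comm]
  simp only [← sum_mul, DirichletCharacter.sum_char_inv_mul_char_eq _ hu]
  rw [sum_eq_single_of_mem (y % F) (mem_range.2 (Nat.mod_lt _ hF.out.pos)) fun t ht hne => ?_,
    if_pos (ZMod.natCast_mod y F).symm, gp, Nat.totient_prime hF.out]
  rw [if_neg, zero_mul]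
  intro h
  rw [ZMod.natCast_eq_natCast_iff', Nat.mod_eq_of_lt (mem_range.1 ht)] at h
  exact hne h.symm

theorem card_le_fourier {p F : ℕ} [Fact p.Prime] (hF : F.Prime) (hp : ¬ p ∣ F - 1)
    (g : ℕ → PadicAlgCl p) (g1 : ∀ t, ‖g t‖ ≤ 1) (gp : ∀ t, g (t % F) = g t) (S : Finset ℕ)
    (hS : ∀ d ∈ S, ¬ F ∣ d ∧ ∃ a b : ℕ, ¬ F ∣ a ∧ ¬ F ∣ b ∧ ‖g (d * a) - g (d * b)‖ = 1 ∧
      ∀ d' ∈ S, d' < d → ‖g (d' * a) - g (d' * b)‖ < 1) :
    #S ≤ Nat.card {ψ : DirichletCharacter (PadicAlgCl p) F //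
      ‖∑ t ∈ range F, ψ t * g t‖ = 1} := by
  have : Fact F.Prime := ⟨hF⟩
  suffices h : LinearIndependent (PadicAlgCl p) fun (d : S)
      (ψ : {ψ : DirichletCharacter (PadicAlgCl p) F // ‖∑ t ∈ range F, ψ t * g t‖ = 1}) =>
        ψ.1 ((d : ℕ) : ZMod F)⁻¹ by
    have h1 := h.fintype_card_le_finrank
    rwa [Module.finrank_fintype_fun_eq_card, Fintype.card_coe, ← Nat.card_eq_fintype_card] at h1
  have key : ∀ c : S → PadicAlgCl p, (∀ d, ‖c d‖ ≤ 1) →
      (∀ ψ : DirichletCharacter (PadicAlgCl p) F, ‖∑ t ∈ range F, ψ t * g t‖ = 1 →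
        ∑ d, c d * ψ ((d : ℕ) : ZMod F)⁻¹ = 0) → ∀ d, ‖c d‖ ≠ 1 := fun c c1 hc d₀ h₀ => by
    have h1 : ∀ y : ℕ, ¬ F ∣ y → ‖∑ d, c d * g (d * y)‖ < 1 := fun y hy => by
      have h2 : ((F - 1 : ℕ) : PadicAlgCl p) * ∑ d, c d * g (d * y) =
          ∑ ψ : DirichletCharacter (PadicAlgCl p) F, ψ (y : ZMod F)⁻¹ *
            ((∑ d, c d * ψ ((d : ℕ) : ZMod F)⁻¹) * ∑ t ∈ range F, ψ t * g t) := by
        simp only [sum_mul]
        simp only [mul_sum univ]
        rw [sum_comm]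
        refine sum_congr rfl fun d _ => ?_
        rw [mul_left_comm, fourier_inv g gp fun h => (hF.dvd_mul.1 h).elim (hS d d.2).1 hy,
          mul_sum]
        refine sum_congr rfl fun ψ _ => ?_
        rw [Nat.cast_mul, mul_inv, map_mul]
        ring
      have h3 := congrArg norm h2
      rw [norm_mul, nm_nat_eq hp, one_mul] at h3
      rw [h3]
      refine nm_sum_lt fun ψ _ => nm_mul_lt (ψ.norm_le_one _) ?_
      by_cases h : ‖∑ t ∈ range F, ψ t * g t‖ = 1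
      · rw [hc ψ h, zero_mul, norm_zero]
        exact zero_lt_one
      · exact nm_mul_lt (nm_sum_le fun d _ => nm_mul_le (c1 d) (ψ.norm_le_one _))
          (lt_of_le_of_ne (nm_sum_le fun t _ => nm_mul_le (ψ.norm_le_one _) (g1 t)) h)
    obtain ⟨d, hd, hmax⟩ := exists_max_image {d : S | ‖c d‖ = 1} (fun d => (d : ℕ))
      ⟨d₀, mem_filter.2 ⟨mem_univ _, h₀⟩⟩
    obtain ⟨-, a, b, ha, hb, e1, e2⟩ := hS d d.2
    have sub : ∀ {x y : PadicAlgCl p}, ‖x‖ < 1 → ‖y‖ < 1 → ‖x - y‖ < 1 := fun hx hy => by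
      rw [sub_eq_add_neg]
      exact nm_add_lt hx (by rwa [norm_neg])
    have h3 := sub (h1 a ha) (h1 b hb)
    rw [← sum_sub_distrib, ← add_sum_erase _ _ (mem_univ d)] at h3
    have h4 := sub h3 (nm_sum_lt (s := univ.erase d)
      (f := fun x => c x * g (x * a) - c x * g (x * b)) fun x hx => by
        rw [← mul_sub]
        by_cases h : ‖c x‖ = 1
        · exact nm_mul_lt (c1 x) (e2 x x.2 (lt_of_le_of_ne (hmax x (mem_filter.2 ⟨mem_univ _, h⟩))
            fun h => ne_of_mem_erase hx (Subtype.ext h)))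
        · rw [mul_comm, sub_eq_add_neg]
          exact nm_mul_lt ((IsUltrametricDist.norm_add_le_max _ _).trans
            (max_le (g1 _) (by rw [norm_neg]; exact g1 _))) (lt_of_le_of_ne (c1 x) h))
    rw [add_sub_cancel_right, ← mul_sub, norm_mul, e1, (mem_filter.1 hd).2, one_mul] at h4
    exact lt_irrefl _ h4
  rw [Fintype.linearIndependent_iff]
  intro c hc i
  by_contra hi
  obtain ⟨j, -, hj⟩ := exists_max_image univ (fun d => ‖c d‖) ⟨i, mem_univ i⟩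
  have j0 : 0 < ‖c j‖ := (norm_pos_iff.2 hi).trans_le (hj i (mem_univ i))
  refine key (fun d => (c j)⁻¹ * c d) (fun d => ?_) (fun ψ hψ => ?_) j ?_
  · rw [norm_mul, norm_inv]
    exact (inv_mul_le_one₀ j0).2 (hj d (mem_univ d))
  · have := congrFun hc ⟨ψ, hψ⟩
    simp only [Finset.sum_apply, Pi.smul_apply, smul_eq_mul, Pi.zero_apply] at this
    simp only [mul_assoc, ← mul_sum, this, mul_zero]
  · rw [inv_mul_cancel₀ (norm_pos_iff.1 j0), norm_one]

end Pool.Agent.Lib.MP_3d78c5_nt
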