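import Pool.Agent.Lib.MP_3d78c5_nt.Rl

/-! Descent of the relation to the first level. -/

set_option autoImplicit false

open scoped NNReal Classical
open Finset

namespace Pool.Agent.Lib.MP_3d78c5_nt

open Pool.Agent.Lib.MP_696deb_nt.B2

/-- The Frobenius map of a group algebra. -/
theorem frob_rel {p : ℕ} [Fact p.Prime] {G V : Type} [CommGroup G] [Fintype G] [AddCommGroup V]
    [Module (ZMod p) V] (ρ : G →* Module.End (ZMod p) V) (a : G → ZMod p) {v : V}
    (h : ∑ t, a t • ρ t v = 0) (k : ℕ) : ∑ t, a t • ρ (t ^ p ^ k) v = 0 := by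
  have : CharP (MonoidAlgebra (ZMod p) G) p :=
    charP_of_injective_algebraMap (R := ZMod p) (MonoidAlgebra.single_right_injective) p
  let L := MonoidAlgebra.lift (ZMod p) (Module.End (ZMod p) V) G ρ
  have h1 := congrArg (fun x => L x v)
    (sum_pow_char_pow p k univ fun t : G => MonoidAlgebra.single t (a t))
  obtain ⟨n, hn⟩ : ∃ n, p ^ k = n + 1 :=
    Nat.exists_eq_succ_of_ne_zero (pow_ne_zero k (Fact.out : p.Prime).ne_zero)
  simp only [MonoidAlgebra.single_pow, ZMod.pow_card_pow, map_pow L, map_sum, L,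
    MonoidAlgebra.lift_single, LinearMap.sum_apply, LinearMap.smul_apply] at h1
  rw [← h1, hn, pow_succ, Module.End.mul_apply, LinearMap.sum_apply]
  simp only [LinearMap.smul_apply, h, map_zero]

variable {p N : ℕ} [Fact p.Prime] [NeZero N]

theorem core {κ : Gam → ZMod p} (h : Unr p N κ) {c : ℕ} (hc0 : 0 < c) (hc : c < N * p)
    (hcp : c.Coprime p) (hφ : ¬ p ∣ Nat.totient (N * p)) (τ : (ZMod (N * p))ˣ → Gam)
    (hτ : ∀ s, cl (N * p) (τ s) = s ∧ τ s ^ Nat.totient (N * p) ∈ Hinf p N) :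
    ∀ k ∈ Hinf p N, ∑ s : (ZMod (N * p))ˣ, (bb c (N * p) (s : ZMod (N * p)).val : ZMod p) *
      (((s : ZMod (N * p)).val : ZMod p)⁻¹ * κ (τ s * k * (τ s)⁻¹)) = 0 := by
  intro k hk
  obtain ⟨r, h1, h2⟩ := rel_level h hc0 hc
  have K : ∀ g g' : Gam, cl (N * p ^ (r + 1)) g = cl (N * p ^ (r + 1)) g' →
      κ (g * k * g⁻¹) = κ (g' * k * g'⁻¹) := fun g g' e => by
    rw [← h1 (g * g'⁻¹) (by rw [Hm, MonoidHom.mem_ker, map_mul, map_inv, e, mul_inv_cancel]) _
      (conj_Hinf g' hk)]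
    exact congrArg κ (by group)
  choose σ hσ using cl_surj (m := N * p ^ (r + 1))
  let ρ : (ZMod (N * p ^ (r + 1)))ˣ →* Module.End (ZMod p) ((ZMod (N * p ^ (r + 1)))ˣ → ZMod p) :=
    { toFun t := LinearMap.funLeft _ _ (t * ·)
      map_one' := LinearMap.ext fun f => funext fun u => congrArg f (one_mul u)
      map_mul' t t' := LinearMap.ext fun f => funext fun u =>
        congrArg f ((mul_assoc t t' u).trans (mul_left_comm t t' u)) }
  have φ0 : 0 < Nat.totient (N * p) := Nat.totient_pos.2 (Nat.pos_of_ne_zero (NeZero.ne _))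
  have hp : p.Coprime (Nat.totient (N * p)) := (Nat.Prime.coprime_iff_not_dvd Fact.out).2 hφ
  have hj : p ^ (Nat.totient (Nat.totient (N * p)) * r) ≡ 1 [MOD Nat.totient (N * p)] := by
    simpa only [pow_mul, one_pow] using (Nat.ModEq.pow_totient hp).pow r
  obtain ⟨j, e⟩ : ∃ j, Nat.totient (Nat.totient (N * p)) * r = r + j :=
    Nat.exists_eq_add_of_le (Nat.le_mul_of_pos_left r (Nat.totient_pos.2 φ0))
  have h3 := congrFun (frob_rel ρ (fun t =>
    (bb c (N * p ^ (r + 1)) (t : ZMod (N * p ^ (r + 1))).val : ZMod p) *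
      ((t : ZMod (N * p ^ (r + 1))).val : ZMod p)⁻¹) (v := fun u => κ (σ u * k * (σ u)⁻¹))
    (funext fun u => by
      rw [Finset.sum_apply]
      refine (sum_congr rfl fun t _ => ?_).trans (h2 σ hσ _ (conj_Hinf (σ u) hk))
      refine (mul_assoc _ _ _).trans (congrArg _ (congrArg _ ?_))
      refine (K (σ (t * u)) (σ t * σ u) (by rw [map_mul, hσ, hσ, hσ])).trans (congrArg κ ?_)
      group) (r + j)) 1
  rw [Finset.sum_apply] at h3
  rw [← bb_units hcp r fun s => ((s : ZMod (N * p)).val : ZMod p)⁻¹ * κ (τ s * k * (τ s)⁻¹)]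
  refine (sum_congr rfl fun t _ => ?_).trans h3
  refine Eq.trans ?_ (mul_assoc _ _ _).symm
  refine congrArg _ (congrArg₂ _ (congrArg _ ?_) (K _ (σ (t ^ p ^ (r + j) * 1)) ?_))
  · rw [ZMod.unitsMap_val, ← ZMod.natCast_val, ZMod.val_natCast, ZMod.natCast_eq_natCast_iff]
    exact (Nat.mod_modEq _ _).of_mul_left N
  · obtain ⟨k1, k2⟩ := hτ (ZMod.unitsMap (dvd_level N p r) t)
    have k3 := mem_Hinf.1 k2 r
    rw [Hm, MonoidHom.mem_ker, map_pow] at k3
    rw [← cl_map (dvd_level N p r)] at k1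
    generalize cl (N * p ^ (r + 1)) (τ _) = y at k1 k3 ⊢
    have k4 : (t * y⁻¹) ^ p ^ r = 1 :=
      pow_eq_one_of_map (by rw [map_mul, map_inv, k1, mul_inv_cancel])
    rw [mul_pow, inv_pow, mul_inv_eq_one] at k4
    rw [hσ, mul_one, pow_add p r j, pow_mul, k4, ← pow_mul, ← pow_add p r j, ← e,
      pow_eq_pow_of_modEq hj k3, pow_one]

end Pool.Agent.Lib.MP_3d78c5_nt
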