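import Pool.Agent.Lib.MP_3d78c5_nt.D1

/-! Gauss sums give principal divisors. -/

set_option autoImplicit false

open scoped NNReal Classical
open Finset

namespace Pool.Agent.Lib.MP_3d78c5_nt

open Pool.Agent.Lib.MP_696deb_nt.B2

namespace Gs

open Polynomial

/-- A place for which `ζ` reduces to `γ`. -/
theorem exists_val {K : Type} [Field K] [Finite K] {m : ℕ} [NeZero (m : K)] (hm : 0 < m) {ζ : Qbar}
    {γ : K} (hζ : IsPrimitiveRoot ζ m) (hγ : IsPrimitiveRoot γ m) :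
    ∃ A : Plc, ∀ P : ℤ[X], aeval γ P = 0 → A.V (aeval ζ P) < 1 := by
  let ζ' : Zbar := ⟨ζ, hζ.isIntegral hm⟩
  let φ : ℤ[X] →+* Zbar := (aeval ζ' : ℤ[X] →ₐ[ℤ] Zbar).toRingHom
  let ρ : ℤ[X] →+* K := (aeval γ : ℤ[X] →ₐ[ℤ] K).toRingHom
  have hφ : ∀ P : ℤ[X], (φ P : Qbar) = aeval ζ P := fun P =>
    (aeval_algHom_apply (integralClosure ℤ Qbar).val ζ' P).symm
  let _ : Algebra ℤ[X] Zbar := φ.toAlgebra
  have : IsScalarTower ℤ ℤ[X] Zbar := IsScalarTower.of_algebraMap_eq fun a => by simp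
  have : Algebra.IsIntegral ℤ[X] Zbar := Algebra.IsIntegral.tower_top ℤ
  have : (RingHom.ker ρ).IsPrime := RingHom.ker_isPrime ρ
  obtain ⟨Q, hQ, h1⟩ := Ideal.exists_ideal_over_prime_of_isIntegral (RingHom.ker ρ) (⊥ : Ideal Zbar)
    (fun P hP => by
      have h2 : aeval ζ P = 0 := by
        rw [← hφ]
        exact congrArg Subtype.val (show φ P = 0 from hP)
      obtain ⟨R, hR⟩ := minpoly.isIntegrallyClosed_dvd (hζ.isIntegral hm) h2
      have h3 : aeval γ (cyclotomic m ℤ) = 0 := by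
        rw [aeval_def, ← eval_map, map_cyclotomic]
        exact hγ.isRoot_cyclotomic hm
      have h4 := congrArg (aeval γ) hR
      rw [← cyclotomic_eq_minpoly hζ hm, map_mul, h3, zero_mul] at h4
      exact h4)
  obtain ⟨M, hM, hle⟩ := Ideal.exists_le_maximal Q h1.1.ne_top
  obtain ⟨A, rfl⟩ := b2a_surj M hM
  refine ⟨A, fun P hP => ?_⟩
  rw [← hφ]
  exact b2a_mem.1 (hle (show P ∈ Q.comap (algebraMap ℤ[X] Zbar) from h1.2 ▸ hP))

/-- The additive character given by the trace. -/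
theorem exists_char {K : Type} [Field K] [Fintype K] {p f : ℕ} [hp : Fact p.Prime] [CharP K p]
    (hK : Fintype.card K = p ^ f) {z : Qbar} (hz : z ^ p = 1) :
    ∃ (e : AddChar K Qbar) (n : K → ℕ), (∀ x, e x = z ^ n x) ∧ (∀ x, e (x ^ p) = e x) ∧
      ∑ x : K, x⁻¹ * n x = -1 := by
  classical
  let _ : Algebra (ZMod p) K := ZMod.algebra K p
  have hf : Module.finrank (ZMod p) K = f :=
    Nat.pow_right_injective hp.out.two_le ((FiniteField.pow_finrank_eq_card p K).trans hK)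
  have htr : ∀ x : K, ((Algebra.trace (ZMod p) K x).val : K) = ∑ i ∈ range f, x ^ p ^ i := by
    intro x
    have h := FiniteField.algebraMap_trace_eq_sum_pow (ZMod p) K x
    rw [hf, Nat.card_zmod] at h
    rw [← h, ← map_natCast (algebraMap (ZMod p) K), ZMod.natCast_zmod_val]
  refine ⟨(AddChar.zmodChar p hz).compAddMonoidHom (Algebra.trace (ZMod p) K).toAddMonoidHom,
    fun x => (Algebra.trace (ZMod p) K x).val, fun x => rfl, fun x => ?_, ?_⟩
  · have h := Algebra.trace_eq_of_algEquiv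
      (FiniteField.frobeniusAlgEquivOfAlgebraic (ZMod p) K) x
    rw [FiniteField.coe_frobeniusAlgEquivOfAlgebraic, ZMod.card] at h
    exact congrArg (AddChar.zmodChar p hz) h
  · obtain _ | f := f
    · exact absurd hK (by simpa using Fintype.one_lt_card.ne')
    simp only [htr, mul_sum]
    rw [sum_comm, sum_range_succ', sum_eq_zero, zero_add]
    · have h : ∀ x : K, x⁻¹ * x ^ p ^ 0 = 1 - if x = 0 then 1 else 0 := fun x => by
        by_cases hx : x = 0 <;> simp [hx]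
      simp only [h]
      simp
    · intro i hi
      have h1 : 1 < p ^ (i + 1) := Nat.one_lt_pow (by omega) hp.out.one_lt
      have h2 : p ^ (i + 1) < p ^ (f + 1) :=
        Nat.pow_lt_pow_right hp.out.one_lt (by simpa using hi)
      rw [← FiniteField.sum_pow_lt_card_sub_one K (p ^ (i + 1) - 1) (by omega)]
      refine sum_congr rfl fun x _ => ?_
      by_cases hx : x = 0
      · rw [hx, zero_pow (by omega), zero_pow (by omega), mul_zero]
      · rw [pow_sub₀ _ hx h1.le, pow_one, mul_comm]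

section Val

variable {Γ : Type} [LinearOrderedCommGroupWithZero Γ] (v : Valuation Qbar Γ)

theorem val_root {z : Qbar} {n : ℕ} (hn : n ≠ 0) (hz : z ^ n = 1) : v z = 1 :=
  (pow_eq_one_iff_of_nonneg zero_le hn).1 (by rw [← map_pow, hz, map_one])

theorem val_geom {z : Qbar} (hz : v z ≤ 1) (n : ℕ) : v (∑ i ∈ range n, z ^ i) ≤ 1 :=
  v.map_sum_le fun i _ => by rw [map_pow]; exact pow_le_one' hz i

theorem val_one_sub {z : Qbar} (hz : v z ≤ 1) (n : ℕ) : v (1 - z ^ n) ≤ v (1 - z) := by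
  rw [← mul_neg_geom_sum, map_mul]
  exact mul_le_of_le_one_right' (val_geom v hz n)

theorem val_prime {z : Qbar} {p : ℕ} (hp : p.Prime) (hz : IsPrimitiveRoot z p) :
    v p = v (1 - z) ^ (p - 1) := by
  obtain ⟨n, rfl⟩ : ∃ n, p = n + 1 := ⟨p - 1, by have := hp.pos; omega⟩
  rw [Nat.cast_succ, ← hz.prod_one_sub_pow_eq_order, map_prod, Nat.add_sub_cancel,
    prod_eq_pow_card (b := v (1 - z)), card_range]
  intro k hk
  have h1 := hz.pow_of_coprime (k + 1)
    ((Nat.coprime_of_lt_prime (by omega) (by simpa using hk) hp).symm)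
  refine le_antisymm (val_one_sub v (val_root v (by omega) hz.pow_eq_one).le _) ?_
  obtain ⟨i, -, hi⟩ := h1.eq_pow_of_pow_eq_one hz.pow_eq_one
  conv_lhs => rw [← hi]
  exact val_one_sub v (val_root v (by omega) h1.pow_eq_one).le _

variable {K : Type} [Field K] [Fintype K]

theorem val_mulChar (χ : MulChar K Qbar) {x : K} (hx : x ≠ 0) : v (χ x) = 1 :=
  val_root v (n := Fintype.card K - 1) (by have := Fintype.one_lt_card (α := K); omega)
    (by rw [← map_pow, FiniteField.pow_card_sub_one_eq_one x hx, map_one])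

theorem val_mulChar_le (χ : MulChar K Qbar) (x : K) : v (χ x) ≤ 1 := by
  by_cases hx : x = 0
  · simp [hx, MulChar.map_zero]
  · exact (val_mulChar v χ hx).le

theorem val_gauss_le (χ : MulChar K Qbar) (e : AddChar K Qbar) : v (gaussSum χ e) ≤ 1 :=
  v.map_sum_le fun x _ => by
    rw [map_mul]
    refine mul_le_one' (val_mulChar_le v χ x) (val_root v Fintype.card_ne_zero (n := Fintype.card K)
      ?_).le
    rw [← AddChar.map_nsmul_eq_pow, card_nsmul_eq_zero, AddChar.map_zero_eq_one]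

theorem val_gauss_mul (χ φ : MulChar K Qbar) {e : AddChar K Qbar} (he : e ≠ 1) :
    v (gaussSum χ e) * v (gaussSum φ e) ≤ v (gaussSum (χ * φ) e) := by
  by_cases h : χ * φ = 1
  · rw [h, gaussSum_one_left he, v.map_neg, map_one]
    exact mul_le_one' (val_gauss_le v χ e) (val_gauss_le v φ e)
  · rw [← map_mul, ← jacobiSum_mul_nontrivial h, map_mul]
    refine mul_le_of_le_one_right' (v.map_sum_le fun x _ => ?_)
    rw [map_mul]
    exact mul_le_one' (val_mulChar_le v χ _) (val_mulChar_le v φ _)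

theorem val_gauss_one {ψ : MulChar K Qbar} (hψ : ψ ≠ 1) {e : AddChar K Qbar} {z : Qbar} {n : K → ℕ}
    (he : ∀ x, e x = z ^ n x) (hz : v z ≤ 1) (hz1 : v (1 - z) < 1)
    (hW : v (∑ x, ψ x * n x + 1) < 1) : v (gaussSum ψ e) = v (1 - z) := by
  have h1 : gaussSum ψ e = (1 - z) * (1 - (∑ x, ψ x * n x + 1) +
      ∑ x, ψ x * ∑ i ∈ range (n x), (1 - z ^ i)) := by
    have h2 : gaussSum ψ e = -∑ x, ψ x * (1 - z ^ n x) := by
      simp only [gaussSum, he, mul_sub, mul_one, sum_sub_distrib,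
        MulChar.sum_eq_zero_of_ne_one hψ, zero_sub, neg_neg]
    have h3 : ∀ x, ψ x * (1 - z ^ n x) =
        (1 - z) * (ψ x * n x - ψ x * ∑ i ∈ range (n x), (1 - z ^ i)) := fun x => by
      rw [← mul_neg_geom_sum, sum_sub_distrib, sum_const, card_range, nsmul_eq_mul]
      ring
    rw [h2, sum_congr rfl fun x _ => h3 x, ← mul_sum, sum_sub_distrib]
    ring
  rw [h1, map_mul, v.map_add_eq_of_lt_left, v.map_one_sub_of_lt hW, mul_one]
  rw [v.map_one_sub_of_lt hW]
  refine lt_of_le_of_lt (v.map_sum_le fun x _ => ?_) hz1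
  rw [map_mul]
  exact (mul_le_of_le_one_left' (val_mulChar_le v ψ x)).trans
    (v.map_sum_le fun i _ => val_one_sub v hz i)

omit [Fintype K] in
theorem gauss_frob [Fintype K] {p : ℕ} [hp : Fact p.Prime] [CharP K p] (χ : MulChar K Qbar)
    {e : AddChar K Qbar} (he : ∀ x, e (x ^ p) = e x) : gaussSum (χ ^ p) e = gaussSum χ e :=
  Fintype.sum_bijective (fun x : K => x ^ p)
    (Finite.injective_iff_bijective.1 (frobenius_inj K p)) _ _ fun x => by
      rw [he, χ.pow_apply' hp.out.ne_zero, map_pow]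

/-- The sum of the carries. -/
def car (p m a j : ℕ) : ℕ := ∑ i ∈ range j, p * (p ^ i * a % m) / m

theorem car_div (p a j : ℕ) {m : ℕ} (hm : 0 < m) :
    p ^ (j + 1) * a / m = p ^ j * a / m * p + p * (p ^ j * a % m) / m := by
  conv_lhs => rw [pow_succ', mul_assoc, ← Nat.div_add_mod (p ^ j * a) m, mul_add, mul_left_comm,
    Nat.mul_add_div hm, mul_comm p]

theorem car_sum (p m a j : ℕ) : m * car p m a j + p ^ j * a % m + ∑ i ∈ range j, p ^ i * a % m =
    a % m + p * ∑ i ∈ range j, p ^ i * a % m := by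
  induction j with
  | zero => simp [car]
  | succ j ih =>
    have h1 := Nat.div_add_mod (p * (p ^ j * a % m)) m
    rw [Nat.mul_mod_mod, ← mul_assoc, ← pow_succ'] at h1
    simp only [car, sum_range_succ, mul_add] at ih ⊢
    omega

theorem val_lower {p : ℕ} [Fact p.Prime] [CharP K p] {ψ : MulChar K Qbar} {e : AddChar K Qbar}
    (he : ∀ x, e (x ^ p) = e x) (he1 : e ≠ 1) {m a : ℕ} (ha : a < m) (j : ℕ) :
    v (gaussSum ψ e) ^ car p m a j ≤ v (gaussSum (ψ ^ (p ^ j * a / m)) e) := by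
  have h0 : ∀ c : ℕ, v (gaussSum ψ e) ^ c ≤ v (gaussSum (ψ ^ c) e) := fun c => by
    induction c with
    | zero => simp [gaussSum_one_left he1]
    | succ c ih =>
      rw [pow_succ, pow_succ]
      exact (mul_le_mul_left ih _).trans (val_gauss_mul v _ _ he1)
  induction j with
  | zero => simp [car, Nat.div_eq_of_lt ha, gaussSum_one_left he1]
  | succ j ih =>
    rw [car, sum_range_succ, pow_add, car_div p a j (by omega), pow_add, pow_mul]
    refine le_trans (mul_le_mul' ?_ (h0 _)) (val_gauss_mul v _ _ he1)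
    rwa [gauss_frob _ he]

/-- Stickelberger's theorem. -/
theorem val_gauss {p f m : ℕ} [hp : Fact p.Prime] [CharP K p] (hK : Fintype.card K = p ^ f)
    (hm : p ^ f = m + 1) {ψ : MulChar K Qbar} (hψ : orderOf ψ = m) {e : AddChar K Qbar}
    (he : ∀ x, e (x ^ p) = e x) (he1 : e ≠ 1) (h0 : v (gaussSum ψ e) ≠ 0)
    (hv : v p = v (gaussSum ψ e) ^ (p - 1)) {a : ℕ} (ha : ¬ m ∣ a) :
    ∃ S : ℕ, v (gaussSum (ψ ^ a) e) = v (gaussSum ψ e) ^ S ∧
      m * S = (p - 1) * ∑ i ∈ range f, p ^ i * a % m := by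
  have hm0 : 0 < m := by have := Fintype.one_lt_card (α := K); omega
  have key : ∀ b < m, v (gaussSum ψ e) ^ car p m b f ≤ v (gaussSum (ψ ^ b) e) ∧
      m * car p m b f = (p - 1) * ∑ i ∈ range f, p ^ i * b % m := fun b hb => by
    have h1 := val_lower v (ψ := ψ) he he1 hb f
    have h2 := car_sum p m b f
    rw [hm, add_mul, one_mul, Nat.mul_add_div hm0, Nat.div_eq_of_lt hb, add_zero] at h1
    rw [hm, add_mul, one_mul, Nat.mul_add_mod] at h2
    refine ⟨h1, ?_⟩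
    rw [Nat.sub_mul]
    omega
  have hb := Nat.mod_lt a hm0
  have hb0 : a % m ≠ 0 := fun h => ha (Nat.dvd_of_mod_eq_zero h)
  rw [← pow_mod_orderOf, hψ]
  simp only [← Nat.mul_mod_mod _ a m]
  generalize a % m = b at hb hb0
  obtain ⟨k1, k2⟩ := key b hb
  obtain ⟨k3, k4⟩ := key (m - b) (by omega)
  refine ⟨_, ?_, k2⟩
  have hco : p.Coprime m := by
    have : f ≠ 0 := by rintro rfl; simp at hm; omega
    refine (Nat.Prime.coprime_iff_not_dvd hp.out).2 fun h => hp.out.one_lt.ne' ?_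
    exact Nat.dvd_one.1 ((Nat.dvd_add_right h).1 (hm ▸ dvd_pow_self p this))
  have h1 : ∀ i, p ^ i * b % m + p ^ i * (m - b) % m = m := fun i => by
    have e1 : p ^ i * b % m ≠ 0 := fun h => absurd (Nat.le_of_dvd (by omega)
      ((hco.pow_left i).symm.dvd_of_dvd_mul_left (Nat.dvd_of_mod_eq_zero h))) (by omega)
    have e2 : m ∣ p ^ i * b % m + p ^ i * (m - b) % m := by
      rw [Nat.dvd_iff_mod_eq_zero, ← Nat.add_mod, ← mul_add, Nat.add_sub_cancel' hb.le,
        Nat.mul_mod_left]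
    have e3 := Nat.mod_lt (p ^ i * b) hm0
    have e4 := Nat.mod_lt (p ^ i * (m - b)) hm0
    exact Nat.eq_of_dvd_of_lt_two_mul (by omega) e2 (by omega)
  have h2 : car p m b f + car p m (m - b) f = (p - 1) * f := by
    refine Nat.eq_of_mul_eq_mul_left hm0 ?_
    rw [mul_add, k2, k4, ← mul_add, ← sum_add_distrib]
    simp only [h1, sum_const, card_range, smul_eq_mul]
    ring
  have h3 : v (gaussSum (ψ ^ b) e) * v (gaussSum (ψ ^ (m - b)) e) =
      v (gaussSum ψ e) ^ car p m b f * v (gaussSum ψ e) ^ car p m (m - b) f := by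
    have e1 : ψ ^ b ≠ 1 := fun h => absurd
      (Nat.le_of_dvd (by omega) (hψ ▸ orderOf_dvd_of_pow_eq_one h)) (by omega)
    have e2 : (ψ ^ b)⁻¹ = ψ ^ (m - b) := by
      rw [inv_eq_iff_mul_eq_one, ← pow_add, Nat.add_sub_cancel' hb.le, ← hψ, pow_orderOf_eq_one]
    have e3 := congrArg v (gaussSum_mul_gaussSum_eq_card e1 (AddChar.IsPrimitive.of_ne_one he1))
    rw [← mul_gaussSum_inv_eq_gaussSum (ψ ^ (m - b)), map_mul, val_mulChar v _ (by simp), one_mul,
      ← e2, ← map_mul v, e3, hK, Nat.cast_pow, map_pow, hv, ← pow_mul, ← pow_add, h2]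
  refine le_antisymm (not_lt.1 fun h => ?_) k1
  have h4 := mul_lt_mul_of_lt_of_le_of_pos_of_nonneg h k3
    (pow_pos (zero_lt_iff.2 h0) _) zero_le
  exact h4.ne' h3

end Val

variable {K : Type} [Field K] [Fintype K]

omit [Fintype K] in
theorem prim_root {ψ : MulChar K Qbar} {g : Kˣ} (hg : ∀ x, x ∈ Subgroup.zpowers g) :
    IsPrimitiveRoot (ψ g) (orderOf ψ) := by
  have h : ∀ k : ℕ, ψ g ^ k = 1 ↔ orderOf ψ ∣ k := fun k => by
    rw [orderOf_dvd_iff_pow_eq_one, MulChar.eq_iff hg, MulChar.pow_apply_coe,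
      MulChar.one_apply_coe]
  exact ⟨(h _).2 dvd_rfl, fun k => (h k).1⟩

/-- All the valuation data for one generator of the character group. -/
theorem main {p f m : ℕ} (hp : p.Prime) (hK : Fintype.card K = p ^ f) (hm : p ^ f = m + 1)
    {ψ : MulChar K Qbar} (hψ : orderOf ψ = m) (hψ1 : ψ ≠ 1) :
    ∃ (w : Plc) (e : AddChar K Qbar) (ε : ℝ≥0), w.p = p ∧ e.IsPrimitive ∧
      (∀ g : Gam, ∃ j : Kˣ, ∀ x, g (e x) = e (j * x)) ∧
      w.V p = ε ^ (p - 1) ∧ ∀ a : ℕ, ¬ m ∣ a → ∃ S : ℕ,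
        w.V (gaussSum (ψ ^ a) e) = ε ^ S ∧
          m * S = (p - 1) * ∑ i ∈ range f, p ^ i * a % m := by
  classical
  have := Fact.mk hp
  have : CharP K p := charP_of_card_eq_prime_pow hK
  have hm0 : 0 < m := by have := Fintype.one_lt_card (α := K); omega
  have : NeZero (m : K) := ⟨fun h => by
    have h1 := FiniteField.cast_card_eq_zero K
    rw [hK, hm, Nat.cast_succ, h] at h1
    simp at h1⟩
  obtain ⟨g, hg⟩ := IsCyclic.exists_generator (α := Kˣ)
  have hγ : IsPrimitiveRoot (g : K)⁻¹ m := by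
    have h1 := IsPrimitiveRoot.orderOf g
    rw [orderOf_eq_card_of_forall_mem_zpowers hg, Nat.card_units, Nat.card_eq_fintype_card, hK, hm,
      Nat.add_sub_cancel] at h1
    exact (IsPrimitiveRoot.coe_units_iff.2 h1).inv
  obtain ⟨A, hA⟩ := exists_val hm0 (hψ ▸ prim_root (ψ := ψ) hg) hγ
  obtain ⟨z, hz⟩ := exists_zt p
  obtain ⟨e, n, he, hfr, hsum⟩ := exists_char hK hz.pow_eq_one
  have h1 := val_prime A.V hp hz
  have h2 : A.V (1 - z) < 1 := by
    have h3 := hA p (by simp)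
    rw [map_natCast, h1] at h3
    exact not_le.1 fun h => not_le.2 h3 (one_le_pow_of_one_le' h _)
  have h3 : A.V (1 - z) ≠ 0 := by
    rw [Valuation.ne_zero_iff, sub_ne_zero]
    exact (hz.ne_one hp.one_lt).symm
  have hQ : ∀ x : K, ∃ Q : ℤ[X], aeval (ψ g) Q = ψ x ∧ aeval (g : K)⁻¹ Q = x⁻¹ := fun x => by
    by_cases hx : x = 0
    · exact ⟨0, by simp [hx, MulChar.map_zero]⟩
    · obtain ⟨l, hl⟩ := mem_powers_iff_mem_zpowers.2 (hg (Units.mk0 x hx))
      obtain rfl : (g : K) ^ l = x := by simpa using congrArg Units.val hl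
      exact ⟨X ^ l, by simp⟩
  choose Q hQ1 hQ2 using hQ
  have h4 := hA (∑ x, Q x * n x + 1) (by simp [hQ2, hsum])
  simp only [map_add, map_sum, map_mul (aeval _), hQ1, map_natCast, map_one] at h4
  have h5 := val_gauss_one A.V hψ1 he
    (val_root _ hp.ne_zero hz.pow_eq_one).le h2 h4
  have he1 : e ≠ 1 := fun h => h3 (by
    rw [← h5, h]
    simp [gaussSum, MulChar.sum_eq_zero_of_ne_one hψ1])
  have hAp : A.p = p := by
    have h6 := hA p (by simp)
    rw [map_natCast] at h6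
    have h7 : ¬ A.V ((p : ℤ) : Qbar) = 1 := by
      rw [Int.cast_natCast]
      exact h6.ne
    rw [A.V_int_eq_one, not_not, Int.natCast_dvd_natCast] at h7
    exact (Nat.prime_dvd_prime_iff_eq A.prime hp).1 h7
  refine ⟨A, e, _, hAp, .of_ne_one he1, fun k => ?_, h1, fun a ha => ?_⟩
  · have h6 : ((cl p k : ZMod p).val : K) ≠ 0 := by
      rw [Ne, CharP.cast_eq_zero_iff K p, ← ZMod.natCast_eq_zero_iff, ZMod.natCast_zmod_val]
      exact (cl p k).ne_zero
    refine ⟨Units.mk0 _ h6, fun x => ?_⟩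
    rw [Units.val_mk0, ← nsmul_eq_mul, AddChar.map_nsmul_eq_pow]
    refine cl_spec k ?_
    rw [he, ← pow_mul, mul_comm, pow_mul, hz.pow_eq_one, one_pow]
  rw [← h5] at h1 h3 ⊢
  exact val_gauss _ hK hm hψ hfr he1 h3 h1 ha

end Gs

/-- The Galois action on Gauss sums. -/
theorem smul_gauss {K : Type} [Field K] [Fintype K] {m : ℕ} [NeZero m] {χ : MulChar K Qbar}
    (hχ : χ ^ m = 1) {e : AddChar K Qbar} {g : Gam} {j : Kˣ} (h : ∀ x, g (e x) = e (j * x))
    (h0 : (cl m g : ZMod m).val ≠ 0) :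
    (χ ^ (cl m g : ZMod m).val) j * g (gaussSum χ e) = gaussSum (χ ^ (cl m g : ZMod m).val) e := by
  rw [← gaussSum_mulShift (χ ^ _) e j, gaussSum, gaussSum, map_sum]
  congr 1
  refine sum_congr rfl fun x _ => ?_
  rw [map_mul, h, AddChar.mulShift_apply, χ.pow_apply' h0]
  congr 1
  by_cases hx : x = 0
  · rw [hx, MulChar.map_zero, map_zero, zero_pow h0]
  · refine cl_spec g ?_
    rw [← χ.pow_apply' (NeZero.ne m), hχ]
    exact MulChar.one_apply (Ne.isUnit hx)

theorem exists_gauss {m c l : ℕ} [NeZero m] (hl : l.Prime) (hc : ¬ m ∣ c) (u : (ZMod m)ˣ)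
    (hu : (u : ZMod m) = l) :
    ∃ (w : Plc) (γ : Qbar), w.p = l ∧ γ ≠ 0 ∧ Fx (Hm m) γ ∧ (∀ v : Plc, v.p ≠ l → v.V γ = 1) ∧
      ∀ g : Gam, w.V (g γ) =
        ((l : ℝ≥0) ^ ∑ i ∈ range (orderOf u), nn c m (u ^ i * cl m g))⁻¹ := by
  have := Fact.mk hl
  have m0 : 0 < m := Nat.pos_of_ne_zero (NeZero.ne m)
  have m1 : m ≠ 1 := fun h => hc (h ▸ one_dvd c)
  have : Fact (1 < m) := ⟨by omega⟩
  set f := orderOf u with hf
  have f0 : f ≠ 0 := (orderOf_pos u).ne'
  have hq : 1 ≤ l ^ f := Nat.one_le_pow _ _ hl.pos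
  obtain ⟨k, hk⟩ : m ∣ l ^ f - 1 := by
    rw [← ZMod.natCast_eq_zero_iff, Nat.cast_sub hq, Nat.cast_pow, ← hu,
      ← Units.val_pow_eq_pow_val, hf, pow_orderOf_eq_one]
    simp
  let K := GaloisField l f
  let _ : Fintype K := Fintype.ofFinite K
  have hK : Fintype.card K = l ^ f := by
    rw [← Nat.card_eq_fintype_card]
    exact GaloisField.card l f f0
  have hq1 : 1 < l ^ f := hK ▸ Fintype.one_lt_card
  have k0 : 0 < k := Nat.pos_of_ne_zero (by rintro rfl; omega)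
  have : NeZero (m * k) := ⟨(Nat.mul_pos m0 k0).ne'⟩
  obtain ⟨ζ, hζ⟩ := exists_zt (m * k)
  obtain ⟨ψ, hψ⟩ := MulChar.exists_mulChar_orderOf K (n := m * k) (by rw [hK, hk]) hζ
  have hψ1 : ψ ≠ 1 := fun h => by
    rw [h, orderOf_one] at hψ
    exact m1 (Nat.eq_one_of_mul_eq_one_right hψ.symm)
  obtain ⟨w, e, ε, hw, he, hg, hε, hS⟩ := Gs.main hl hK (m := m * k) (by omega) hψ hψ1
  have hne : ∀ a : ℕ, ¬ m ∣ a → ψ ^ (k * a) ≠ 1 := fun a ha h => by
    rw [← orderOf_dvd_iff_pow_eq_one, hψ, mul_comm m] at h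
    exact ha (Nat.dvd_of_mul_dvd_mul_left k0 h)
  have hcard : ∀ a : ℕ, ¬ m ∣ a →
      gaussSum (ψ ^ (k * a)) e * gaussSum (ψ ^ (k * a))⁻¹ e⁻¹ = (l : Qbar) ^ f := fun a ha => by
    rw [gaussSum_mul_gaussSum_eq_card (hne a ha) he, hK, Nat.cast_pow]
  have hl0 : (l : Qbar) ≠ 0 := Nat.cast_ne_zero.2 hl.ne_zero
  have hG0 : ∀ a : ℕ, ¬ m ∣ a → gaussSum (ψ ^ (k * a)) e ≠ 0 := fun a ha h => by
    have := hcard a ha
    rw [h, zero_mul] at this
    exact pow_ne_zero f hl0 this.symm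
  have h1 : ¬ m ∣ 1 := fun h => m1 (Nat.dvd_one.1 h)
  have hco : ∀ t : (ZMod m)ˣ, m.Coprime (t : ZMod m).val := fun t =>
    (ZMod.val_coe_unit_coprime t).symm
  have ht1 : ∀ t : (ZMod m)ˣ, ¬ m ∣ (t : ZMod m).val := fun t h =>
    m1 (Nat.Coprime.eq_one_of_dvd (hco t) h)
  have ht2 : ∀ t : (ZMod m)ˣ, ¬ m ∣ c * (t : ZMod m).val := fun t h =>
    hc ((hco t).dvd_of_dvd_mul_right h)
  have hpow : ∀ a : ℕ, (ψ ^ (k * a)) ^ m = 1 := fun a => by
    rw [← pow_mul, ← orderOf_dvd_iff_pow_eq_one, hψ]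
    exact ⟨a, by ring⟩
  have hact : ∀ g : Gam, g (gaussSum (ψ ^ (k * 1)) e ^ c / gaussSum (ψ ^ (k * c)) e) =
      gaussSum (ψ ^ (k * (cl m g : ZMod m).val)) e ^ c /
        gaussSum (ψ ^ (k * (c * (cl m g : ZMod m).val))) e := fun g => by
    obtain ⟨j, hj⟩ := hg g
    have t0 : (cl m g : ZMod m).val ≠ 0 := fun h => ht1 _ (h ▸ dvd_zero m)
    have a1 := smul_gauss (hpow 1) hj t0
    have a2 := smul_gauss (hpow c) hj t0
    rw [← pow_mul, mul_one] at a1
    rw [← pow_mul, mul_assoc] at a2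
    have a3 : (ψ ^ (k * (c * (cl m g : ZMod m).val))) j =
        (ψ ^ (k * (cl m g : ZMod m).val)) j ^ c := by
      rw [MulChar.pow_apply_coe, MulChar.pow_apply_coe, ← pow_mul]
      congr 1
      ring
    have a4 : (ψ ^ (k * (cl m g : ZMod m).val)) j ^ c ≠ 0 :=
      pow_ne_zero _ ((j.isUnit.map _).ne_zero)
    rw [← a1, ← a2, a3, mul_pow, mul_div_mul_left _ _ a4, map_div₀, map_pow, mul_one]
  refine ⟨w, gaussSum (ψ ^ (k * 1)) e ^ c / gaussSum (ψ ^ (k * c)) e, hw,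
    div_ne_zero (pow_ne_zero _ (hG0 1 h1)) (hG0 c hc), fun g hg => ?_, fun v hv => ?_, fun g => ?_⟩
  · rw [hact, show cl m g = 1 from hg, Units.val_one, ZMod.val_one, mul_one c]
  · have a1 : ∀ a : ℕ, ¬ m ∣ a → v.V (gaussSum (ψ ^ (k * a)) e) = 1 := fun a ha => by
      have a2 := congrArg v.V (hcard a ha)
      have a3 : v.V (l : Qbar) = 1 := by
        have := (v.V_int_eq_one (a := l)).2 fun h =>
          hv ((Nat.prime_dvd_prime_iff_eq v.prime hl).1 (Int.natCast_dvd_natCast.1 h))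
        rwa [Int.cast_natCast] at this
      rw [map_mul, map_pow, a3, one_pow] at a2
      refine le_antisymm (Gs.val_gauss_le v.V _ _) ?_
      rw [← a2]
      exact mul_le_of_le_one_right' (Gs.val_gauss_le v.V _ _)
    rw [map_div₀, map_pow, a1 1 h1, a1 c hc, one_pow, div_one]
  · set t := (cl m g : ZMod m).val with ht
    have b0 : ∀ a : ℕ, ¬ m ∣ a → ∃ S : ℕ, w.V (gaussSum (ψ ^ (k * a)) e) = ε ^ S ∧
        m * S = (l - 1) * ∑ i ∈ range f, l ^ i * a % m := fun a ha => by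
      obtain ⟨S, s1, s2⟩ := hS (k * a) fun h => ha (by
        rw [mul_comm m] at h
        exact Nat.dvd_of_mul_dvd_mul_left k0 h)
      refine ⟨S, s1, Nat.eq_of_mul_eq_mul_left k0 ?_⟩
      rw [← mul_assoc, mul_comm k m, s2, mul_left_comm]
      congr 1
      rw [mul_sum]
      refine sum_congr rfl fun i _ => ?_
      rw [mul_left_comm (l ^ i), mul_comm m k, Nat.mul_mod_mul_left]
    obtain ⟨S₁, s1, r1⟩ := b0 t (ht1 _)
    obtain ⟨S₂, s2, r2⟩ := b0 (c * t) (ht2 _)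
    have b1 : ∀ i : ℕ, ((u ^ i * cl m g : (ZMod m)ˣ) : ZMod m).val = l ^ i * t % m := fun i => by
      rw [Units.val_mul, Units.val_pow_eq_pow_val, hu, ← ZMod.val_natCast, Nat.cast_mul,
        Nat.cast_pow, ht, ZMod.natCast_zmod_val]
    have b2 : c * S₁ = S₂ + (l - 1) * ∑ i ∈ range f, nn c m (u ^ i * cl m g) := by
      refine Nat.eq_of_mul_eq_mul_left m0 ?_
      rw [mul_left_comm, r1, mul_add, r2, mul_left_comm c, mul_left_comm m, ← mul_add]
      congr 1
      rw [mul_sum, mul_sum, ← sum_add_distrib]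
      refine sum_congr rfl fun i _ => ?_
      rw [nn, b1, mul_left_comm (l ^ i), ← Nat.mul_mod_mod c, Nat.mod_add_div]
    have b3 : ε ^ (l - 1) = (l : ℝ≥0)⁻¹ := by rw [← hε, ← hw, w.hV]
    have b4 : ε ^ S₂ ≠ 0 := by
      rw [← s2]
      exact (Valuation.ne_zero_iff _).2 (hG0 _ (ht2 _))
    rw [hact, map_div₀, map_pow, s1, s2, ← pow_mul, mul_comm S₁, b2, pow_add,
      mul_div_cancel_left₀ _ b4, pow_mul, b3, inv_pow]

end Pool.Agent.Lib.MP_3d78c5_nt
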