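import Mathlib

/-! Norms of integers and of sums. -/

set_option autoImplicit false

open Finset

namespace Pool.Agent.Lib.MP_3d78c5_nt

variable {p : ℕ} [Fact p.Prime]

theorem nm_int_lt {n : ℤ} : ‖(n : PadicAlgCl p)‖ < 1 ↔ (p : ℤ) ∣ n := by
  rw [← map_intCast (algebraMap ℚ_[p] (PadicAlgCl p)), PadicAlgCl.norm_extends,
    Padic.norm_intCast_lt_one_iff]

theorem nm_int_le (n : ℤ) : ‖(n : PadicAlgCl p)‖ ≤ 1 := IsUltrametricDist.norm_intCast_le_one _ n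

theorem nm_nat_le (n : ℕ) : ‖(n : PadicAlgCl p)‖ ≤ 1 := IsUltrametricDist.norm_natCast_le_one _ n

theorem nm_nat_eq {n : ℕ} (h : ¬ p ∣ n) : ‖(n : PadicAlgCl p)‖ = 1 :=
  (nm_nat_le n).antisymm (not_lt.1 fun h1 => h (Int.natCast_dvd_natCast.1 (nm_int_lt.1 (by
    rwa [Int.cast_natCast]))))

theorem nm_add_lt {x y : PadicAlgCl p} (hx : ‖x‖ < 1) (hy : ‖y‖ < 1) : ‖x + y‖ < 1 :=
  (IsUltrametricDist.norm_add_le_max x y).trans_lt (max_lt hx hy)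

theorem nm_sum_lt {ι : Type} {s : Finset ι} {f : ι → PadicAlgCl p} (h : ∀ i ∈ s, ‖f i‖ < 1) :
    ‖∑ i ∈ s, f i‖ < 1 :=
  sum_induction f (fun x => ‖x‖ < 1) (fun _ _ => nm_add_lt) (by simp) h

theorem nm_sum_le {ι : Type} {s : Finset ι} {f : ι → PadicAlgCl p} (h : ∀ i ∈ s, ‖f i‖ ≤ 1) :
    ‖∑ i ∈ s, f i‖ ≤ 1 := IsUltrametricDist.norm_sum_le_of_forall_le_of_nonneg zero_le_one h

theorem nm_mul_le {x y : PadicAlgCl p} (hx : ‖x‖ ≤ 1) (hy : ‖y‖ ≤ 1) : ‖x * y‖ ≤ 1 := by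
  rw [norm_mul]
  exact mul_le_one₀ hx (norm_nonneg _) hy

theorem nm_pow_le {x : PadicAlgCl p} (hx : ‖x‖ ≤ 1) (n : ℕ) : ‖x ^ n‖ ≤ 1 := by
  rw [norm_pow]
  exact pow_le_one₀ (norm_nonneg _) hx

theorem nm_mul_lt {x y : PadicAlgCl p} (hx : ‖x‖ ≤ 1) (hy : ‖y‖ < 1) : ‖x * y‖ < 1 := by
  rw [norm_mul]
  exact (mul_le_of_le_one_left (norm_nonneg _) hx).trans_lt hy

theorem nm_pow_sub {a b : ℕ} (h : a ≡ b [MOD p]) (n : ℕ) :
    ‖(a : PadicAlgCl p) ^ n - (b : PadicAlgCl p) ^ n‖ < 1 := by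
  have := nm_int_lt.2 (h.pow n).symm.dvd
  push_cast at this
  exact this

theorem nm_eq_of_sub {x y : PadicAlgCl p} (h : ‖x - y‖ < 1) (hy : ‖y‖ = 1) : ‖x‖ = 1 := by
  have h5 := IsUltrametricDist.norm_add_eq_max_of_norm_ne_norm (h.trans_eq hy.symm).ne
  rwa [sub_add_cancel, hy, max_eq_right h.le] at h5

end Pool.Agent.Lib.MP_3d78c5_nt
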