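import Pool.Agent.Lib.MP_3d78c5_nt.Dist
import Pool.Agent.Lib.MP_3d78c5_nt.Nm

/-! The hypotheses of the problem. -/

set_option autoImplicit false

open scoped NNReal Classical
open Finset

namespace Pool.Agent.Lib.MP_3d78c5_nt

open Pool.Agent.Lib.MP_696deb_nt.B2 DirichletCharacter

variable {p N F : ℕ} [Fact p.Prime]

omit [Fact p.Prime] in
theorem dvd_one' : N * p ∣ N * F * p := ⟨F, by ring⟩

omit [Fact p.Prime] in
theorem dvd_two' : F ∣ N * F * p := ⟨N * p, by ring⟩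

theorem mul_apply' (θ : DirichletCharacter (PadicAlgCl p) (N * p))
    (ψ : DirichletCharacter (PadicAlgCl p) F) (n : ℕ) :
    (changeLevel dvd_one' θ * changeLevel dvd_two' ψ :
      DirichletCharacter (PadicAlgCl p) (N * F * p)) n = θ n * ψ n := by
  by_cases h : n.Coprime (N * F * p)
  · have h1 : IsCoprime (n : ℤ) (N * F * p : ℕ) := Nat.isCoprime_iff_coprime.2 h
    have h2 := changeLevel_eq_cast_of_dvd' θ dvd_one' h1
    have h3 := changeLevel_eq_cast_of_dvd' ψ dvd_two' h1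
    rw [Int.cast_natCast, Int.cast_natCast] at h2 h3
    rw [MulChar.mul_apply, h2, h3]
  · rw [MulChar.map_nonunit _ (mt (ZMod.isUnit_iff_coprime _ _).1 h)]
    rw [mul_right_comm, Nat.coprime_mul_iff_right, not_and_or] at h
    rcases h with h | h
    · rw [MulChar.map_nonunit θ (mt (ZMod.isUnit_iff_coprime _ _).1 h), zero_mul]
    · rw [MulChar.map_nonunit ψ (mt (ZMod.isUnit_iff_coprime _ _).1 h), mul_zero]

theorem exists_mul (θ : DirichletCharacter (PadicAlgCl p) (N * p))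
    (ψ : DirichletCharacter (PadicAlgCl p) F) :
    ∃ χ : DirichletCharacter (PadicAlgCl p) (N * F * p), ∀ n : ℕ, χ n = θ n * ψ n :=
  ⟨_, mul_apply' θ ψ⟩

theorem mul_inj (hF : 0 < F) (hc : F.Coprime (N * p))
    (θ : DirichletCharacter (PadicAlgCl p) (N * p)) {ψ ψ' : DirichletCharacter (PadicAlgCl p) F}
    (h : ∀ n : ℕ, θ n * ψ n = θ n * ψ' n) : ψ = ψ' := by
  have : NeZero F := ⟨hF.ne'⟩
  refine MulChar.ext' fun a => ?_
  obtain ⟨n, h1, h2⟩ := Nat.chineseRemainder hc a.val 1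
  have h3 := h n
  rwa [(ZMod.natCast_eq_natCast_iff _ _ _).2 h1, (ZMod.natCast_eq_natCast_iff _ _ _).2 h2,
    Nat.cast_one, map_one, one_mul, one_mul, ZMod.natCast_zmod_val] at h3

theorem prim_mul (hN : 0 < N) (hF : F.Prime) (hc : F.Coprime (N * p))
    {θ : DirichletCharacter (PadicAlgCl p) (N * p)} (hθ : θ.IsPrimitive)
    {ψ : DirichletCharacter (PadicAlgCl p) F} (hψ : ψ ≠ 1)
    {χ : DirichletCharacter (PadicAlgCl p) (N * F * p)} (h : ∀ n : ℕ, χ n = θ n * ψ n) :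
    χ.IsPrimitive := by
  have : NeZero F := ⟨hF.ne_zero⟩
  have : NeZero (N * F * p) :=
    ⟨(Nat.mul_pos (Nat.mul_pos hN hF.pos) (Fact.out : p.Prime).pos).ne'⟩
  have e : χ = changeLevel dvd_one' θ * changeLevel dvd_two' ψ := MulChar.ext' fun a => by
    rw [← ZMod.natCast_zmod_val a, h, mul_apply']
  have c1 : (changeLevel (dvd_one' (F := F)) θ).conductor = N * p :=
    (conductor_changeLevel θ _).trans hθ
  have c2 : (changeLevel (dvd_two' (N := N) (p := p)) ψ).conductor = F :=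
    (conductor_changeLevel ψ _).trans (((Nat.dvd_prime hF).1 ψ.conductor_dvd_level).resolve_left
      (mt eq_one_iff_conductor_eq_one.2 hψ))
  have d1 := conductor_mul_dvd_lcm_conductor χ (changeLevel dvd_two' ψ)⁻¹
  have d2 := conductor_mul_dvd_lcm_conductor χ (changeLevel dvd_one' θ)⁻¹
  rw [conductor_inv, c2, ← eq_mul_inv_of_mul_eq e.symm, c1] at d1
  rw [conductor_inv, c1, ← eq_mul_inv_of_mul_eq ((mul_comm _ _).trans e.symm), c2] at d2
  refine Nat.dvd_antisymm χ.conductor_dvd_level ?_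
  have d3 := hc.symm.mul_dvd_of_dvd_of_dvd
    (hc.symm.dvd_of_dvd_mul_right (d1.trans (Nat.lcm_dvd_mul _ _)))
    (hc.dvd_of_dvd_mul_right (d2.trans (Nat.lcm_dvd_mul _ _)))
  exact (dvd_of_eq (by ring)).trans d3

theorem even_of (hp : p ≠ 2) (hN : 0 < N) {c : ℕ} (hc : ¬ N * p ∣ c)
    {θ : DirichletCharacter (PadicAlgCl p) (N * p)} (h : ‖SS θ c‖ = 1) : θ.Even := by
  have pp : p.Prime := Fact.out
  refine θ.even_or_odd.resolve_right fun ho => ?_
  have m1 : N * p ≠ 1 := fun h => hc (h ▸ one_dvd c)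
  let f : ℕ → PadicAlgCl p := fun y => (bb c (N * p) y : PadicAlgCl p) * y ^ (p - 2) * θ y
  have h1 : SS θ c = ∑ y ∈ range (N * p + 1), f y := by
    rw [sum_range_succ]
    simp only [f, ZMod.natCast_self, θ.map_zero' m1, mul_zero, add_zero, SS]
  have h2 : ‖∑ y ∈ range (N * p + 1), (f y + f (N * p - y))‖ < 1 := nm_sum_lt fun y hy => by
    have hy' := Nat.lt_succ_iff.1 (mem_range.1 hy)
    have e : θ (N * p - y : ℕ) = - θ y := by
      rw [Nat.cast_sub hy', θ.eval_modulus_sub, ho.eval_neg]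
    by_cases hco : y.Coprime (N * p)
    · have hlt : y < N * p := hy'.lt_of_ne fun h => m1 (by simpa [h] using hco)
      have hodd : _root_.Odd (p - 2) := by
        obtain ⟨k, hk⟩ := pp.odd_of_ne_two hp
        have := pp.two_le
        exact ⟨k - 1, by omega⟩
      have h3 := _root_.Odd.add_dvd_pow_add_pow (y : ℤ) ((N * p - y : ℕ) : ℤ) hodd
      rw [← Nat.cast_add, Nat.add_sub_cancel' hy'] at h3
      have h4 := nm_mul_lt (nm_mul_le (nm_int_le (bb c (N * p) y)) (θ.norm_le_one y))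
        (nm_int_lt.2 ((Int.natCast_dvd_natCast.2 (dvd_mul_left p N)).trans h3))
      refine lt_of_eq_of_lt (congrArg _ ?_) h4
      simp only [f, e, bb_neg hc hco hlt, Int.cast_add, Int.cast_pow, Int.cast_natCast,
        Int.cast_neg]
      ring
    · simp only [f, e, MulChar.map_nonunit θ (mt (ZMod.isUnit_iff_coprime _ _).1 hco), neg_zero,
        mul_zero, add_zero, norm_zero, zero_lt_one]
  rw [sum_add_distrib, sum_flip, ← h1, ← two_mul, norm_mul, h, mul_one, ← Nat.cast_two,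
    nm_nat_eq fun h => hp ((Nat.prime_dvd_prime_iff_eq pp Nat.prime_two).1 h)] at h2
  exact lt_irrefl _ h2

theorem two_of (hp : p ≠ 2) (hN : 0 < N) (hpN : ¬ p ∣ N) {c : ℕ} (hc : c.Coprime p)
    {θ : DirichletCharacter (PadicAlgCl p) (N * p)} (h : ‖SS θ c‖ = 1)
    {ω : DirichletCharacter (PadicAlgCl p) p} (hω : IsTeich ω)
    (h1 : ∀ s : ℕ, s ≡ 1 [MOD N] → θ s = ω s) {t : ℕ} (ht : t ≡ p [MOD N]) (ht' : t ≡ 1 [MOD p]) :
    θ t ≠ 1 := fun h0 => by
  have pp : p.Prime := Fact.out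
  have co : N.Coprime p := ((Nat.Prime.coprime_iff_not_dvd pp).2 hpN).symm
  have key : ∀ a b : ℕ, a ≡ b [MOD N] → a ≡ b [MOD p] → θ a = θ b := fun a b h h' => by
    rw [(ZMod.natCast_eq_natCast_iff _ _ _).2 ((Nat.modEq_and_modEq_iff_modEq_mul co).1 ⟨h, h'⟩)]
  choose l l1 l2 using fun y : ℕ => (Nat.chineseRemainder co y 1).exists_of_subtype
  have a1 : ∀ y k : ℕ, θ (l (y + k * N)) = θ (l y) := fun y k =>
    key _ _ ((l1 _).trans ((Nat.add_mul_mod_self_right _ _ _).trans (l1 y).symm))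
      ((l2 _).trans (l2 _).symm)
  have a2 : ∀ y : ℕ, θ (l (p * y)) = θ (l y) := fun y => by
    rw [key _ (t * l y) ((l1 _).trans (ht.mul (l1 y)).symm)
      ((l2 _).trans (ht'.mul (l2 y)).symm), Nat.cast_mul, map_mul, h0, one_mul]
  have a3 : ∀ y : ℕ, ¬ p ∣ y → ‖(y : PadicAlgCl p) ^ (p - 2) * θ y - θ (l y)‖ < 1 := fun y hy => by
    obtain ⟨s, s1, s2⟩ := Nat.chineseRemainder co 1 y
    have b1 : θ y = θ (l y) * ω y := by
      rw [key y (l y * s) (by simpa using ((l1 y).mul s1).symm)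
        (by simpa using ((l2 y).mul s2).symm), Nat.cast_mul, map_mul, h1 s s1,
        (ZMod.natCast_eq_natCast_iff _ _ _).2 s2]
    have b2 := nm_pow_sub (Nat.ModEq.pow_card_sub_one_eq_one pp
      ((Nat.Prime.coprime_iff_not_dvd pp).2 hy).symm) 1
    have b3 := nm_mul_lt (θ.norm_le_one (l y))
      (nm_add_lt (nm_mul_lt (nm_pow_le (nm_nat_le y) (p - 2)) (hω y)) b2)
    refine lt_of_eq_of_lt (congrArg _ ?_) b3
    rw [b1, show p - 1 = p - 2 + 1 by have := pp.two_le; omega]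
    push_cast
    ring
  have a4 : ∑ y ∈ range (N * p), (bb c (N * p) y : PadicAlgCl p) * θ (l y) =
      ∑ y ∈ range N, (bb c N y : PadicAlgCl p) * θ (l y) := by
    rw [sum_range_mul]
    refine sum_congr rfl fun y hy => ?_
    simp only [a1]
    rw [← sum_mul, ← Int.cast_sum, bb_dist hN pp.pos hc (mem_range.1 hy)]
  have a5 : ∑ y ∈ range (N * p), (if p ∣ y then (bb c (N * p) y : PadicAlgCl p) * θ (l y) else 0) =
      ∑ y ∈ range N, (bb c N y : PadicAlgCl p) * θ (l y) := by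
    rw [← sum_filter]
    refine (sum_bij (fun y _ => p * y) (fun y hy => mem_filter.2 ⟨mem_range.2 ?_, dvd_mul_right _ _⟩)
      (fun a _ b _ h => Nat.eq_of_mul_eq_mul_left pp.pos h) (fun y hy => ?_) fun y _ => ?_).symm
    · rw [mul_comm N p]
      exact Nat.mul_lt_mul_of_pos_left (mem_range.1 hy) pp.pos
    · obtain ⟨b1, k, rfl⟩ := mem_filter.1 hy
      rw [mul_comm N p, mem_range] at b1
      exact ⟨k, mem_range.2 (Nat.lt_of_mul_lt_mul_left b1), rfl⟩
    · rw [a2, bb_mul _ _ _ pp.pos]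
  have a6 : ‖∑ y ∈ range (N * p), ((bb c (N * p) y : PadicAlgCl p) * y ^ (p - 2) * θ y -
      (bb c (N * p) y * θ (l y) - if p ∣ y then (bb c (N * p) y : PadicAlgCl p) * θ (l y) else 0))‖
        < 1 := nm_sum_lt fun y _ => by
    split_ifs with hy
    · rw [sub_self, sub_zero, MulChar.map_nonunit θ, mul_zero, norm_zero]
      · exact zero_lt_one
      · rw [ZMod.isUnit_iff_coprime]
        exact fun h => pp.one_lt.ne' (Nat.eq_one_of_dvd_coprimes h hy (dvd_mul_left p N))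
    · rw [sub_zero, mul_assoc, ← mul_sub]
      exact nm_mul_lt (nm_int_le _) (a3 y hy)
  rw [sum_sub_distrib, sum_sub_distrib, a4, a5, sub_self, sub_zero] at a6
  exact a6.ne h

end Pool.Agent.Lib.MP_3d78c5_nt
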