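import Pool.Agent.Lib.MP_3d78c5_nt.D1

/-! Kummer generators of unramified extensions. -/

set_option autoImplicit false

open scoped NNReal Classical
open Finset

namespace Pool.Agent.Lib.MP_3d78c5_nt

open Pool.Agent.Lib.MP_696deb_nt.B2

variable {p N : ℕ} [Fact p.Prime] [NeZero N]

/-- Unramified characters of order dividing `p`. -/
structure Unr (p N : ℕ) (κ : Gam → ZMod p) : Prop where
  sm : Sm (Hinf p N) κ
  hom : IsHom (Hinf p N) κ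
  unr : ∀ w : Plc, ∀ g ∈ Hinf p N, g ∈ Ine w → κ g = 0

theorem kum_closed {l : ℕ} (hl : l.Prime) : IsClosed {g : Gam | ∃ v : Plc, v.p = l ∧ g ∈ Ine v} := by
  obtain ⟨w, rfl⟩ := exists_plc hl
  have : {g : Gam | ∃ v : Plc, v.p = w.p ∧ g ∈ Ine v} =
      (fun x : Gam × Gam => x.1 * x.2 * x.1⁻¹) '' (Set.univ ×ˢ (Ine w : Set Gam)) := by
    ext g
    constructor
    · rintro ⟨v, hv, hg⟩
      obtain ⟨k, rfl⟩ := plc_conj hv.symm
      exact ⟨(k, k⁻¹ * g * k), ⟨trivial, mem_Ine_smul.1 hg⟩, by group⟩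
    · rintro ⟨⟨k, x⟩, ⟨-, hx⟩, rfl⟩
      exact ⟨k • w, rfl, mem_Ine_smul.2 (by simpa [mul_assoc] using hx)⟩
  rw [this]
  exact ((isCompact_univ.prod (closed_Ine w).isCompact).image (by fun_prop)).isClosed

omit [Fact p.Prime] [NeZero N] in
theorem kum_dvd {l : ℕ} (hl : l.Prime) {r : ℕ} (h : l ∣ N * p ^ (r + 1)) : l ∣ N * p :=
  (hl.dvd_mul.1 h).elim (fun h => h.mul_right _) fun h => (hl.dvd_of_dvd_pow h).mul_left _

theorem kummer_one {ζ : Qbar} (hζ : IsPrimitiveRoot ζ p) {κ : Gam → ZMod p} (h : Unr p N κ) :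
    ∃ (r : ℕ) (a : Qbar), a ≠ 0 ∧ (∀ g ∈ Hinf p N, g a = ζ ^ (κ g).val * a) ∧
      Fx (Hm (N * p ^ (r + 1))) (a ^ p) ∧ ∀ w : Plc, Fx (Hm (N * p ^ (r + 1)) ⊓ Ine w) a := by
  have hp : p.Prime := Fact.out
  have hz : ∀ g ∈ Hinf p N, g ζ = ζ := fun g hg => mem_Hm.1 (mem_Hinf.1 hg 0) ζ (by
    rw [zero_add, pow_one, mul_comm, pow_mul, hζ.pow_eq_one, one_pow])
  obtain ⟨a, a0, ha⟩ := h90 closed_Hinf (f := fun g => ζ ^ (κ g).val)
    (h.sm.comp fun x => ζ ^ x.val) (fun g _ => pow_ne_zero _ (hζ.ne_zero hp.ne_zero))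
    fun g hg k hk => by
      rw [h.hom g hg k hk, map_pow, hz g hg, ← pow_add, ZMod.val_add,
        ← pow_eq_pow_mod _ hζ.pow_eq_one]
  have h0 : ∀ w : Plc, ∀ g ∈ Hinf p N, g ∈ Ine w → g a = a := fun w g hg hw => by
    rw [← ha g hg, h.unr w g hg hw, ZMod.val_zero, pow_zero, one_mul]
  by_contra hc
  obtain ⟨g, hg, hg'⟩ := desc (p := p) (N := N) (C := {g : Gam | g (a ^ p) ≠ a ^ p} ∪
    (⋃ l ∈ (N * p).primeFactors, {g : Gam | ∃ v : Plc, v.p = l ∧ g ∈ Ine v}) ∩ {g | g a ≠ a})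
    ((b2b_closed _ (· ≠ a ^ p)).1.union ((isClosed_biUnion_finset fun l hl =>
      kum_closed (Nat.prime_of_mem_primeFactors hl)).inter (b2b_closed _ (· ≠ a)).1)) fun r => by
      by_contra hn
      refine hc ⟨r, a, a0, fun g hg => (ha g hg).symm, fun g hg => ?_, fun w g hg => ?_⟩
      · by_contra e
        exact hn ⟨g, Or.inl e, hg⟩
      · by_contra e
        by_cases hw : w.p ∣ N * p
        · exact hn ⟨g, Or.inr ⟨Set.mem_biUnion (Nat.mem_primeFactors.2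
            ⟨w.prime, hw, NeZero.ne _⟩) ⟨w, rfl, hg.2⟩, e⟩, hg.1⟩
        · exact e (h0 w g (mem_Hinf.2 fun r =>
            ine_le_Hm (fun k => hw (kum_dvd w.prime k)) hg.2) hg.2)
  rcases hg with hg | ⟨hg, e⟩
  · exact hg (by rw [map_pow, ← ha g hg', mul_pow, ← pow_mul, mul_comm _ p, pow_mul,
      hζ.pow_eq_one, one_pow, one_mul])
  · simp only [Set.mem_iUnion] at hg
    obtain ⟨l, -, v, -, hv⟩ := hg
    exact e (h0 v g hg' hv)

theorem exists_kummer {ζ : Qbar} (hζ : IsPrimitiveRoot ζ p) {κ : Gam → ZMod p} (h : Unr p N κ) :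
    ∃ (r : ℕ) (a : Qbar), a ≠ 0 ∧ (∀ g ∈ Hinf p N, g a = ζ ^ (κ g).val * a) ∧
      Fx (Hm (N * p ^ (r + 1))) (a ^ p) ∧ (∀ w : Plc, w.p ∣ N * p ^ (r + 1) → w.V a = 1) ∧
      ∀ w : Plc, ¬ w.p ∣ N * p ^ (r + 1) → ∃ k : ℤ, w.V a = ((w.p : ℝ≥0) ^ k)⁻¹ := by
  have hp : p.Prime := Fact.out
  obtain ⟨r, a, a0, h1, h2, h3⟩ := kummer_one hζ h
  set m := N * p ^ (r + 1) with hm
  obtain ⟨t, ht, -, ht2⟩ := exists_reps (H := Hm m) op_Hm m.primeFactors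
  choose y hy hy' using fun w : Plc => b3a_unr op_Hm (h3 w) a0
  obtain ⟨ε, ε0, hε⟩ : ∃ ε : ℝ≥0, 0 < ε ∧ ∀ w ∈ t, ε ≤ w.V a := by
    rcases t.eq_empty_or_nonempty with rfl | hne
    · exact ⟨1, one_pos, by simp⟩
    · obtain ⟨w, -, hw⟩ := t.exists_min_image (fun w => w.V a) hne
      exact ⟨w.V a, b3a_pos w a0, hw⟩
  obtain ⟨δ, hδ, hδ'⟩ := approx_weak op_Hm t ht y (fun w _ => hy w) ε0
  have key : ∀ w : Plc, w.p ∣ m → w.V δ = w.V a := fun w hw => by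
    have := ht2 w (Nat.mem_primeFactors.2 ⟨w.prime, hw, NeZero.ne _⟩)
    simp only [Away, not_forall, not_not] at this
    obtain ⟨v, hv, g, hg, rfl⟩ := this
    have e1 : v.V δ = v.V a := by
      rw [← hy' v]
      refine v.V.map_eq_of_sub_lt ?_
      rw [v.V.map_sub_swap, hy' v]
      exact (hδ' v hv).trans_le (hε v hv)
    refine (pow_left_inj₀ zero_le zero_le hp.ne_zero).1 ?_
    rw [smul_V, hδ _ (inv_mem hg), e1, ← map_pow, ← map_pow, smul_V, h2 _ (inv_mem hg)]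
  have δ0 : δ ≠ 0 := by
    obtain ⟨w, hw⟩ := exists_plc hp
    intro e
    have := key w (hw ▸ (dvd_pow_self p r.succ_ne_zero).mul_left _)
    rw [e, map_zero] at this
    exact (b3a_pos w a0).ne this
  refine ⟨r, a / δ, div_ne_zero a0 δ0, fun g hg => ?_, fun g hg => ?_, fun w hw => ?_,
    fun w hw => V_of_fx_ine (fun g hg => ?_) (div_ne_zero a0 δ0)⟩
  · rw [map_div₀, h1 g hg, hδ g (mem_Hinf.1 hg r), mul_div_assoc]
  · rw [div_pow, map_div₀, h2 g hg, map_pow, hδ g hg]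
  · rw [map_div₀, key w hw, div_self (b3a_pos w a0).ne']
  · rw [map_div₀, h3 w g ⟨ine_le_Hm hw hg, hg⟩, hδ g (ine_le_Hm hw hg)]

end Pool.Agent.Lib.MP_3d78c5_nt
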