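import Pool.Agent.Lib.MP_3d78c5_nt.D1
import Pool.Agent.Lib.MP_3d78c5_nt.Nm

/-! The step function. -/

set_option autoImplicit false

open scoped NNReal Classical
open Finset

namespace Pool.Agent.Lib.MP_3d78c5_nt

open Pool.Agent.Lib.MP_696deb_nt.B2

theorem bb_form (c u t : ℕ) {M F : ℕ} (hc : 0 < c) (hM : 0 < M) (hF : 0 < F) :
    bb c (M * F) (u * F + t * M) = 2 * (((c * u + c * M * t / F) / M : ℕ) -
      c * (((c * u + c * M * t / F) / (c * M) : ℕ) : ℤ)) - ((c : ℤ) - 1) := by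
  have h1 : c * (u * F + t * M) / F = c * u + c * M * t / F := by
    rw [show c * (u * F + t * M) = c * M * t + c * u * F by ring, Nat.add_mul_div_right _ _ hF,
      add_comm]
  have h2 : (c * u + c * M * t / F) / M = c * (u * F + t * M) / (M * F) := by
    rw [← h1, Nat.div_div_eq_div_mul, mul_comm F M]
  have h3 : (c * u + c * M * t / F) / (c * M) = (u * F + t * M) / (M * F) := by
    rw [← h1, Nat.div_div_eq_div_mul, show F * (c * M) = c * (M * F) by ring,
      Nat.mul_div_mul_left _ _ hc]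
  rw [h2, h3, bb]
  generalize u * F + t * M = y
  have h4 : c * y / (M * F) = c * (y % (M * F)) / (M * F) + c * (y / (M * F)) := by
    conv_lhs => rw [← Nat.mod_add_div y (M * F)]
    rw [mul_add, mul_left_comm, Nat.add_mul_div_left _ _ (Nat.mul_pos hM hF)]
  rw [h4]
  push_cast
  ring

theorem sum_crt {R : Type} [AddCommMonoid R] {M F : ℕ} (hM : 0 < M) (hF : 0 < F)
    (hc : F.Coprime M) (f : ℕ → R) : ∑ y ∈ range (M * F), f y =
      ∑ t ∈ range F, ∑ u ∈ range M, f ((u * F + t * M) % (M * F)) := by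
  have hi : Set.InjOn (fun x : ℕ × ℕ => (x.2 * F + x.1 * M) % (M * F))
      (range F ×ˢ range M : Finset (ℕ × ℕ)) := by
    rintro ⟨t, u⟩ h ⟨t', u'⟩ h' e
    simp only [coe_product, coe_range, Set.mem_prod, Set.mem_Iio] at h h'
    have e1 : u * F + t * M ≡ u' * F + t' * M [MOD M * F] := e
    have e2 : u * F ≡ u' * F [MOD M] := by
      have := e1.of_mul_right F
      rwa [Nat.ModEq, Nat.add_mul_mod_self_right, Nat.add_mul_mod_self_right] at this
    have e3 : t * M ≡ t' * M [MOD F] := by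
      have := e1.of_mul_left M
      rwa [Nat.ModEq, add_comm, Nat.add_mul_mod_self_right, add_comm,
        Nat.add_mul_mod_self_right] at this
    exact Prod.ext ((Nat.ModEq.cancel_right_of_coprime hc e3).eq_of_lt_of_lt h.1 h'.1)
      ((Nat.ModEq.cancel_right_of_coprime hc.symm e2).eq_of_lt_of_lt h.2 h'.2)
  have hm : ∀ x ∈ range F ×ˢ range M, (x.2 * F + x.1 * M) % (M * F) ∈ range (M * F) :=
    fun x _ => mem_range.2 (Nat.mod_lt _ (Nat.mul_pos hM hF))
  rw [← sum_product']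
  exact (sum_nbij _ hm hi (surjOn_of_injOn_of_card_le _ hm hi (by
    rw [card_product, card_range, card_range, card_range, mul_comm])) fun _ _ => rfl).symm

variable {p N F : ℕ} [Fact p.Prime]

/-- The sums over the classes modulo `N * p`. -/
noncomputable def gg (θ : DirichletCharacter (PadicAlgCl p) (N * p)) (F t : ℕ) : PadicAlgCl p :=
  ∑ u ∈ range (N * p), ((u * F : ℕ) : PadicAlgCl p) ^ (p - 2) * θ (u * F : ℕ) *
    (bb (N * p + 1) (N * p * F) (u * F + t * (N * p)) : PadicAlgCl p)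

variable (θ : DirichletCharacter (PadicAlgCl p) (N * p))

theorem gg_le (F t : ℕ) : ‖gg θ F t‖ ≤ 1 :=
  nm_sum_le fun _ _ => nm_mul_le (nm_mul_le (nm_pow_le (nm_nat_le _) _) (θ.norm_le_one _))
    (nm_int_le _)

theorem gg_mod (F t : ℕ) : gg θ F (t % F) = gg θ F t := by
  refine sum_congr rfl fun u _ => ?_
  have : (u * F + t % F * (N * p)) % (N * p * F) = (u * F + t * (N * p)) % (N * p * F) := by
    refine Nat.ModEq.add_left _ ?_
    rw [mul_comm (N * p) F]
    exact (Nat.mod_modEq t F).mul_right' _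
  rw [bb, bb, this]

theorem gg_eq (hN : 0 < N) (hF : 0 < F) {t t' : ℕ}
    (h : (N * p + 1) * (N * p) * t / F = (N * p + 1) * (N * p) * t' / F) :
    ‖gg θ F t - gg θ F t'‖ < 1 := by
  have hM : 0 < N * p := Nat.mul_pos hN (Fact.out : p.Prime).pos
  simp only [gg, bb_form _ _ _ (Nat.succ_pos _) hM hF, h, sub_self, norm_zero, zero_lt_one]

theorem gg_jump (hp : p ≠ 2) (hN : 0 < N) (hF : 0 < F) (hc : F.Coprime (N * p)) {t t' k : ℕ}
    (h : (N * p + 1) * (N * p) * t / F = k + 1) (h' : (N * p + 1) * (N * p) * t' / F = k)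
    (hk : (k + 1).Coprime ((N * p + 1) * (N * p))) : ‖gg θ F t - gg θ F t'‖ = 1 := by
  have pp : p.Prime := Fact.out
  have hM : 0 < N * p := Nat.mul_pos hN pp.pos
  have h1 : ∀ u : ℕ, ¬ (N * p + 1) * (N * p) ∣ (N * p + 1) * u + k + 1 := fun u hu => by
    have h2 : N * p + 1 ∣ k + 1 := (Nat.dvd_add_right (dvd_mul_right _ u)).1
      ((dvd_mul_right _ _).trans hu)
    have := Nat.Coprime.eq_one_of_dvd (Nat.Coprime.coprime_mul_right_right hk).symm h2
    omega
  have h2 : ∀ u : ℕ, N * p ∣ (N * p + 1) * u + k + 1 ↔ N * p ∣ u + (k + 1) := fun u => by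
    rw [show (N * p + 1) * u + k + 1 = N * p * u + (u + (k + 1)) by ring]
    exact Nat.dvd_add_right (dvd_mul_right _ _)
  obtain ⟨u, hu, hd⟩ : ∃ u < N * p, N * p ∣ u + (k + 1) := by
    refine ⟨(N * p - 1) * (k + 1) % (N * p), Nat.mod_lt _ hM, ?_⟩
    rw [← Nat.dvd_mod_iff dvd_rfl, Nat.mod_add_mod, Nat.dvd_mod_iff dvd_rfl, ← Nat.succ_mul,
      Nat.succ_eq_add_one, Nat.sub_add_cancel hM]
    exact dvd_mul_right _ _
  have hco : (u * F).Coprime (N * p) := by
    refine Nat.Coprime.mul_left ?_ hc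
    obtain ⟨j, hj⟩ := hd
    refine Nat.Coprime.symm (Nat.coprime_of_dvd fun q hq h4 h5 => ?_)
    have h6 : q ∣ k + 1 := (Nat.dvd_add_right h5).1 (hj ▸ h4.mul_right j)
    exact hq.one_lt.ne' (Nat.eq_one_of_dvd_coprimes (Nat.Coprime.coprime_mul_left_right hk) h6 h4)
  simp only [gg, bb_form _ _ _ (Nat.succ_pos _) hM hF, h, h', ← add_assoc, Nat.succ_div, h1,
    h2, if_false, add_zero]
  rw [← sum_sub_distrib, sum_eq_single_of_mem u (mem_range.2 hu) fun v hv hne => ?_,
    if_pos (show N * p ∣ u + k + 1 from hd)]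
  · have e : ∀ (x : PadicAlgCl p) (a : ℕ) (b d : ℤ), x * ((2 * (((a + 1 : ℕ) : ℤ) - b) - d : ℤ) :
        PadicAlgCl p) - x * ((2 * ((a : ℤ) - b) - d : ℤ) : PadicAlgCl p) = x * (2 : ℕ) :=
      fun x a b d => by
        push_cast
        ring
    obtain ⟨w, hw⟩ := (ZMod.isUnit_iff_coprime _ _).2 hco
    rw [e, norm_mul, norm_mul, norm_pow, ← hw, θ.unit_norm_eq_one,
      nm_nat_eq fun h => hp ((Nat.prime_dvd_prime_iff_eq pp Nat.prime_two).1 h),
      nm_nat_eq ((Nat.Prime.coprime_iff_not_dvd pp).1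
        (Nat.Coprime.coprime_mul_left_right hco).symm), one_pow, one_mul, one_mul]
  · rw [if_neg, add_zero, sub_self]
    intro hv'
    refine hne (Nat.ModEq.eq_of_lt_of_lt (Nat.ModEq.add_right_cancel' (k + 1) ?_)
      (mem_range.1 hv) hu)
    exact (Nat.modEq_zero_iff_dvd.2 hv').trans (Nat.modEq_zero_iff_dvd.2 hd).symm

theorem SS_sub (hN : 0 < N) (hF : 0 < F) (hc : F.Coprime (N * p))
    (ψ : DirichletCharacter (PadicAlgCl p) F) (χ : DirichletCharacter (PadicAlgCl p) (N * F * p))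
    (h : ∀ n : ℕ, χ n = θ n * ψ n) :
    ‖SS χ (N * p + 1) - ψ (N * p : ℕ) * ∑ t ∈ range F, ψ t * gg θ F t‖ < 1 := by
  have hM : 0 < N * p := Nat.mul_pos hN (Fact.out : p.Prime).pos
  simp only [SS, h, gg]
  rw [mul_right_comm N F p, sum_crt hM hF hc, mul_sum, ← sum_sub_distrib]
  refine nm_sum_lt fun t _ => ?_
  rw [mul_sum, mul_sum, ← sum_sub_distrib]
  refine nm_sum_lt fun u _ => ?_
  have e1 : (u * F + t * (N * p)) % (N * p * F) ≡ u * F [MOD N * p] :=
    ((Nat.mod_modEq _ _).of_mul_right F).trans (Nat.add_mul_mod_self_right _ _ _)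
  have e2 : (u * F + t * (N * p)) % (N * p * F) ≡ t * (N * p) [MOD F] :=
    ((Nat.mod_modEq _ _).of_mul_left _).trans (by
      rw [add_comm]; exact Nat.add_mul_mod_self_right _ _ _)
  have e3 : bb (N * p + 1) (N * p * F) ((u * F + t * (N * p)) % (N * p * F)) =
      bb (N * p + 1) (N * p * F) (u * F + t * (N * p)) := by rw [bb, bb, Nat.mod_mod]
  rw [e3, (ZMod.natCast_eq_natCast_iff _ _ _).2 e1, (ZMod.natCast_eq_natCast_iff _ _ _).2 e2,
    Nat.cast_mul t, map_mul]
  have e4 := nm_mul_lt (nm_mul_le (nm_mul_le (nm_mul_le (θ.norm_le_one (u * F : ℕ))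
    (ψ.norm_le_one t)) (ψ.norm_le_one (N * p : ℕ)))
    (nm_int_le (bb (N * p + 1) (N * p * F) (u * F + t * (N * p)))))
    (nm_pow_sub (e1.of_mul_left N) (p - 2))
  refine lt_of_eq_of_lt (congrArg _ ?_) e4
  ring

end Pool.Agent.Lib.MP_3d78c5_nt
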