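import Pool.Agent.Lib.MP_3d78c5_nt.Tor
import Pool.Agent.Lib.MP_3d78c5_nt.Cnt
import Pool.Agent.Lib.MP_3d78c5_nt.Fou
import Pool.Agent.Lib.MP_3d78c5_nt.Step
import Pool.Agent.Lib.MP_3d78c5_nt.Hy

/-! Assembly. -/

set_option autoImplicit false

open scoped NNReal Classical
open Finset

namespace Pool.Agent.Lib.MP_3d78c5_nt

variable {p N F : ℕ} [Fact p.Prime]

theorem piv_le (hp : p ≠ 2) (hN : 0 < N) (hF : F.Prime) (hc : F.Coprime (N * p))
    (h1 : ¬ p ∣ F - 1) (θ : DirichletCharacter (PadicAlgCl p) (N * p)) :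
    #{d ∈ range F | Piv ((N * p + 1) * (N * p)) F d} ≤
      Nat.card {ψ : DirichletCharacter (PadicAlgCl p) F //
        ‖∑ t ∈ range F, ψ t * gg θ F t‖ = 1} := by
  refine card_le_fourier hF h1 _ (gg_le θ F) (gg_mod θ F) _ fun d hd => ?_
  obtain ⟨d0, dF, a, k, a1, a2, a3, a4, a5, a6⟩ := piv_sep hF (mem_filter.1 hd).2
  exact ⟨fun h => absurd (Nat.le_of_dvd d0 h) (not_le.2 dF), a + 1, a, a2, a1,
    gg_jump θ hp hN hF.pos hc a3 a4 a5, fun d' _ h => gg_eq θ hN hF.pos (a6 d' h)⟩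

theorem good (hp : p ≠ 2) (hN : 0 < N) (n1 : ¬ p ∣ N) (n2 : ¬ p ∣ Nat.totient N) (hF : F.Prime)
    (hlt : N * p + 1 < F) (h1 : ¬ p ∣ F - 1) {θ : DirichletCharacter (PadicAlgCl p) (N * p)}
    (hθ : θ.IsPrimitive) {ψ : DirichletCharacter (PadicAlgCl p) F} (hψ : ψ ≠ 1)
    (h : ‖∑ t ∈ range F, ψ t * gg θ F t‖ = 1)
    {χ : DirichletCharacter (PadicAlgCl p) (N * F * p)} (e : ∀ n : ℕ, χ n = θ n * ψ n) :
    Hyp χ ∧ Subsingleton (Xθ χ) := by
  have pp : p.Prime := Fact.out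
  have hM : 0 < N * p := Nat.mul_pos hN pp.pos
  have hc : F.Coprime (N * p) := (Nat.coprime_of_lt_prime hM.ne' (by omega) hF)
  have hNF : 0 < N * F := Nat.mul_pos hN hF.pos
  have : NeZero (N * F) := ⟨hNF.ne'⟩
  have : NeZero F := ⟨hF.ne_zero⟩
  have hcN : N.Coprime F := (Nat.Coprime.coprime_mul_right_right hc).symm
  have a1 : ¬ p ∣ N * F := fun h => (pp.dvd_mul.1 h).elim n1 fun h =>
    pp.one_lt.ne' (Nat.Coprime.eq_one_of_dvd (Nat.Coprime.coprime_mul_left_right hc).symm h)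
  have a2 : ¬ p ∣ Nat.totient (N * F) := by
    rw [Nat.totient_mul hcN, Nat.totient_prime hF]
    exact fun h => (pp.dvd_mul.1 h).elim n2 h1
  have hS : ‖SS χ (N * p + 1)‖ = 1 := by
    have h2 := SS_sub θ hN hF.pos hc ψ χ e
    have h3 : ‖ψ (N * p : ℕ) * ∑ t ∈ range F, ψ t * gg θ F t‖ = 1 := by
      rw [norm_mul, h, mul_one]
      obtain ⟨u, hu⟩ := (ZMod.isUnit_iff_coprime (N * p) F).2 hc.symm
      rw [← hu]
      have h4 : ‖ψ u‖ ^ Fintype.card (ZMod F)ˣ = 1 := by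
        rw [← norm_pow, ← map_pow, ← Units.val_pow_eq_pow_val, pow_card_eq_one, Units.val_one,
          map_one, norm_one]
      exact (pow_eq_one_iff_of_nonneg (norm_nonneg _) Fintype.card_ne_zero).1 h4
    have h5 := IsUltrametricDist.norm_add_eq_max_of_norm_ne_norm (h2.trans_eq h3.symm).ne
    rw [sub_add_cancel, h3, max_eq_right h2.le] at h5
    exact h5
  have hlt2 : N * p + 1 < N * F * p :=
    hlt.trans_le (by rw [mul_right_comm]; exact Nat.le_mul_of_pos_left _ hM)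
  have hcp : (N * p + 1).Coprime p := by simp
  refine ⟨⟨a1, a2, even_of hp hNF (fun h => ?_) hS, prim_mul hN hF hc hθ hψ e, fun ω hω =>
    ⟨fun h t ht ht' => two_of hp hNF a1 hcp hS hω h ht ht', fun h => ?_⟩⟩,
    xtheta_zero a1 a2 (Nat.succ_pos _) hlt2 hcp χ hS⟩
  · exact absurd (Nat.le_of_dvd (Nat.succ_pos _) h) (not_le.2 hlt2)
  · exact absurd (Nat.eq_one_of_mul_eq_one_left h) hF.one_lt.ne'

theorem main (p N : ℕ) [Fact p.Prime] (hp : 5 ≤ p) (hN : 0 < N) (n1 : ¬ p ∣ N)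
    (n2 : ¬ p ∣ Nat.totient N) :
    ∃ κ : ℝ, 0 < κ ∧ ∃ F₀ : ℕ, ∀ θ : DirichletCharacter (PadicAlgCl p) (N * p), θ.IsPrimitive →
      ∀ F : ℕ, F.Prime → F₀ ≤ F → ¬ p ∣ F - 1 →
        κ * (F : ℝ) ^ (2 / 3 : ℝ) / Real.log F ≤
          Nat.card {χ : DirichletCharacter (PadicAlgCl p) (N * F * p) //
            (∃ ψ : DirichletCharacter (PadicAlgCl p) F, ∀ n : ℕ, χ n = θ n * ψ n) ∧
              Hyp χ ∧ Subsingleton (Xθ χ)} := by
  have pp : p.Prime := Fact.out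
  have hM : 0 < N * p := Nat.mul_pos hN pp.pos
  obtain ⟨κ, κ0, F₀, hκ⟩ := piv_many (Q := (N * p + 1) * (N * p)) (Nat.mul_pos (Nat.succ_pos _) hM)
  refine ⟨κ, κ0, max F₀ (N * p + 2), fun θ hθ F hF hle h1 => ?_⟩
  have hlt : N * p + 1 < F := lt_of_lt_of_le (Nat.lt_succ_self _) ((le_max_right _ _).trans hle)
  have hc : F.Coprime (N * p) := (Nat.coprime_of_lt_prime hM.ne' (by omega) hF)
  have hp2 : p ≠ 2 := by omega
  have : NeZero F := ⟨hF.ne_zero⟩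
  have : NeZero (N * F * p) := ⟨(Nat.mul_pos (Nat.mul_pos hN hF.pos) pp.pos).ne'⟩
  have h2 := hκ F hF ((le_max_left _ _).trans hle)
  have h3 := piv_le hp2 hN hF hc h1 θ
  choose m hm using exists_mul (F := F) θ
  have h4 : Nat.card {ψ : DirichletCharacter (PadicAlgCl p) F //
      ‖∑ t ∈ range F, ψ t * gg θ F t‖ = 1} ≤
      Nat.card (Option {χ : DirichletCharacter (PadicAlgCl p) (N * F * p) //
        (∃ ψ : DirichletCharacter (PadicAlgCl p) F, ∀ n : ℕ, χ n = θ n * ψ n) ∧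
          Hyp χ ∧ Subsingleton (Xθ χ)}) := by
    refine Nat.card_le_card_of_injective (fun ψ => if h : ψ.1 = 1 then none else
      some ⟨m ψ.1, ⟨ψ.1, hm ψ.1⟩, good hp2 hN n1 n2 hF hlt h1 hθ h ψ.2 (hm ψ.1)⟩) ?_
    intro ψ ψ' h
    dsimp only at h
    split_ifs at h with a b b
    · exact Subtype.ext (a.trans b.symm)
    · refine Subtype.ext (mul_inj hF.pos hc θ fun n => ?_)
      rw [← hm, ← hm, show m ψ.1 = m ψ'.1 from congrArg Subtype.val (Option.some.inj h)]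
  rw [Finite.card_option] at h4
  have h5 := (Nat.cast_le (α := ℝ)).2 (h3.trans h4)
  push_cast at h5
  linarith

end Pool.Agent.Lib.MP_3d78c5_nt
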