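import Pool.Agent.Lib.MP_3d78c5_nt.D1

/-! From a relation on characters of order `p` to the vanishing of the eigenspace. -/

set_option autoImplicit false

open scoped NNReal Classical Pointwise TensorProduct
open Finset

namespace Pool.Agent.Lib.MP_3d78c5_nt

open Pool.Agent.Lib.MP_696deb_nt.B2

variable {p N : ℕ} [Fact p.Prime]

/-- An integral element of norm one is a root of a polynomial with constant term one. -/
theorem exists_poly {α : PadicAlgCl p} (h : IsIntegral ℤ_[p] α) (h1 : ‖α‖ = 1) :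
    ∃ R : Polynomial ℤ_[p], Polynomial.aeval α (Polynomial.X * R) = 1 := by
  have h2 := spectralNorm.spectralNorm_eq_norm_coeff_zero_rpow ℚ_[p] (PadicAlgCl p) α
  have h3 : (minpoly ℚ_[p] α).natDegree ≠ 0 := (minpoly.natDegree_pos h.tower_top).ne'
  rw [PadicAlgCl.spectralNorm_eq, h1] at h2
  have h4 := congrArg (· ^ (minpoly ℚ_[p] α).natDegree) h2
  simp only [one_pow, one_div] at h4
  rw [Real.rpow_inv_natCast_pow (norm_nonneg _) h3,
    minpoly.isIntegrallyClosed_eq_field_fractions' ℚ_[p] h, Polynomial.coeff_map] at h4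
  obtain ⟨u, hu⟩ := PadicInt.isUnit_iff.2 h4.symm
  have h5 := minpoly.aeval ℤ_[p] α
  rw [← Polynomial.X_mul_divX_add (minpoly ℤ_[p] α), ← hu, map_add, add_eq_zero_iff_eq_neg] at h5
  refine ⟨(minpoly ℤ_[p] α).divX * Polynomial.C (-(u⁻¹ : ℤ_[p]ˣ) : ℤ_[p]), ?_⟩
  rw [← mul_assoc, map_mul, h5, ← map_neg, ← map_mul, ← map_neg, ← map_mul, neg_mul_neg,
    Units.mul_inv, map_one, map_one]

theorem cj_mem (σ : Gam) (f : UC p N) : (fun h => f.1 (cj σ h)) ∈ UC p N := by
  refine ⟨fun g h => ?_, f.2.2.1.comp_continuous ?_, fun g ⟨P, hP, hg⟩ => ?_⟩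
  · refine (congrArg f.1 (Subtype.ext ?_)).trans (f.2.1 (cj σ g) (cj σ h))
    simp only [cj, Subgroup.coe_mul]
    group
  · exact Continuous.subtype_mk
      ((continuous_const.mul continuous_subtype_val).mul continuous_const) _
  · obtain ⟨w, rfl⟩ := b2a_surj P hP
    refine f.2.2.2 _ ⟨b2aP (σ • w), inferInstance, fun x => ?_⟩
    have := hg (σ⁻¹ • x)
    rw [b2a_smul]
    refine Ideal.mem_pointwise_smul_iff_inv_smul_mem.2 ?_
    simp only [cj, smul_sub, mul_smul, inv_smul_smul]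
    exact this

/-- Conjugation of characters. -/
noncomputable def cjU (σ : Gam) : UC p N →ₗ[ℤ_[p]] UC p N where
  toFun f := ⟨fun h => f.1 (cj σ h), cj_mem σ f⟩
  map_add' _ _ := rfl
  map_smul' _ _ := rfl

theorem exists_pow_kill (f : UC p N) : ∃ n : ℕ, (p : ℤ_[p]) ^ n • f = 0 := by
  choose n hn using exists_pow_smul (p := p)
  have hf := f.2.2.1.range_finite
  refine ⟨hf.toFinset.sup n, Subtype.ext (funext fun h => ?_)⟩
  obtain ⟨k, hk⟩ := Nat.exists_eq_add_of_le'
    (le_sup (f := n) (hf.mem_toFinset.2 (Set.mem_range_self h)))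
  change (p : ℤ_[p]) ^ hf.toFinset.sup n • f.1 h = 0
  rw [hk, pow_add, mul_smul, hn, smul_zero]

/-- The operator `T` on characters induces multiplication by `β` on the eigenspace. -/
def Acts (θ : DirichletCharacter (PadicAlgCl p) (N * p)) (T : Module.End ℤ_[p] (UC p N))
    (β : OO θ) : Prop :=
  ∀ x : XX p N, ∃ y : XX p N, y.1 = x.1 ∘ₗ T ∧ ∀ a : OO θ,
    (Rel θ).mkQ (a ⊗ₜ[ℤ_[p]] y) = (Rel θ).mkQ ((a * β) ⊗ₜ[ℤ_[p]] x)

section Acts

variable {θ : DirichletCharacter (PadicAlgCl p) (N * p)} {T T' : Module.End ℤ_[p] (UC p N)}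
  {β β' : OO θ}

theorem Acts.one : Acts θ 1 1 := fun x => ⟨x, rfl, fun a => by rw [mul_one]⟩

theorem Acts.zero : Acts θ 0 0 := fun x => ⟨0, (LinearMap.comp_zero _).symm, fun a => by
  rw [mul_zero, TensorProduct.tmul_zero, TensorProduct.zero_tmul]⟩

theorem Acts.add (h : Acts θ T β) (h' : Acts θ T' β') : Acts θ (T + T') (β + β') := fun x => by
  obtain ⟨y, a1, a2⟩ := h x
  obtain ⟨y', b1, b2⟩ := h' x
  refine ⟨y + y', by rw [Submodule.coe_add, a1, b1, LinearMap.comp_add], fun a => ?_⟩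
  rw [TensorProduct.tmul_add, map_add, a2, b2, mul_add, TensorProduct.add_tmul, map_add]

theorem Acts.smul (h : Acts θ T β) (c : ℤ_[p]) : Acts θ (c • T) (c • β) := fun x => by
  obtain ⟨y, a1, a2⟩ := h x
  refine ⟨c • y, by rw [Submodule.coe_smul, a1, LinearMap.comp_smul], fun a => ?_⟩
  rw [TensorProduct.tmul_smul, map_smul, a2, mul_smul_comm, ← TensorProduct.smul_tmul', map_smul]

theorem Acts.mul (h : Acts θ T β) (h' : Acts θ T' β') : Acts θ (T * T') (β * β') := fun x => by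
  obtain ⟨y, a1, a2⟩ := h x
  obtain ⟨y', b1, b2⟩ := h' y
  refine ⟨y', by rw [b1, a1]; rfl, fun a => ?_⟩
  rw [b2, a2, mul_assoc, mul_comm β' β]

theorem Acts.aeval (h : Acts θ T β) (Q : Polynomial ℤ_[p]) :
    Acts θ (Polynomial.aeval T Q) (Polynomial.aeval β Q) := by
  induction Q using Polynomial.induction_on with
  | C c =>
    rw [Polynomial.aeval_C, Polynomial.aeval_C, Algebra.algebraMap_eq_smul_one,
      Algebra.algebraMap_eq_smul_one]
    exact Acts.one.smul c
  | add P Q a b =>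
    rw [map_add, map_add]
    exact a.add b
  | monomial n c a =>
    rw [pow_succ, ← mul_assoc, map_mul, map_mul (Polynomial.aeval β), Polynomial.aeval_X,
      Polynomial.aeval_X]
    exact a.mul h

theorem acts_cjU {σ : Gam} {s : ℕ} (h : Lift p N σ s) : Acts θ (cjU σ) (val θ s) := by
  rintro ⟨_, k, rfl⟩
  refine ⟨cls (cj σ k), rfl, fun a => ?_⟩
  rw [Submodule.mkQ_apply, Submodule.mkQ_apply, Submodule.Quotient.eq]
  exact Submodule.subset_span ⟨σ, s, k, cj σ k, a, h, rfl, rfl⟩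

theorem pow_kill (h : ∀ f : UC p N, (p : ℤ_[p]) • f = 0 → T f = 0) (n : ℕ) :
    ∀ f : UC p N, (p : ℤ_[p]) ^ n • f = 0 → (T ^ n) f = 0 := by
  induction n with
  | zero => exact fun f hf => by rwa [pow_zero, one_smul] at hf
  | succ n ih =>
    intro f hf
    rw [pow_succ, Module.End.mul_apply]
    refine ih _ ?_
    rw [← map_smul]
    exact h _ (by rw [← mul_smul, ← pow_succ', hf])

theorem subsingleton_of_acts (h : Acts θ T 1)
    (h1 : ∀ f : UC p N, (p : ℤ_[p]) • f = 0 → T f = 0) : Subsingleton (Xo θ) := by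
  have hn : ∀ f : UC p N, ∃ n, ∀ k, n ≤ k → (T ^ k) f = 0 := fun f => by
    obtain ⟨n, hn⟩ := exists_pow_kill f
    refine ⟨n, fun k hk => ?_⟩
    obtain ⟨j, rfl⟩ := Nat.exists_eq_add_of_le' hk
    rw [pow_add, Module.End.mul_apply, pow_kill h1 n f hn, map_zero]
  choose n hn using hn
  have g1 : ∀ (f : UC p N) (k : ℕ), n f ≤ k → (1 - T) ((∑ j ∈ range k, T ^ j) f) = f :=
    fun f k hk => by
      have e : (1 - T) * ∑ j ∈ range k, T ^ j = 1 - T ^ k := mul_neg_geom_sum T k
      rw [← Module.End.mul_apply, e, LinearMap.sub_apply, hn f k hk, sub_zero]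
      rfl
  have g2 : Function.Injective (1 - T : Module.End ℤ_[p] (UC p N)) := by
    rw [injective_iff_map_eq_zero]
    intro f hf
    have := congrArg (∑ j ∈ range (n f), T ^ j : Module.End ℤ_[p] (UC p N)) hf
    have e : (∑ j ∈ range (n f), T ^ j) * (1 - T) = 1 - T ^ n f := geom_sum_mul_neg T _
    rwa [← Module.End.mul_apply, e, LinearMap.sub_apply, hn f _ le_rfl, sub_zero,
      map_zero] at this
  let A := LinearEquiv.ofBijective (1 - T : Module.End ℤ_[p] (UC p N))
    ⟨g2, fun f => ⟨_, g1 f _ le_rfl⟩⟩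
  have g3 : ∀ k, Acts θ (∑ j ∈ range k, T ^ j) (k : OO θ) := fun k => by
    have := h.aeval (∑ j ∈ range k, Polynomial.X ^ j)
    simpa using this
  have g4 : Acts θ (1 - T) 0 := by
    have := h.aeval (1 - Polynomial.X)
    simpa using this
  have g5 : ∀ (a : OO θ) (x : XX p N), (Rel θ).mkQ (a ⊗ₜ[ℤ_[p]] x) = 0 := fun a x => by
    have hy : x.1 ∘ₗ A.symm.toLinearMap ∈ XX p N := mem_range_ev fun t => by
      obtain ⟨⟨_, g, rfl⟩, b1, -⟩ := g3 (t.sup n) x
      refine ⟨g, fun f hf => ?_⟩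
      rw [show ev g = _ from b1, LinearMap.comp_apply, LinearMap.comp_apply]
      congr 1
      exact (A.eq_symm_apply).2 (g1 f _ (le_sup hf))
    obtain ⟨z, b1, b2⟩ := g4 ⟨_, hy⟩
    have b3 : z = x := Subtype.ext (b1.trans (LinearMap.ext fun f =>
      congrArg x.1 (A.symm_apply_apply f)))
    rw [← b3, b2, mul_zero, TensorProduct.zero_tmul, map_zero]
  refine subsingleton_of_forall_eq 0 fun z => ?_
  obtain ⟨z, rfl⟩ := (Rel θ).mkQ_surjective z
  induction z using TensorProduct.induction_on with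
  | zero => exact map_zero _
  | tmul a x => exact g5 a x
  | add a b ha hb => rw [map_add, ha, hb, add_zero]

end Acts

theorem subsingleton_of [NeZero N] (θ : DirichletCharacter (PadicAlgCl p) (N * p))
    (τ : (ZMod (N * p))ˣ → Gam) (hτ : ∀ s, Lift p N (τ s) (s : ZMod (N * p)).val)
    (e : (ZMod (N * p))ˣ → ℤ)
    (h1 : ∀ f : UC p N, (p : ℤ_[p]) • f = 0 → ∑ s, (e s : ℤ_[p]) • cjU (τ s) f = 0)
    (h2 : ‖∑ s, (e s : PadicAlgCl p) * θ (s : ZMod (N * p))‖ = 1) : Subsingleton (Xθ θ) := by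
  have a1 : Acts θ (∑ s, (e s : ℤ_[p]) • cjU (τ s))
      (∑ s, (e s : ℤ_[p]) • val θ (s : ZMod (N * p)).val) := by
    refine Finset.induction_on (univ : Finset (ZMod (N * p))ˣ) ?_ fun s t hs ih => ?_
    · exact Acts.zero
    · rw [sum_insert hs, sum_insert hs]
      exact ((acts_cjU (hτ s)).smul _).add ih
  generalize hβ : (∑ s : (ZMod (N * p))ˣ, (e s : ℤ_[p]) • val θ (s : ZMod (N * p)).val) = β at a1
  have a2 : (β : PadicAlgCl p) = ∑ s, (e s : PadicAlgCl p) * θ (s : ZMod (N * p)) := by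
    rw [← hβ, AddSubmonoidClass.coe_finsetSum]
    refine sum_congr rfl fun s _ => ?_
    change (e s : ℤ_[p]) • θ ((s : ZMod (N * p)).val : ℕ) = _
    rw [ZMod.natCast_zmod_val, Algebra.smul_def, map_intCast]
  have a3 : IsIntegral ℤ_[p] (β : PadicAlgCl p) := by
    rw [a2]
    refine IsIntegral.sum _ fun s _ => IsIntegral.mul ?_ ?_
    · rw [← map_intCast (algebraMap ℤ_[p] (PadicAlgCl p))]
      exact isIntegral_algebraMap
    · refine IsIntegral.of_pow (Fintype.card_pos (α := (ZMod (N * p))ˣ)) ?_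
      rw [← map_pow, ← Units.val_pow_eq_pow_val, pow_card_eq_one, Units.val_one, map_one]
      exact isIntegral_one
  obtain ⟨R, hR⟩ := exists_poly a3 (a2 ▸ h2)
  have a4 : Polynomial.aeval β (R * Polynomial.X) = 1 := Subtype.ext (by
    rw [Polynomial.aeval_subalgebra_coe, mul_comm, hR]
    rfl)
  have a5 := a1.aeval (R * Polynomial.X)
  rw [a4] at a5
  refine subsingleton_Xθ (subsingleton_of_acts a5 fun f hf => ?_)
  rw [map_mul, Polynomial.aeval_X, Module.End.mul_apply, LinearMap.sum_apply]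
  exact (congrArg _ (h1 f hf)).trans (map_zero _)

end Pool.Agent.Lib.MP_3d78c5_nt
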