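import Pool.Agent.Lib.MP_3d78c5_nt.Stk
import Pool.Agent.Lib.MP_3d78c5_nt.Kum
import Pool.Agent.Lib.MP_3d78c5_nt.Dist

/-! The relation at a finite level. -/

set_option autoImplicit false

open scoped NNReal Classical
open Finset

namespace Pool.Agent.Lib.MP_3d78c5_nt

open Pool.Agent.Lib.MP_696deb_nt.B2

theorem rl_emb (j : Qbar →+* ℂ) : ∃ g : Gam, ∀ x, jC (g x) = j x := by
  let i : Qbar →ₐ[ℚ] ℂ := IsAlgClosed.lift
  let _ : Algebra Qbar ℂ := i.toRingHom.toAlgebra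
  have : IsScalarTower ℚ Qbar ℂ := IsScalarTower.of_algebraMap_eq fun q => (i.commutes q).symm
  exact ⟨j.toRatAlgHom.restrictNormal' Qbar, fun x =>
    AlgHom.restrictNormal_commutes j.toRatAlgHom Qbar x⟩

theorem rl_zpow_sum {ι : Type} (s : Finset ι) (e : ι → ℤ) {ζ : Qbar} (h : ζ ≠ 0) :
    ∏ i ∈ s, ζ ^ e i = ζ ^ ∑ i ∈ s, e i := by
  induction s using Finset.induction_on with
  | empty => simp
  | insert i s hi ih => rw [prod_insert hi, sum_insert hi, zpow_add₀ h, ih]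

/-- The theorem of Kronecker for units of cyclotomic fields. -/
theorem kronecker {m : ℕ} [NeZero m] {ε : Qbar} (h : Fx (Hm m) ε) (h1 : ∀ w : Plc, w.V ε = 1) :
    ∃ n : ℕ, 0 < n ∧ (ε / cc ε) ^ n = 1 := by
  have e0 : ε ≠ 0 := fun h0 => by
    obtain ⟨w, -⟩ := exists_plc Nat.prime_two
    simpa [h0] using h1 w
  have hi : IsIntegral ℤ (ε / cc ε) := isIntegral_of_V fun w => by
    rw [map_div₀, h1, show w.V (cc ε) = 1 from h1 (cc⁻¹ • w), div_one]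
  let K := IntermediateField.adjoin ℚ {ε / cc ε}
  have : FiniteDimensional ℚ K := IntermediateField.adjoin.finiteDimensional hi.tower_top
  have : NumberField K := ⟨⟩
  let x : K := ⟨_, IntermediateField.mem_adjoin_simple_self ℚ _⟩
  obtain ⟨n, hn, e⟩ := NumberField.Embeddings.pow_eq_one_of_norm_eq_one K ℂ (x := x)
    ((isIntegral_algHom_iff (K.val.restrictScalars ℤ) Subtype.val_injective).1 hi) fun φ => by
      obtain ⟨g, hg⟩ := rl_emb (NumberField.ComplexEmbedding.lift Qbar φ)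
      have h2 : g (cc ε) = cc (g ε) :=
        fx_congr h (g := g * cc) (g' := cc * g) (by rw [map_mul, map_mul, mul_comm])
      rw [← NumberField.ComplexEmbedding.lift_algebraMap_apply Qbar φ, ← hg]
      change ‖jC (g (ε / cc ε))‖ = 1
      rw [map_div₀, h2, map_div₀, jC_cc, norm_div, Complex.norm_conj]
      exact div_self (by simpa using e0)
  exact ⟨n, hn, congrArg Subtype.val e⟩

variable {p N : ℕ} [Fact p.Prime] [NeZero N]

theorem fx_of_root {x : Qbar} {n : ℕ} (hn : 0 < n) (h : x ^ n = 1) (hx : Fx (Hinf p N) (x ^ p)) :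
    Fx (Hinf p N) x := fun g hg => by
  have hp : p.Prime := Fact.out
  have x0 : x ≠ 0 := ne_zero_pow hn.ne' (h ▸ one_ne_zero)
  obtain ⟨e, n', h1, rfl⟩ := Nat.exists_eq_pow_mul_and_not_dvd hn.ne' p hp.ne_one
  have h2 := hg e (x ^ n') (by rw [← pow_mul, mul_left_comm, mul_comm n', pow_mul', h, one_pow])
  refine (div_eq_one_iff_eq x0).1
    ((pow_eq_one_iff_of_coprime (hp.coprime_iff_not_dvd.2 h1)).1 ⟨?_, ?_⟩)
  · rw [div_pow, ← map_pow, hx g hg, div_self (pow_ne_zero _ x0)]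
  · rw [div_pow, ← map_pow, h2, div_self (pow_ne_zero _ x0)]

theorem fx_prod {c r : ℕ} (hc : ¬ N * p ^ (r + 1) ∣ c) {a : Qbar} (a0 : a ≠ 0)
    (ha : Fx (Hm (N * p ^ (r + 1))) (a ^ p)) (h1 : ∀ w : Plc, w.p ∣ N * p ^ (r + 1) → w.V a = 1)
    (h2 : ∀ w : Plc, ¬ w.p ∣ N * p ^ (r + 1) → ∃ k : ℤ, w.V a = ((w.p : ℝ≥0) ^ k)⁻¹)
    (σ : (ZMod (N * p ^ (r + 1)))ˣ → Gam) (hσ : ∀ t, cl _ (σ t) = t) :
    Fx (Hinf p N)
      (∏ t, (σ t)⁻¹ a ^ bb c (N * p ^ (r + 1)) (t : ZMod (N * p ^ (r + 1))).val) := by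
  have hp : p.Prime := Fact.out
  obtain ⟨γ, γ0, hγ, hV⟩ := stick (n := p) hc σ hσ ha (pow_ne_zero _ a0)
    (fun w hw => by rw [map_pow, h1 w hw, one_pow]) fun w hw => (h2 w hw).imp fun k hk => by
      rw [map_pow, hk, inv_pow, ← zpow_natCast, ← zpow_mul, mul_comm]
  have b0 : ∀ t, (σ t)⁻¹ (a ^ p) ≠ 0 := fun t => (map_ne_zero _).2 (pow_ne_zero _ a0)
  have c0 : cc γ ≠ 0 := (map_ne_zero _).2 γ0
  have hε : Fx (Hm (N * p ^ (r + 1)))
      ((∏ t, (σ t)⁻¹ (a ^ p) ^ nn c (N * p ^ (r + 1)) t) / γ ^ p) := fun g hg => by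
    rw [map_div₀, map_pow, hγ g hg, map_prod]
    simp only [map_pow g, fx_smul ha _ g hg]
  obtain ⟨n, hn, e⟩ := kronecker hε fun w => by
    rw [map_div₀, hV, map_pow, div_self (pow_ne_zero _ (b3a_pos w γ0).ne')]
  have h3 : cc (∏ t, (σ t)⁻¹ (a ^ p) ^ nn c (N * p ^ (r + 1)) t) =
      ∏ t, (σ t)⁻¹ (a ^ p) ^ nn c (N * p ^ (r + 1)) (-t) := by
    rw [map_prod]
    refine Fintype.prod_equiv (Equiv.neg _) _ _ fun t => ?_
    rw [map_pow, Equiv.neg_apply, neg_neg]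
    exact congrArg (· ^ _) (fx_congr ha (g := cc * (σ t)⁻¹) (by
      rw [map_mul, map_inv, map_inv, hσ, hσ, cl_cc, inv_neg, neg_one_mul]))
  have h4 : ((∏ t, (σ t)⁻¹ a ^ bb c (N * p ^ (r + 1)) (t : ZMod (N * p ^ (r + 1))).val) *
      cc γ / γ) ^ p = (∏ t, (σ t)⁻¹ (a ^ p) ^ nn c (N * p ^ (r + 1)) t) / γ ^ p /
        cc ((∏ t, (σ t)⁻¹ (a ^ p) ^ nn c (N * p ^ (r + 1)) t) / γ ^ p) := by
    rw [map_div₀, h3, map_pow, div_div_div_comm, ← prod_div_distrib, div_pow, mul_pow,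
      div_div_eq_mul_div, ← prod_pow]
    refine congrArg (· * _ / _) (prod_congr rfl fun t _ => ?_)
    rw [← nn_sub hc, ← zpow_natCast, ← zpow_mul, mul_comm, zpow_mul, zpow_natCast, ← map_pow,
      zpow_sub₀ (b0 t), zpow_natCast, zpow_natCast]
  intro g hg
  have hg' := mem_Hinf.1 hg r
  have h5 := fx_of_root (N := N) (mul_pos hp.pos hn) (by rw [pow_mul, h4, e]) (fun k hk => by
    rw [h4, map_div₀, hε k (mem_Hinf.1 hk r), fx_smul hε cc k (mem_Hinf.1 hk r)]) g hg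
  rw [map_div₀, map_mul, hγ g hg', fx_smul hγ cc g hg', div_left_inj' γ0] at h5
  exact mul_right_cancel₀ c0 h5

theorem rel_level {κ : Gam → ZMod p} (h : Unr p N κ) {c : ℕ} (hc0 : 0 < c) (hc : c < N * p) :
    ∃ r : ℕ, (∀ g ∈ Hm (N * p ^ (r + 1)), ∀ k ∈ Hinf p N, κ (g * k * g⁻¹) = κ k) ∧
      ∀ σ : (ZMod (N * p ^ (r + 1)))ˣ → Gam, (∀ t, cl _ (σ t) = t) → ∀ k ∈ Hinf p N,
        ∑ t : (ZMod (N * p ^ (r + 1)))ˣ,
          (bb c (N * p ^ (r + 1)) (t : ZMod (N * p ^ (r + 1))).val : ZMod p) *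
            (((t : ZMod (N * p ^ (r + 1))).val : ZMod p)⁻¹ * κ (σ t * k * (σ t)⁻¹)) = 0 := by
  have hp : p.Prime := Fact.out
  obtain ⟨ζ, hζ⟩ := exists_zt p
  obtain ⟨r, a, a0, hκ, ha, h1, h2⟩ := exists_kummer hζ h
  have hd : p ∣ N * p ^ (r + 1) := (dvd_mul_left p N).trans (dvd_level N p r)
  have ζ1 : ζ ^ (N * p ^ (r + 1)) = 1 := (hζ.pow_eq_one_iff_dvd _).2 hd
  have key : ∀ g : Gam, ∀ k ∈ Hinf p N,
      k (g⁻¹ a) = g⁻¹ ζ ^ (κ (g * k * g⁻¹)).val * g⁻¹ a := fun g k hk => by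
    rw [← map_pow, ← map_mul, ← hκ _ (conj_Hinf g hk), ← AlgEquiv.mul_apply g⁻¹, ← mul_assoc,
      inv_mul_cancel_left, AlgEquiv.mul_apply]
  refine ⟨r, fun g hg k hk => ?_, fun σ hσ k hk => ?_⟩
  · have g0 : g⁻¹ a ≠ 0 := (map_ne_zero _).2 a0
    have h3 := hk 1 (g⁻¹ a / a) (by
      rw [pow_one, pow_mul', div_pow, ← map_pow, ha _ (inv_mem hg), div_self (pow_ne_zero _ a0),
        one_pow])
    rw [map_div₀, key g k hk, hκ k hk, mem_Hm.1 (inv_mem hg) ζ ζ1,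
      div_eq_div_iff (mul_ne_zero (pow_ne_zero _ (hζ.ne_zero hp.ne_zero)) a0) a0, mul_assoc,
      mul_left_comm (g⁻¹ a)] at h3
    exact ZMod.val_injective _ (hζ.pow_inj (ZMod.val_lt _) (ZMod.val_lt _)
      (mul_right_cancel₀ (mul_ne_zero g0 a0) h3))
  · have h3 := fx_prod (fun e => Nat.not_dvd_of_pos_of_lt hc0 hc ((dvd_level N p r).trans e)) a0 ha
      h1 h2 σ hσ k hk
    have h4 : ∀ t : (ZMod (N * p ^ (r + 1)))ˣ, (σ t)⁻¹ ζ =
        ζ ^ ((t⁻¹ : (ZMod (N * p ^ (r + 1)))ˣ) : ZMod (N * p ^ (r + 1))).val := fun t => by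
      rw [cl_spec _ ζ1, map_inv, hσ]
    have h5 : ∀ t : (ZMod (N * p ^ (r + 1)))ˣ,
        (((t⁻¹ : (ZMod (N * p ^ (r + 1)))ˣ) : ZMod (N * p ^ (r + 1))).val : ZMod p) =
          ((t : ZMod (N * p ^ (r + 1))).val : ZMod p)⁻¹ := fun t => by
      refine eq_inv_of_mul_eq_one_left ?_
      rw [ZMod.natCast_val, ZMod.natCast_val, ← ZMod.cast_mul hd, Units.inv_mul, ZMod.cast_one hd]
    rw [map_prod] at h3
    simp only [map_zpow₀, key _ k hk, h4, mul_zpow, prod_mul_distrib, ← pow_mul] at h3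
    simp only [← zpow_natCast ζ, ← zpow_mul] at h3
    rw [rl_zpow_sum _ _ (hζ.ne_zero hp.ne_zero), mul_eq_right₀ (prod_ne_zero_iff.2 fun t _ =>
      zpow_ne_zero _ ((map_ne_zero _).2 a0)), hζ.zpow_eq_one_iff_dvd,
      ← ZMod.intCast_zmod_eq_zero_iff_dvd, Int.cast_sum] at h3
    rw [← h3]
    refine sum_congr rfl fun t _ => ?_
    rw [Int.cast_mul, Int.cast_natCast, Nat.cast_mul, h5, ZMod.natCast_zmod_val, mul_comm]

end Pool.Agent.Lib.MP_3d78c5_nt
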