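import Pool.Agent.Lib.MP_3d78c5_nt.Gau

/-! The theorem of Stickelberger. -/

set_option autoImplicit false

open scoped NNReal Classical
open Finset

namespace Pool.Agent.Lib.MP_3d78c5_nt

open Pool.Agent.Lib.MP_696deb_nt.B2

/-- Sums over a finite commutative group along the cosets of a cyclic subgroup. -/
theorem exists_reps_cyc {G : Type} [CommGroup G] [Fintype G] (u : G) :
    ∃ R : Finset G, ∀ f : G → ℤ, ∑ t, f t = ∑ t ∈ R, ∑ i ∈ range (orderOf u), f (t * (u ^ i)⁻¹) := by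
  refine ⟨univ.map ⟨(Quotient.out : G ⧸ Subgroup.zpowers u → G), Quotient.out_injective⟩,
    fun f => ?_⟩
  rw [sum_map, ← sum_fiberwise (s := univ) (g := (QuotientGroup.mk : G → G ⧸ Subgroup.zpowers u))]
  refine sum_congr rfl fun q _ => (sum_bij (fun i _ => q.out * (u ^ i)⁻¹) (fun i _ => ?_)
    (fun i hi j hj e => ?_) (fun t ht => ?_) fun _ _ => rfl).symm
  · rw [mem_filter_univ, QuotientGroup.mk_mul_of_mem _ (inv_mem (Subgroup.npow_mem_zpowers u i)),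
      QuotientGroup.out_eq']
  · exact pow_injOn_Iio_orderOf (mem_range.1 hi) (mem_range.1 hj)
      (inv_injective (mul_left_cancel e))
  · have h := QuotientGroup.eq.1 ((mem_filter.1 ht).2.trans (QuotientGroup.out_eq' q).symm)
    obtain ⟨i, hi, e⟩ := mem_image.1 (mem_zpowers_iff_mem_range_orderOf.1 h)
    exact ⟨i, hi, by rw [e, mul_inv_rev, inv_inv, mul_inv_cancel_left]⟩

theorem stk_zpow {ι : Type} {a : ℝ≥0} (ha : a ≠ 0) (s : Finset ι) (f : ι → ℤ) :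
    ∏ i ∈ s, a ^ f i = a ^ ∑ i ∈ s, f i := by
  induction s using Finset.induction_on with
  | empty => simp
  | insert i s hi ih => rw [prod_insert hi, sum_insert hi, ih, zpow_add₀ ha]

theorem stk_fx {ι : Type} {H : Subgroup Gam} (s : Finset ι) {f : ι → Qbar}
    (h : ∀ i ∈ s, Fx H (f i)) : Fx H (∏ i ∈ s, f i) := fun g hg => by
  rw [map_prod]
  exact prod_congr rfl fun i hi => h i hi g hg

variable {m c n : ℕ} [NeZero m]

/-- One prime. -/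
theorem stick_one (hc : ¬ m ∣ c) (σ : (ZMod m)ˣ → Gam) (hσ : ∀ t, cl m (σ t) = t) {b : Qbar}
    (hb : Fx (Hm m) b) {l : ℕ} (hl : l.Prime) (hlm : ¬ l ∣ m)
    (h2 : ∀ w : Plc, w.p = l → ∃ k : ℤ, w.V b = ((l : ℝ≥0) ^ (n * k : ℤ))⁻¹) :
    ∃ γ : Qbar, γ ≠ 0 ∧ Fx (Hm m) γ ∧ (∀ v : Plc, v.p ≠ l → v.V γ = 1) ∧
      ∀ w : Plc, w.p = l → w.V (∏ t, (σ t)⁻¹ b ^ nn c m t) = w.V γ ^ n := by
  have hu := ZMod.coe_unitOfCoprime l ((Nat.Prime.coprime_iff_not_dvd hl).2 hlm)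
  set u := ZMod.unitOfCoprime l ((Nat.Prime.coprime_iff_not_dvd hl).2 hlm)
  obtain ⟨w, γ, rfl, γ0, h3, h4, h5⟩ := exists_gauss hl hc u hu
  obtain ⟨R, hR⟩ := exists_reps_cyc u
  obtain ⟨φ, hφ⟩ := exists_frob w
  have e1 : cl m φ = u := Units.ext ((cl_frob hφ hlm).trans hu.symm)
  have l1 : (1 : ℝ≥0) < w.p := by exact_mod_cast hl.one_lt
  have l0 : (w.p : ℝ≥0)⁻¹ ≠ 0 := inv_ne_zero (zero_lt_one.trans l1).ne'
  choose k hk using fun t => h2 ((σ t)⁻¹ • w) rfl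
  simp only [smul_V, inv_inv] at hk
  have e2 : ∀ (t : (ZMod m)ˣ) (i : ℕ), (n * k (t * (u ^ i)⁻¹) : ℤ) = n * k t := fun t i => by
    refine zpow_right_injective₀ (zero_lt_one.trans l1) l1.ne' (inv_injective ?_)
    simp only [← hk]
    rw [← mem_Dec.1 (pow_mem hφ.1 i), ← AlgEquiv.mul_apply,
      fx_congr hb (g' := σ t) (by rw [map_mul, map_pow, e1, hσ, hσ, mul_comm, inv_mul_cancel_right])]
  refine ⟨∏ t ∈ R, (σ t)⁻¹ γ ^ k t,
    prod_ne_zero_iff.2 fun t _ => zpow_ne_zero _ ((map_ne_zero _).2 γ0),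
    stk_fx _ fun t _ g hg => by rw [map_zpow₀, fx_smul h3 _ g hg], fun v hv => ?_, fun v hv => ?_⟩
  · rw [map_prod]
    exact prod_eq_one fun t _ => by rw [map_zpow₀, ← smul_V, h4 (σ t • v) hv, one_zpow]
  · obtain ⟨g, rfl⟩ := plc_conj hv.symm
    have e3 : ∀ t, (g • w).V ((σ t)⁻¹ b ^ nn c m t) =
        (w.p : ℝ≥0)⁻¹ ^ (n * k ((cl m g)⁻¹ * t⁻¹) * nn c m t : ℤ) := fun t => by
      rw [map_pow, smul_V, ← AlgEquiv.mul_apply, fx_congr hb (g' := σ ((cl m g)⁻¹ * t⁻¹))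
        (by rw [map_mul, map_inv, map_inv, hσ, hσ]), hk, ← inv_zpow, zpow_mul _ (n * k _),
        zpow_natCast]
    have e4 : ∀ t, (g • w).V ((σ t)⁻¹ γ ^ k t) ^ n = (w.p : ℝ≥0)⁻¹ ^
        ∑ i ∈ range (orderOf u), (n * k t * nn c m (u ^ i * ((cl m g)⁻¹ * t⁻¹)) : ℤ) := fun t => by
      rw [map_zpow₀, smul_V, ← AlgEquiv.mul_apply, h5, map_mul, map_inv, map_inv, hσ, ← inv_pow,
        ← zpow_natCast, ← zpow_natCast, ← zpow_mul, ← zpow_mul, ← mul_sum, Nat.cast_sum]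
      congr 1
      ring
    rw [map_prod, map_prod, ← prod_pow]
    simp only [e3, e4, stk_zpow l0]
    congr 1
    rw [← Equiv.sum_comp (Equiv.inv _), ← Equiv.sum_comp (Equiv.mulLeft (cl m g)), hR]
    refine sum_congr rfl fun t _ => sum_congr rfl fun i _ => ?_
    simp only [Equiv.inv_apply, Equiv.coe_mulLeft, inv_inv, inv_mul_cancel_left, e2, mul_inv]
    rw [mul_comm (u ^ i), mul_assoc (cl m g)⁻¹]

theorem stick (hc : ¬ m ∣ c) (σ : (ZMod m)ˣ → Gam) (hσ : ∀ t, cl m (σ t) = t) {b : Qbar}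
    (hb : Fx (Hm m) b) (b0 : b ≠ 0) (h1 : ∀ w : Plc, w.p ∣ m → w.V b = 1)
    (h2 : ∀ w : Plc, ¬ w.p ∣ m → ∃ k : ℤ, w.V b = ((w.p : ℝ≥0) ^ (n * k : ℤ))⁻¹) :
    ∃ γ : Qbar, γ ≠ 0 ∧ Fx (Hm m) γ ∧
      ∀ w : Plc, w.V (∏ t, (σ t)⁻¹ b ^ nn c m t) = w.V γ ^ n := by
  obtain ⟨s, hs⟩ := finite_supp b0
  have h3 := fun (l : ℕ) (h : l.Prime ∧ ¬ l ∣ m) => stick_one (n := n) hc σ hσ hb h.1 h.2
    fun w e => e ▸ h2 w (e ▸ h.2)
  choose! γ g0 g1 g2 g3 using h3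
  refine ⟨∏ l ∈ s with l.Prime ∧ ¬ l ∣ m, γ l,
    prod_ne_zero_iff.2 fun l hl => g0 l (mem_filter.1 hl).2,
    stk_fx _ fun l hl => g1 l (mem_filter.1 hl).2, fun w => ?_⟩
  rw [map_prod _ γ]
  by_cases h : w.p ∈ s.filter fun l => l.Prime ∧ ¬ l ∣ m
  · rw [prod_eq_single_of_mem _ h fun l hl e => g2 l (mem_filter.1 hl).2 w e.symm,
      g3 _ (mem_filter.1 h).2 w rfl]
  · rw [prod_eq_one fun l hl => g2 l (mem_filter.1 hl).2 w fun e => h (e ▸ hl), one_pow, map_prod]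
    refine prod_eq_one fun t _ => ?_
    rw [map_pow, ← smul_V]
    by_cases h4 : w.p ∣ m
    · rw [h1 (σ t • w) h4, one_pow]
    · rw [hs (σ t • w) fun e => h (mem_filter.2 ⟨e, w.prime, h4⟩), one_pow]

end Pool.Agent.Lib.MP_3d78c5_nt
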