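import Pool.Agent.Lib.MP_3d78c5_nt.Md
import Pool.Agent.Lib.MP_3d78c5_nt.Fro

/-! The vanishing criterion. -/

set_option autoImplicit false

open scoped NNReal Classical
open Finset

namespace Pool.Agent.Lib.MP_3d78c5_nt

open Pool.Agent.Lib.MP_696deb_nt.B2

variable {p N : ℕ} [Fact p.Prime] [NeZero N]

/-- The `p`-torsion of `Q_p / Z_p`. -/
theorem exists_emb (p : ℕ) [Fact p.Prime] : ∃ e : ZMod p →+ QZ p, Function.Injective e ∧
    ∀ x : QZ p, (p : ℤ_[p]) • x = 0 → x ∈ Set.range e := by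
  have pp : p.Prime := Fact.out
  have p0 : (p : ℚ_[p]) ≠ 0 := Nat.cast_ne_zero.2 pp.ne_zero
  let y : QZ p := Submodule.Quotient.mk (p : ℚ_[p])⁻¹
  have hy : ∀ c : ℤ_[p], c • y = 0 ↔ (p : ℤ_[p]) ∣ c := fun c => by
    rw [← Submodule.Quotient.mk_smul, Submodule.Quotient.mk_eq_zero, Submodule.mem_one,
      Algebra.smul_def]
    refine exists_congr fun d => ?_
    rw [eq_mul_inv_iff_mul_eq₀ p0, ← map_natCast (algebraMap ℤ_[p] ℚ_[p]), ← map_mul,
      (IsFractionRing.injective ℤ_[p] ℚ_[p]).eq_iff, mul_comm, eq_comm]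
  have hz : ∀ n : ℤ, n • y = 0 ↔ (p : ℤ) ∣ n := fun n => by
    rw [← Int.cast_smul_eq_zsmul ℤ_[p], hy, ← PadicInt.norm_lt_one_iff_dvd,
      PadicInt.norm_int_lt_one_iff_dvd]
  refine ⟨ZMod.lift p ⟨zmultiplesHom _ y, (hz p).2 dvd_rfl⟩, ?_, fun x hx => ?_⟩
  · rw [injective_iff_map_eq_zero]
    intro a ha
    obtain ⟨n, rfl⟩ := ZMod.intCast_surjective a
    rw [ZMod.lift_coe] at ha
    exact (ZMod.intCast_zmod_eq_zero_iff_dvd n p).2 ((hz n).1 ha)
  · obtain ⟨x, rfl⟩ := Submodule.Quotient.mk_surjective _ x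
    rw [← Submodule.Quotient.mk_smul, Submodule.Quotient.mk_eq_zero, Submodule.mem_one] at hx
    obtain ⟨c, hc⟩ := hx
    have h1 : Submodule.Quotient.mk x = c • y := by
      rw [← Submodule.Quotient.mk_smul, Algebra.smul_def, hc, Algebra.smul_def, map_natCast,
        mul_comm, inv_mul_cancel_left₀ p0]
    refine ⟨((c.appr 1 : ℕ) : ℤ), ?_⟩
    rw [ZMod.lift_coe, h1, eq_comm, ← sub_eq_zero]
    change c • y - ((c.appr 1 : ℕ) : ℤ) • y = 0
    rw [← Int.cast_smul_eq_zsmul ℤ_[p], ← sub_smul, hy, Int.cast_natCast]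
    simpa only [pow_one] using Ideal.mem_span_singleton.1 (PadicInt.appr_spec 1 c)

theorem exists_unr (e : ZMod p →+ QZ p) (he : Function.Injective e) (f : UC p N)
    (hf : ∀ h, f.1 h ∈ Set.range e) :
    ∃ κ : Gam → ZMod p, Unr p N κ ∧ ∀ h : Hinf p N, f.1 h = e (κ h) := by
  choose k hk using hf
  have h1 : ∀ (g : Gam) (hg : g ∈ Hinf p N),
      e (if h : g ∈ Hinf p N then k ⟨g, h⟩ else 0) = f.1 ⟨g, hg⟩ := fun g hg => by
    rw [dif_pos hg, hk]
  refine ⟨fun g => if h : g ∈ Hinf p N then k ⟨g, h⟩ else 0, ⟨?_, fun g hg g' hg' => he ?_,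
    fun w g hg hw => he ?_⟩, fun h => (h1 h h.2).symm⟩
  · refine Sm.of_continuousOn closed_Hinf (continuousOn_iff_continuous_domRestrict.2 ?_)
    refine IsLocallyConstant.continuous (IsLocallyConstant.desc _ e ?_ he)
    have : (e ∘ (Hinf p N : Set Gam).domRestrict fun g => if h : g ∈ Hinf p N then k ⟨g, h⟩ else 0) =
        f.1 := funext fun g => h1 g g.2
    rw [this]
    exact f.2.2.1
  · rw [map_add, h1 g hg, h1 g' hg', h1 _ (mul_mem hg hg')]
    exact f.2.1 ⟨g, hg⟩ ⟨g', hg'⟩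
  · rw [h1 g hg, map_zero]
    exact f.2.2.2 _ ⟨b2aP w, inferInstance, fun x => hw.2 x (w.V_le_one_of_isIntegral x.2)⟩

theorem sum_range_units {R : Type} [CommRing R] {m : ℕ} [NeZero m] (θ : DirichletCharacter R m)
    (f : ℕ → R) : ∑ y ∈ range m, f y * θ y = ∑ s : (ZMod m)ˣ, f (s : ZMod m).val * θ s := by
  have h1 : ∑ y ∈ range m, f y * θ y = ∑ x : ZMod m, f x.val * θ x := by
    refine sum_bij' (fun y _ => (y : ZMod m)) (fun x _ => x.val) (fun _ _ => mem_univ _)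
      (fun x _ => mem_range.2 (ZMod.val_lt x)) (fun y hy => ZMod.val_cast_of_lt (mem_range.1 hy))
      (fun x _ => ZMod.natCast_zmod_val x) fun y hy => ?_
    rw [ZMod.val_cast_of_lt (mem_range.1 hy)]
  rw [h1]
  refine (sum_of_injOn (fun s : (ZMod m)ˣ => (s : ZMod m)) (fun _ _ _ _ h => Units.ext h)
    (fun _ _ => mem_univ _) (fun x _ hx => ?_) fun _ _ => rfl).symm
  rw [MulChar.map_nonunit, mul_zero]
  rintro ⟨u, rfl⟩
  exact hx ⟨u, mem_coe.2 (mem_univ u), rfl⟩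

theorem xtheta_zero (hN : ¬ p ∣ N) (hφ : ¬ p ∣ Nat.totient N) {c : ℕ} (hc0 : 0 < c)
    (hc : c < N * p) (hcp : c.Coprime p) (θ : DirichletCharacter (PadicAlgCl p) (N * p))
    (h : ‖SS θ c‖ = 1) : Subsingleton (Xθ θ) := by
  have pp : p.Prime := Fact.out
  have hφ' : ¬ p ∣ Nat.totient (N * p) := by
    rw [Nat.totient_mul ((Nat.Prime.coprime_iff_not_dvd pp).2 hN).symm, Nat.totient_prime pp]
    refine fun h => (pp.dvd_mul.1 h).elim hφ fun h => ?_
    have := pp.two_le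
    have := Nat.le_of_dvd (by omega) h
    omega
  choose τ hτ using exists_lift hφ'
  obtain ⟨e, he, he'⟩ := exists_emb p
  refine subsingleton_of θ τ (fun s => ⟨fun z hz => by rw [cl_spec _ hz, (hτ s).1], (hτ s).2⟩)
    (fun s => bb c (N * p) (s : ZMod (N * p)).val * ((s : ZMod (N * p)).val : ℤ) ^ (p - 2))
    (fun f hf => ?_) ?_
  · obtain ⟨κ, hκ, hf'⟩ := exists_unr e he f fun k =>
      he' _ (congrFun (congrArg Subtype.val hf) k)
    refine Subtype.ext (funext fun k => ?_)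
    have h1 := congrArg e (core hκ hc0 hc hcp hφ' τ hτ k k.2)
    rw [map_zero, map_sum] at h1
    rw [AddSubmonoidClass.coe_finsetSum, Finset.sum_apply]
    refine Eq.trans (sum_congr rfl fun s _ => ?_) h1
    change ((_ : ℤ) : ℤ_[p]) • f.1 (cj (τ s) k) = _
    have h2 : ((s : ZMod (N * p)).val : ZMod p) ≠ 0 := by
      rw [Ne, ZMod.natCast_eq_zero_iff, ← pp.coprime_iff_not_dvd]
      exact (Nat.Coprime.coprime_mul_left_right (ZMod.val_coe_unit_coprime s)).symm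
    have h3 : ((s : ZMod (N * p)).val : ZMod p) ^ (p - 2) = ((s : ZMod (N * p)).val : ZMod p)⁻¹ := by
      refine eq_inv_of_mul_eq_one_left ?_
      rw [← pow_succ, show p - 2 + 1 = p - 1 by have := pp.two_le; omega,
        ZMod.pow_card_sub_one_eq_one h2]
    rw [Int.cast_smul_eq_zsmul, hf', ← map_zsmul, zsmul_eq_mul, ← h3]
    push_cast
    rw [mul_assoc]
    rfl
  · rw [← h, SS, sum_range_units θ fun y => (bb c (N * p) y : PadicAlgCl p) * y ^ (p - 2)]
    push_cast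
    rfl

end Pool.Agent.Lib.MP_3d78c5_nt
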